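import Pool.Agent.Lib.MP_ff43e2_co.Defs

set_option autoImplicit false
open Finset Filter

namespace Pool.Agent.Lib.MP_ff43e2_co

theorem exists_le_avg {ι : Type*} (s : Finset ι) (hs : s.Nonempty) (f : ι → ℕ) (B : ℕ)
    (h : ∑ i ∈ s, f i ≤ B) : ∃ i ∈ s, f i * s.card ≤ B := by
  obtain ⟨i, hi, hmin⟩ := s.exists_min_image f hs
  refine ⟨i, hi, le_trans ?_ h⟩
  rw [mul_comm, ← smul_eq_mul]
  exact card_nsmul_le_sum s f _ hmin

theorem greedy_step {q s r : ℕ} (hrq : r ≤ q) (U : Finset (Finset (Fin q)))
    (hU : ∀ X ∈ U, X.card = s) :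
    ∃ e : Finset (Fin q), e.card = r ∧
      (U.filter (fun X => ¬ e ⊆ X)).card * q.choose r ≤ U.card * (q.choose r - s.choose r) := by
  have hc : (powersetCard r (univ : Finset (Fin q))).card = q.choose r := by simp
  have hne : (powersetCard r (univ : Finset (Fin q))).Nonempty := by
    rw [← card_pos, hc]; exact Nat.choose_pos hrq
  obtain ⟨e, he, h⟩ := exists_le_avg _ hne (fun e => (U.filter (fun X => ¬ e ⊆ X)).card)
    (U.card * (q.choose r - s.choose r)) (by
      simp only [card_filter]
      rw [sum_comm, ← smul_eq_mul, ← sum_const]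
      refine sum_le_sum (fun X hX => ?_)
      rw [← card_filter]
      have h1 := card_filter_add_card_filter_not (s := powersetCard r (univ : Finset (Fin q)))
        (fun e => e ⊆ X)
      have h2 : (powersetCard r (univ : Finset (Fin q))).filter (fun e => e ⊆ X)
          = powersetCard r X := by
        ext e; simp [mem_powersetCard, and_comm]
      rw [h2, card_powersetCard, hU X hX, hc] at h1
      omega)
  rw [hc] at h
  exact ⟨e, (mem_powersetCard.1 he).2, h⟩

theorem greedy {q s r : ℕ} (hrq : r ≤ q) (M : ℕ) : ∀ (U : Finset (Finset (Fin q))),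
    (∀ X ∈ U, X.card = s) → U.card * (q.choose r - s.choose r) ^ M < (q.choose r) ^ M →
    ∃ F : Finset (Finset (Fin q)), F.card ≤ M ∧ (∀ e ∈ F, e.card = r) ∧
      ∀ X ∈ U, ∃ e ∈ F, e ⊆ X := by
  induction M with
  | zero =>
    intro U _ h
    have : U = ∅ := by simpa using h
    exact ⟨∅, by simp, by simp, by simp [this]⟩
  | succ M ih =>
    intro U hU h
    obtain ⟨e, he, h1⟩ := greedy_step (s := s) hrq U hU
    obtain ⟨F, f1, f2, f3⟩ := ih (U.filter (fun X => ¬ e ⊆ X))
      (fun X hX => hU X (mem_filter.1 hX).1) (by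
        have hp := Nat.choose_pos hrq
        apply lt_of_mul_lt_mul_right _ hp.le
        calc _ = (U.filter (fun X => ¬ e ⊆ X)).card * q.choose r
              * (q.choose r - s.choose r) ^ M := by ring
          _ ≤ U.card * (q.choose r - s.choose r) * (q.choose r - s.choose r) ^ M := by gcongr
          _ = U.card * (q.choose r - s.choose r) ^ (M + 1) := by ring
          _ < _ := by rwa [← pow_succ])
    refine ⟨insert e F, (card_insert_le _ _).trans (by omega), ?_, fun X hX => ?_⟩
    · intro x hx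
      rcases mem_insert.1 hx with rfl | hx
      · exact he
      · exact f2 x hx
    · by_cases hx : e ⊆ X
      · exact ⟨e, mem_insert_self _ _, hx⟩
      · obtain ⟨e', h2, h3⟩ := f3 X (mem_filter.2 ⟨hX, hx⟩)
        exact ⟨e', mem_insert_of_mem h2, h3⟩

section excess
variable {V W : Type*} [DecidableEq V] [DecidableEq W] (π : V → W)

theorem excess_mono {Y X : Finset V} (h : Y ⊆ X) :
    (X.image π).card + Y.card ≤ (Y.image π).card + X.card := by
  have h1 : X.image π ⊆ Y.image π ∪ (X \ Y).image π := by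
    rw [← image_union, union_sdiff_of_subset h]
  have h2 := (card_le_card h1).trans (card_union_le _ _)
  have h3 : ((X \ Y).image π).card ≤ (X \ Y).card := card_image_le
  have h4 := card_sdiff_add_card_eq_card h
  omega

theorem excess_small (X : Finset V) (h : ℕ) (hX : (X.image π).card + h ≤ X.card) :
    ∃ Y ⊆ X, Y.card ≤ 2 * h ∧ (Y.image π).card + h ≤ Y.card := by
  induction h generalizing X with
  | zero => exact ⟨∅, by simp, by simp, by simp⟩
  | succ h ih =>
    have hni : ¬ Set.InjOn π X := by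
      intro hi
      rw [card_image_of_injOn hi] at hX
      omega
    obtain ⟨a, ha, b, hb, hab, hne⟩ : ∃ a ∈ X, ∃ b ∈ X, π a = π b ∧ a ≠ b := by
      by_contra hc
      push Not at hc
      exact hni (fun a ha b hb hab => hc a ha b hb hab)
    have h1 : ((X.erase a).image π).card ≤ (X.image π).card :=
      card_le_card (image_subset_image (erase_subset _ _))
    have h2 := card_erase_add_one ha
    obtain ⟨Y, y1, y2, y3⟩ := ih (X.erase a) (by omega)
    have haY : a ∉ insert b Y := by
      intro hh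
      rcases mem_insert.1 hh with hh | hh
      · exact hne hh
      · exact notMem_erase a X (y1 hh)
    refine ⟨insert a (insert b Y), ?_, ?_, ?_⟩
    · exact insert_subset ha (insert_subset hb (y1.trans (erase_subset _ _)))
    · have := card_insert_le b Y
      rw [card_insert_of_notMem haY]; omega
    · have e1 : (insert a (insert b Y)).image π = (insert b Y).image π := by
        rw [image_insert, image_insert, hab, insert_idem]
      have := excess_mono π (subset_insert b Y)
      rw [e1, card_insert_of_notMem haY]; omega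

theorem excess_exact (X : Finset V) {h r : ℕ} (hX : (X.image π).card + h ≤ X.card)
    (hr : 2 * h ≤ r) (hrX : r ≤ X.card) :
    ∃ Y ⊆ X, Y.card = r ∧ (Y.image π).card + h ≤ r := by
  obtain ⟨Y, y1, y2, y3⟩ := excess_small π X h hX
  obtain ⟨Z, z1, z2, z3⟩ := exists_subsuperset_card_eq y1 (y2.trans hr) hrX
  have := excess_mono π z1
  exact ⟨Z, z2, z3, by omega⟩

omit [DecidableEq V] in
theorem exists_rainbow (X : Finset V) (e : Finset W) (he : e ⊆ X.image π) :
    ∃ Y ⊆ X, Y.card = e.card ∧ Y.image π = e := by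
  obtain ⟨Y, y1, y2, y3⟩ := exists_subset_injOn_image_eq_of_surjOn (f := π) (X : Set V) e
    (fun w hw => by simpa using he hw)
  exact ⟨Y, y1, by rw [← y3, card_image_of_injOn y2], y3⟩

end excess

theorem count_sub {n q : ℕ} (Y : Finset (Fin n)) (Z : Finset (Fin q)) :
    ((univ : Finset (Fin n → Fin q)).filter (fun π => Y.image π ⊆ Z)).card
      = Z.card ^ Y.card * q ^ (n - Y.card) := by
  have h1 : (univ : Finset (Fin n → Fin q)).filter (fun π => Y.image π ⊆ Z)
      = Fintype.piFinset (fun i => if i ∈ Y then Z else univ) := by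
    ext π
    simp only [mem_filter, mem_univ, true_and, Fintype.mem_piFinset, image_subset_iff]
    constructor
    · intro h i
      split_ifs with hi
      · exact h i hi
      · exact mem_univ _
    · intro h i hi
      simpa [hi] using h i
  rw [h1, Fintype.card_piFinset]
  simp only [apply_ite Finset.card, card_univ, Fintype.card_fin]
  rw [prod_ite, prod_const, prod_const]
  congr 2
  · simp
  · rw [filter_not, card_sdiff_of_subset (filter_subset _ _)]; simp

theorem count_eq {n q : ℕ} (Y : Finset (Fin n)) (Z : Finset (Fin q)) (hZ : Z.card = Y.card) :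
    ((univ : Finset (Fin n → Fin q)).filter (fun π => Y.image π = Z)).card
      ≤ Y.card.factorial * q ^ (n - Y.card) := by
  have h1 : Fintype.card ((Y ↪ Z) × ({i // i ∉ Y} → Fin q))
      = Y.card.factorial * q ^ (n - Y.card) := by
    rw [Fintype.card_prod, Fintype.card_embedding_eq, Fintype.card_fun]
    simp [hZ, Nat.descFactorial_self]
  rw [← h1, ← Fintype.card_coe]
  have hinj : ∀ π : ((univ : Finset (Fin n → Fin q)).filter (fun π => Y.image π = Z)),
      Set.InjOn π.1 Y := by
    intro π
    have := (mem_filter.1 π.2).2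
    rw [← card_image_iff, this, hZ]
  refine Fintype.card_le_of_injective (fun π => (⟨fun i => ⟨π.1 i,
      (mem_filter.1 π.2).2.subset (mem_image_of_mem _ i.2)⟩, fun i j hij =>
      Subtype.ext (hinj π i.2 j.2 (congrArg Subtype.val hij))⟩, fun i => π.1 i)) ?_
  intro π σ h
  obtain ⟨h2, h3⟩ := Prod.ext_iff.1 h
  apply Subtype.ext
  funext i
  by_cases hi : i ∈ Y
  · exact congrArg Subtype.val (DFunLike.congr_fun h2 ⟨i, hi⟩)
  · exact congrFun h3 ⟨i, hi⟩

theorem blowup {n q s r h M : ℕ} (hq : 0 < q) (hrn : r ≤ n) (hh : 2 * h ≤ r) (hrs : r ≤ s)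
    (hgq : r - h ≤ q) (F : Finset (Finset (Fin q))) (f1 : F.card ≤ M) (f2 : ∀ e ∈ F, e.card = r)
    (f3 : ∀ X : Finset (Fin q), X.card = s → ∃ e ∈ F, e ⊆ X) :
    T n (s + h) r * q ^ r ≤ n.choose r * (M * r.factorial + q.choose (r - h) * (r - h) ^ r) := by
  set H : (Fin n → Fin q) → Finset (Finset (Fin n)) := fun π =>
    (powersetCard r univ).filter (fun Y => Y.image π ∈ F ∨ (Y.image π).card + h ≤ r) with hH
  have : Nonempty (Fin q) := ⟨⟨0, hq⟩⟩
  obtain ⟨π, -, hπ⟩ := exists_le_avg (univ : Finset (Fin n → Fin q)) univ_nonempty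
    (fun π => (H π).card)
    (n.choose r * (M * r.factorial + q.choose (r - h) * (r - h) ^ r) * q ^ (n - r)) (by
      simp only [hH, card_filter]
      rw [sum_comm, mul_assoc]
      have hc : (powersetCard r (univ : Finset (Fin n))).card = n.choose r := by simp
      rw [← hc, ← smul_eq_mul, ← sum_const]
      refine sum_le_sum (fun Y hY => ?_)
      have hYc := (mem_powersetCard.1 hY).2
      rw [← card_filter]
      have h1 : (univ : Finset (Fin n → Fin q)).filter
          (fun π => Y.image π ∈ F ∨ (Y.image π).card + h ≤ r)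
          ⊆ F.biUnion (fun Z => univ.filter (fun π => Y.image π = Z)) ∪
            (powersetCard (r - h) (univ : Finset (Fin q))).biUnion
              (fun Z => univ.filter (fun π => Y.image π ⊆ Z)) := by
        intro π hπ
        rcases (mem_filter.1 hπ).2 with h2 | h2
        · exact mem_union_left _ (mem_biUnion.2 ⟨_, h2, by simp⟩)
        · obtain ⟨Z, z1, -, z3⟩ := exists_subsuperset_card_eq (subset_univ (Y.image π))
            (n := r - h) (by omega) (by simpa using hgq)
          exact mem_union_right _ (mem_biUnion.2 ⟨Z, by simp [z3], by simpa using z1⟩)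
      refine (card_le_card h1).trans ((card_union_le _ _).trans ?_)
      rw [add_mul]
      refine add_le_add (card_biUnion_le.trans ?_) (card_biUnion_le.trans ?_)
      · refine (sum_le_card_nsmul _ _ (r.factorial * q ^ (n - r)) (fun Z hZ => ?_)).trans ?_
        · have := count_eq Y Z (by rw [f2 Z hZ, hYc])
          rwa [hYc] at this
        · rw [smul_eq_mul, mul_assoc]; gcongr
      · refine (sum_le_card_nsmul _ _ ((r - h) ^ r * q ^ (n - r)) (fun Z hZ => ?_)).trans ?_
        · rw [count_sub, (mem_powersetCard.1 hZ).2, hYc]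
        · simp [mul_assoc])
  have h1 : T n (s + h) r ≤ (H π).card := by
    apply Nat.sInf_le
    refine ⟨H π, fun e he => (mem_powersetCard.1 (mem_filter.1 he).1).2, fun X hX => ?_, rfl⟩
    rcases le_or_gt s (X.image π).card with h2 | h2
    · obtain ⟨Z, z1, z2⟩ := exists_subset_card_eq h2
      obtain ⟨e, e1, e2⟩ := f3 Z z2
      obtain ⟨Y, y1, y2, y3⟩ := exists_rainbow π X e (e2.trans z1)
      exact ⟨Y, mem_filter.2 ⟨by simp [y2, f2 e e1], Or.inl (y3 ▸ e1)⟩, y1⟩
    · obtain ⟨Y, y1, y2, y3⟩ := excess_exact π X (h := h) (r := r) (by omega) hh (by omega)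
      exact ⟨Y, mem_filter.2 ⟨by simp [y2], Or.inr y3⟩, y1⟩
  have h2 : (univ : Finset (Fin n → Fin q)).card = q ^ r * q ^ (n - r) := by
    rw [← pow_add, Nat.add_sub_cancel' hrn]; simp
  rw [h2, ← mul_assoc] at hπ
  have h3 := le_of_mul_le_mul_right hπ (by positivity)
  exact le_trans (by gcongr) h3

theorem T_spec (n : ℕ) {k r : ℕ} (hrk : r ≤ k) : ∃ H : Finset (Finset (Fin n)),
    (∀ e ∈ H, e.card = r) ∧ (∀ X : Finset (Fin n), X.card = k → ∃ e ∈ H, e ⊆ X) ∧
      H.card = T n k r := by
  apply Nat.sInf_mem (s := {m : ℕ | ∃ H : Finset (Finset (Fin n)), (∀ e ∈ H, e.card = r) ∧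
    (∀ X : Finset (Fin n), X.card = k → ∃ e ∈ H, e ⊆ X) ∧ H.card = m})
  refine ⟨_, powersetCard r univ, fun e he => (mem_powersetCard.1 he).2, fun X hX => ?_, rfl⟩
  obtain ⟨Z, z1, z2⟩ := exists_subset_card_eq (s := X) (n := r) (by omega)
  exact ⟨Z, by simp [z2], z1⟩

theorem T_step (n : ℕ) {k r : ℕ} (hrk : r ≤ k) :
    T n k r * (n + 1) ≤ T (n + 1) k r * (n + 1 - r) := by
  obtain ⟨H, h1, h2, h3⟩ := T_spec (n + 1) hrk
  have key : ∀ v : Fin (n + 1), T n k r ≤ (H.filter (fun e => v ∉ e)).card := by
    intro v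
    have a1 : T n k r ≤ ((powersetCard r (univ : Finset (Fin n))).filter
        (fun e => e.map (Fin.succAboveEmb v) ∈ H)).card := by
      apply Nat.sInf_le
      refine ⟨_, fun e he => (mem_powersetCard.1 (mem_filter.1 he).1).2, fun X hX => ?_, rfl⟩
      obtain ⟨e, e1, e2⟩ := h2 (X.map (Fin.succAboveEmb v)) (by simpa using hX)
      obtain ⟨u, u1, rfl⟩ := subset_map_iff.1 e2
      exact ⟨u, mem_filter.2 ⟨by simpa using h1 _ e1, e1⟩, u1⟩
    refine a1.trans (card_le_card_of_injOn (fun e => e.map (Fin.succAboveEmb v)) ?_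
      (fun a _ b _ hab => map_injective _ hab))
    intro e he
    refine mem_coe.2 (mem_filter.2 ⟨(mem_filter.1 he).2, ?_⟩)
    simp
  have a2 : ∑ v : Fin (n + 1), (H.filter (fun e => v ∉ e)).card = H.card * (n + 1 - r) := by
    simp only [card_filter]
    rw [sum_comm, ← smul_eq_mul, ← sum_const]
    refine sum_congr rfl (fun e he => ?_)
    rw [← card_filter, filter_not, card_sdiff_of_subset (filter_subset _ _)]
    simp [h1 e he]
  rw [← h3, ← a2]
  have := card_nsmul_le_sum (univ : Finset (Fin (n + 1))) _ _ (fun v _ => key v)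
  simpa [mul_comm] using this

theorem ratio_mono {k r : ℕ} (hrk : r ≤ k) :
    Monotone (fun n : ℕ => (T n k r : ℝ) / (n.choose r : ℝ)) := by
  apply monotone_nat_of_le_succ
  intro n
  rcases lt_or_ge n r with h | h
  · rw [Nat.choose_eq_zero_of_lt h]
    simp only [Nat.cast_zero, div_zero]
    positivity
  · have p1 : (0:ℝ) < n.choose r := by exact_mod_cast Nat.choose_pos h
    have p2 : (0:ℝ) < (n + 1).choose r := by exact_mod_cast Nat.choose_pos (by omega)
    rw [div_le_div_iff₀ p1 p2]
    have a1 := T_step n hrk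
    have a2 := Nat.choose_mul_succ_eq n r
    have a3 : T n k r * (n + 1).choose r ≤ T (n + 1) k r * n.choose r := by
      apply le_of_mul_le_mul_right _ (Nat.succ_pos n)
      calc T n k r * (n + 1).choose r * (n + 1) = T n k r * (n + 1) * (n + 1).choose r := by ring
        _ ≤ T (n + 1) k r * (n + 1 - r) * (n + 1).choose r := by gcongr
        _ = T (n + 1) k r * ((n + 1).choose r * (n + 1 - r)) := by ring
        _ = T (n + 1) k r * n.choose r * (n + 1) := by rw [← a2]; ring
    exact_mod_cast a3

theorem t_bounds {k r : ℕ} (hrk : r ≤ k) {B : ℝ} (hB0 : 0 ≤ B)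
    (hB : ∀ n, r ≤ n → (T n k r : ℝ) ≤ B * n.choose r) : 0 ≤ t k r ∧ t k r ≤ B := by
  have h1 : ∀ n, (T n k r : ℝ) / (n.choose r : ℝ) ≤ B := by
    intro n
    rcases lt_or_ge n r with h | h
    · rw [Nat.choose_eq_zero_of_lt h]; simpa using hB0
    · have p1 : (0:ℝ) < n.choose r := by exact_mod_cast Nat.choose_pos h
      rw [div_le_iff₀ p1]; exact hB n h
  have h2 := tendsto_atTop_ciSup (ratio_mono hrk) ⟨B, by rintro _ ⟨n, rfl⟩; exact h1 n⟩
  unfold t
  rw [h2.limUnder_eq]
  exact ⟨ge_of_tendsto' h2 (fun n => by positivity), le_of_tendsto' h2 h1⟩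

theorem t_nonneg {k r : ℕ} (hrk : r ≤ k) : 0 ≤ t k r := by
  refine (t_bounds hrk zero_le_one (fun n _ => ?_)).1
  obtain ⟨H, h1, -, h3⟩ := T_spec n hrk
  have : H ⊆ powersetCard r univ := fun e he => by simp [h1 e he]
  have := card_le_card this
  rw [h3] at this
  simp only [card_powersetCard, card_univ, Fintype.card_fin] at this
  rw [one_mul]; exact_mod_cast this

end Pool.Agent.Lib.MP_ff43e2_co
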