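import Mathlib

set_option autoImplicit false
open Filter

namespace Pool.Agent.Lib.MP_ff43e2_co

/-- `T n k r`: least number of edges of an `r`-graph on `n` vertices in which every `k` vertices
span at least one edge. -/
noncomputable def T (n k r : ℕ) : ℕ :=
  sInf {m : ℕ | ∃ H : Finset (Finset (Fin n)), (∀ e ∈ H, e.card = r) ∧
    (∀ X : Finset (Fin n), X.card = k → ∃ e ∈ H, e ⊆ X) ∧ H.card = m}

/-- Turan density `t(k,r)`. -/
noncomputable def t (k r : ℕ) : ℝ :=
  limUnder atTop (fun n : ℕ => (T n k r : ℝ) / (n.choose r : ℝ))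

/-- rescaled Turan density `t_*(a+1,r)`. -/
noncomputable def tStar (a r : ℕ) : ℝ := (a : ℝ) ^ (r - 1) / (r.factorial : ℝ) * t (a + 1) r

/-- asymptotic rescaled Turan density `t_*(r)`, the infimum over `k = a+1 > r`. -/
noncomputable def tInf (r : ℕ) : ℝ := ⨅ a : {a : ℕ // r ≤ a}, tStar a r

end Pool.Agent.Lib.MP_ff43e2_co
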