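import Pool.Agent.Lib.MP_ff43e2_co.Upper

set_option autoImplicit false
open Finset

namespace Pool.Agent.Lib.MP_ff43e2_co.Four

theorem blowup4 {V : Type} [Fintype V] [DecidableEq V] (hV : 2 ≤ Fintype.card V) {s M n : ℕ}
    (hn : 4 ≤ n) (hs : 4 ≤ s) (F : Finset (Finset V)) (f1 : F.card ≤ M)
    (f2 : ∀ e ∈ F, e.card = 4) (f3 : ∀ X : Finset V, X.card = s → ∃ e ∈ F, e ⊆ X) :
    T n (s + 2) 4 * Fintype.card V ^ 4
      ≤ n.choose 4 * (M * 24 + (Fintype.card V).choose 2 * 16) := by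
  set e := Fintype.equivFin V
  refine blowup (q := Fintype.card V) (r := 4) (h := 2) (by omega) hn le_rfl hs hV
    (F.image (fun Y => Y.map e.toEmbedding)) (card_image_le.trans f1) ?_ ?_
  · intro Y hY
    obtain ⟨Z, hZ, rfl⟩ := mem_image.1 hY
    rw [card_map, f2 Z hZ]
  · intro X hX
    obtain ⟨Z, hZ, hZX⟩ := f3 (X.map e.symm.toEmbedding) (by rw [card_map, hX])
    refine ⟨_, mem_image_of_mem _ hZ, fun x hx => ?_⟩
    obtain ⟨y, hy, rfl⟩ := mem_map.1 hx
    obtain ⟨z, hz, rfl⟩ := mem_map.1 (hZX hy)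
    simpa using hz

theorem card_filter_pi {Y : Type} [Fintype Y] [DecidableEq Y] (S : Fin 20 → Fin 20 → Finset Y) :
    (univ.filter (fun a : Fin 20 × (Fin 20 → Y) => ∀ j, a.2 j ∈ S a.1 j)).card
      = ∑ l, ∏ j, (S l j).card := by
  rw [card_filter, Fintype.sum_prod_type]
  refine sum_congr rfl (fun l _ => ?_)
  rw [← card_filter, ← Fintype.card_piFinset]
  congr 1
  ext u
  simp

theorem first_diff {w w' : Fin 20 → Bool} (h : w ≠ w') :
    ∃ l, (∀ j < l, w j = w' j) ∧ w l ≠ w' l := by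
  have hne : (univ.filter (fun j => w j ≠ w' j)).Nonempty := by
    obtain ⟨j, hj⟩ := Function.ne_iff.1 h
    exact ⟨j, by simpa using hj⟩
  refine ⟨min' _ hne, fun j hj => ?_, by simpa using min'_mem _ hne⟩
  by_contra hc
  exact absurd (min'_le _ j (by simpa using hc)) (not_le.2 hj)

theorem card_four {V : Type} [DecidableEq V] {a b c d : V} (h1 : a ≠ b) (h2 : a ≠ c) (h3 : a ≠ d)
    (h4 : b ≠ c) (h5 : b ≠ d) (h6 : c ≠ d) : ({a, b, c, d} : Finset V).card = 4 := by
  rw [card_insert_of_notMem (by simp [h1, h2, h3]), card_insert_of_notMem (by simp [h4, h5]),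
    card_pair h6]

/-- the planes of the affine space of dimension three over the field with two elements -/
def L : Finset (Fin 8 × Fin 8 × Fin 8 × Fin 8) :=
  {(0, 1, 2, 3), (0, 1, 4, 5), (0, 1, 6, 7), (0, 2, 4, 6), (0, 2, 5, 7), (0, 3, 4, 7),
    (0, 3, 5, 6), (1, 2, 4, 7), (1, 2, 5, 6), (1, 3, 4, 6), (1, 3, 5, 7), (2, 3, 4, 5),
    (2, 3, 6, 7), (4, 5, 6, 7)}

theorem L_card : L.card = 14 := by decide +kernel

theorem L_lt : ∀ t ∈ L, t.1 < t.2.1 ∧ t.2.1 < t.2.2.1 ∧ t.2.2.1 < t.2.2.2 := by simp [L]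

theorem L_aux : ∀ a b c d e f g h : Bool,
    4 < (univ.filter (fun i : Fin 8 => ![a, b, c, d, e, f, g, h] i = true)).card →
    ∃ t ∈ L, ![a, b, c, d, e, f, g, h] t.1 = true ∧ ![a, b, c, d, e, f, g, h] t.2.1 = true ∧
      ![a, b, c, d, e, f, g, h] t.2.2.1 = true ∧ ![a, b, c, d, e, f, g, h] t.2.2.2 = true := by
  decide +kernel

theorem L_cover (Z : Finset (Fin 8)) (hZ : 4 < Z.card) :
    ∃ t ∈ L, t.1 ∈ Z ∧ t.2.1 ∈ Z ∧ t.2.2.1 ∈ Z ∧ t.2.2.2 ∈ Z := by
  have key : ∀ i : Fin 8, (![decide (0 ∈ Z), decide (1 ∈ Z), decide (2 ∈ Z), decide (3 ∈ Z),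
      decide (4 ∈ Z), decide (5 ∈ Z), decide (6 ∈ Z), decide (7 ∈ Z)] i = true) ↔ i ∈ Z := by
    intro i; fin_cases i <;> simp
  have := L_aux (decide (0 ∈ Z)) (decide (1 ∈ Z)) (decide (2 ∈ Z)) (decide (3 ∈ Z))
    (decide (4 ∈ Z)) (decide (5 ∈ Z)) (decide (6 ∈ Z)) (decide (7 ∈ Z))
  simp only [key] at this
  exact this (by simpa using hZ)

def S2 (l j : Fin 20) : Finset (Bool × Bool) :=
  if j < l then {(false, false), (true, true)} else if j = l then {(false, true)} else univ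

def S4 (l j : Fin 20) : Finset ((Bool × Bool) × (Bool × Bool)) :=
  if j < l then {((false, false), (false, false)), ((true, true), (true, true))}
  else if j = l then {((false, true), (false, true))} else univ

/-- oriented pairs of leaves of the binary tree, with the depth at which they split -/
def Tw : Finset (Fin 20 × (Fin 20 → Bool × Bool)) := univ.filter (fun a => ∀ j, a.2 j ∈ S2 a.1 j)

def T4 : Finset (Fin 20 × (Fin 20 → (Bool × Bool) × (Bool × Bool))) :=
  univ.filter (fun a => ∀ j, a.2 j ∈ S4 a.1 j)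

theorem Tw_card : Tw.card = 549755289600 := by
  rw [Tw, card_filter_pi]; decide +kernel

theorem T4_card : T4.card = 86351844258187798118400 := by
  rw [T4, card_filter_pi]; decide +kernel

theorem mem_Tw {a : Fin 20 × (Fin 20 → Bool × Bool)} :
    a ∈ Tw ↔ (∀ j < a.1, (a.2 j).1 = (a.2 j).2) ∧ a.2 a.1 = (false, true) := by
  simp only [Tw, mem_filter, mem_univ, true_and, S2]
  constructor
  · intro h
    refine ⟨fun j hj => ?_, by simpa using h a.1⟩
    have := h j
    rw [if_pos hj] at this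
    rcases mem_insert.1 this with h1 | h1
    · rw [h1]
    · rw [mem_singleton.1 h1]
  · rintro ⟨h1, h2⟩ j
    split_ifs with c1 c2
    · have := h1 j c1
      rcases hx : a.2 j with ⟨x, y⟩
      rw [hx] at this
      cases x <;> cases y <;> simp_all
    · rw [c2, h2]; simp
    · simp

theorem mem_T4 {a : Fin 20 × (Fin 20 → (Bool × Bool) × (Bool × Bool))} (h : a ∈ T4) :
    (a.1, fun j => (a.2 j).1) ∈ Tw ∧ (a.1, fun j => (a.2 j).2) ∈ Tw ∧
      ∀ j < a.1, (a.2 j).1.1 = (a.2 j).2.1 := by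
  simp only [T4, mem_filter, mem_univ, true_and, S4] at h
  have h1 : ∀ j < a.1, a.2 j = ((false, false), (false, false)) ∨
      a.2 j = ((true, true), (true, true)) := by
    intro j hj
    have := h j
    rw [if_pos hj] at this
    simpa using this
  have h2 : a.2 a.1 = ((false, true), (false, true)) := by simpa using h a.1
  refine ⟨mem_Tw.2 ⟨fun j hj => ?_, by simp [h2]⟩, mem_Tw.2 ⟨fun j hj => ?_, by simp [h2]⟩,
    fun j hj => ?_⟩ <;> rcases h1 j hj with h3 | h3 <;> simp [h3]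

variable (m : ℕ) [NeZero m]

/-- parts -/
abbrev P := Fin 11 × ZMod m × Fin 8
/-- vertices -/
abbrev V := P m × (Fin 20 → Bool)
/-- twin pairs -/
abbrev N := P m × (Fin 20 × (Fin 20 → Bool × Bool))

def A : Finset (N m) := univ ×ˢ Tw

variable {m}

def col (a : N m) : ZMod m × Fin 8 := (a.1.2.1 + (a.2.1.val : ZMod m), a.1.2.2)

def Same (a b : N m) : Prop := a.1 = b.1 ∧ a.2.1 = b.2.1 ∧ ∀ j < a.2.1, (a.2.2 j).1 = (b.2.2 j).1

instance (a b : N m) : Decidable (Same a b) := by unfold Same; infer_instance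

omit [NeZero m] in
theorem Same.symm {a b : N m} (h : Same a b) : Same b a :=
  ⟨h.1.symm, h.2.1.symm, fun j hj => (h.2.2 j (h.2.1 ▸ hj)).symm⟩

def lv (a : N m) : V m := (a.1, fun j => (a.2.2 j).1)
def rv (a : N m) : V m := (a.1, fun j => (a.2.2 j).2)

variable (m)

def SS : Finset (N m × N m) := (A m ×ˢ A m).filter (fun x => col x.1 = col x.2)
def C : Finset (N m × N m) := (SS m).filter (fun x => ¬ Same x.1 x.2)
def F2 : Finset (Finset (V m)) := (C m).image (fun x => {lv x.1, rv x.1, lv x.2, rv x.2})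

theorem card_P : Fintype.card (P m) = 88 * m := by
  simp only [Fintype.card_prod, Fintype.card_fin, ZMod.card]; ring

theorem A_card : (A m).card = 88 * m * 549755289600 := by
  rw [A, card_product, card_univ, card_P, Tw_card]

theorem SS_card : (SS m).card ≤ 88 * m * 549755289600 * (11 * 549755289600) := by
  have : (A m ×ˢ ((univ : Finset (Fin 11)) ×ˢ Tw)).card
      = 88 * m * 549755289600 * (11 * 549755289600) := by
    rw [card_product, card_product, A_card, Tw_card, card_univ, Fintype.card_fin]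
  rw [← this]
  refine card_le_card_of_injOn (fun x => (x.1, (x.2.1.1, x.2.2))) ?_ ?_
  · intro x hx
    have h1 := mem_product.1 (mem_filter.1 (mem_coe.1 hx)).1
    exact mem_coe.2 (mem_product.2 ⟨h1.1, mem_product.2 ⟨mem_univ _, (mem_product.1 h1.2).2⟩⟩)
  · rintro ⟨a, ⟨h, g, x⟩, u⟩ h1 ⟨a', ⟨h', g', x'⟩, u'⟩ h2 he
    have c1 := (mem_filter.1 (mem_coe.1 h1)).2
    have c2 := (mem_filter.1 (mem_coe.1 h2)).2
    simp only [Prod.mk.injEq] at he
    obtain ⟨rfl, rfl, rfl⟩ := he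
    have c3 := c1.symm.trans c2
    simp only [col, Prod.mk.injEq, add_left_inj] at c3
    obtain ⟨rfl, rfl⟩ := c3
    rfl

theorem Same_card : 88 * m * 86351844258187798118400
    ≤ ((SS m).filter (fun x => Same x.1 x.2)).card := by
  obtain ⟨Q, hQ, hQ2⟩ : ∃ Q, Q = T4 ∧ ∀ a ∈ Q, (a.1, fun j => (a.2 j).1) ∈ Tw ∧
      (a.1, fun j => (a.2 j).2) ∈ Tw ∧ ∀ j < a.1, (a.2 j).1.1 = (a.2 j).2.1 :=
    ⟨T4, rfl, fun _ => mem_T4⟩
  have : ((univ : Finset (P m)) ×ˢ Q).card = 88 * m * 86351844258187798118400 := by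
    rw [card_product, card_univ, card_P, hQ, T4_card]
  clear hQ
  rw [← this]
  refine card_le_card_of_injOn
    (fun y => ((y.1, (y.2.1, fun j => (y.2.2 j).1)), (y.1, (y.2.1, fun j => (y.2.2 j).2)))) ?_ ?_
  · rintro ⟨p, u⟩ hy
    rw [mem_coe, mem_product] at hy
    obtain ⟨h1, h2, h3⟩ := hQ2 u hy.2
    exact mem_coe.2 (mem_filter.2 ⟨mem_filter.2 ⟨mem_product.2 ⟨mem_product.2 ⟨mem_univ _, h1⟩,
      mem_product.2 ⟨mem_univ _, h2⟩⟩, rfl⟩, rfl, rfl, h3⟩)
  · rintro ⟨p, l, z⟩ - ⟨p', l', z'⟩ - he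
    simp only [Prod.mk.injEq] at he
    obtain ⟨⟨rfl, rfl, h1⟩, -, -, h2⟩ := he
    have : z = z' := funext fun j => Prod.ext (congrFun h1 j) (congrFun h2 j)
    rw [this]

theorem F2_card : 2 * (F2 m).card + 88 * m * 86351844258187798118400
    ≤ 88 * m * 549755289600 * (11 * 549755289600) := by
  have h1 : 2 * (F2 m).card ≤ (C m).card := by
    classical
    refine mul_card_image_le_card _ 2 (fun e he => ?_)
    obtain ⟨x, hx, rfl⟩ := mem_image.1 he
    obtain ⟨x1, x2⟩ := mem_filter.1 hx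
    obtain ⟨x3, x4⟩ := mem_filter.1 x1
    have hs : x.swap ∈ C m := mem_filter.2 ⟨mem_filter.2
      ⟨mem_product.2 (mem_product.1 x3).symm, x4.symm⟩, fun h => x2 h.symm⟩
    have hne : x ≠ x.swap := fun h => x2 (by
      have : x.1 = x.2 := congrArg Prod.fst h
      rw [← this]; exact ⟨rfl, rfl, fun _ _ => rfl⟩)
    rw [← card_pair hne]
    refine card_le_card (insert_subset (mem_filter.2 ⟨hx, rfl⟩)
      (singleton_subset_iff.2 (mem_filter.2 ⟨hs, ?_⟩)))
    ext v
    simp only [Prod.fst_swap, Prod.snd_swap, mem_insert, mem_singleton]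
    tauto
  have h2 := card_filter_add_card_filter_not (s := SS m) (fun x => Same x.1 x.2)
  have h3 := SS_card m
  have h4 := Same_card m
  unfold C at h1
  omega

def F1 : Finset (Finset (V m)) :=
  (((univ : Finset (Fin 11 × ZMod m)) ×ˢ L) ×ˢ
    (univ : Finset (Fin 4 → Fin 20 → Bool))).image
    (fun y => {((y.1.1.1, y.1.1.2, y.1.2.1), y.2 0), ((y.1.1.1, y.1.1.2, y.1.2.2.1), y.2 1),
      ((y.1.1.1, y.1.1.2, y.1.2.2.2.1), y.2 2), ((y.1.1.1, y.1.1.2, y.1.2.2.2.2), y.2 3)})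

theorem F1_card : (F1 m).card ≤ 154 * m * 2 ^ 80 := by
  refine card_image_le.trans (le_of_eq ?_)
  rw [card_product, card_product, L_card, card_univ, card_univ]
  simp only [Fintype.card_prod, Fintype.card_fin, ZMod.card, Fintype.card_fun, Fintype.card_bool]
  ring

def F : Finset (Finset (V m)) := (F1 m ∪ F2 m).filter (fun e => e.card = 4)

variable {m}

theorem parts_le (X : Finset (V m)) (hX : ∀ e ∈ F m, ¬ e ⊆ X) :
    (X.image Prod.fst).card ≤ 44 * m := by
  have : (univ : Finset (Fin 11 × ZMod m)).card = 11 * m := by simp [ZMod.card]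
  rw [show 44 * m = 4 * (11 * m) by ring, ← this]
  refine card_le_mul_card_image_of_maps_to (f := fun p : P m => (p.1, p.2.1))
    (fun _ _ => mem_univ _) 4 (fun b _ => ?_)
  by_contra hc
  set Y := (X.image Prod.fst).filter (fun p : P m => (p.1, p.2.1) = b) with hY
  have h1 : (Y.image (fun p => p.2.2)).card = Y.card := by
    refine card_image_of_injOn ?_
    rintro ⟨h, g, x⟩ h1 ⟨h', g', x'⟩ h2 he
    have c := (mem_filter.1 (mem_coe.1 h1)).2.trans (mem_filter.1 (mem_coe.1 h2)).2.symm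
    simp only [Prod.mk.injEq] at c he ⊢
    exact ⟨c.1, c.2, he⟩
  have h2 : ∀ x ∈ Y.image (fun p => p.2.2), ∃ w, ((b.1, b.2, x), w) ∈ X := by
    intro x hx
    obtain ⟨p, hp, rfl⟩ := mem_image.1 hx
    obtain ⟨p1, rfl⟩ := mem_filter.1 hp
    obtain ⟨v, hv, rfl⟩ := mem_image.1 p1
    exact ⟨v.2, hv⟩
  obtain ⟨t, ht, t1, t2, t3, t4⟩ := L_cover (Y.image (fun p => p.2.2)) (by omega)
  obtain ⟨w1, q1⟩ := h2 _ t1
  obtain ⟨w2, q2⟩ := h2 _ t2
  obtain ⟨w3, q3⟩ := h2 _ t3
  obtain ⟨w4, q4⟩ := h2 _ t4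
  obtain ⟨l1, l2, l3⟩ := L_lt t ht
  refine hX {((b.1, b.2, t.1), w1), ((b.1, b.2, t.2.1), w2), ((b.1, b.2, t.2.2.1), w3),
    ((b.1, b.2, t.2.2.2), w4)} (mem_filter.2 ⟨mem_union_left _ (mem_image.2
      ⟨((b, t), ![w1, w2, w3, w4]), by simp [ht], rfl⟩), ?_⟩) ?_
  · refine card_four ?_ ?_ ?_ ?_ ?_ ?_ <;> intro h <;>
      have := congrArg (fun v : V m => v.1.2.2) h <;> simp only at this <;> omega
  · simp [insert_subset_iff, q1, q2, q3, q4]

/-- `z` and `y` lie in the same part and split at depth `l`, with `z` on the left -/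
def R (z y : V m) (l : Fin 20) : Prop :=
  z.1 = y.1 ∧ (∀ j < l, z.2 j = y.2 j) ∧ z.2 l = false ∧ y.2 l = true

omit [NeZero m] in
theorem R_or {y y' : V m} (h1 : y.1 = y'.1) (h2 : y ≠ y') :
    ∃ l, y.2 l ≠ y'.2 l ∧ (R y y' l ∨ R y' y l) := by
  obtain ⟨l, l1, l2⟩ := first_diff (w := y.2) (w' := y'.2) (fun h => h2 (Prod.ext h1 h))
  refine ⟨l, l2, ?_⟩
  cases hy : y.2 l
  · exact Or.inl ⟨h1, l1, hy, by rw [hy] at l2; simpa using l2⟩
  · exact Or.inr ⟨h1.symm, fun j hj => (l1 j hj).symm, by rw [hy] at l2; simpa using l2, hy⟩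

theorem cover (hm : 20 ≤ m) (X : Finset (V m)) (hX : ∀ e ∈ F m, ¬ e ⊆ X) : X.card ≤ 52 * m := by
  classical
  have h0 : (X.filter (fun y => ¬ ∃ l, ∃ z ∈ X, R z y l)).card ≤ (X.image Prod.fst).card := by
    refine card_le_card_of_injOn Prod.fst
      (fun y hy => mem_coe.2 (mem_image_of_mem _ (mem_filter.1 (mem_coe.1 hy)).1)) ?_
    intro y hy y' hy' he
    obtain ⟨y1, y2⟩ := mem_filter.1 (mem_coe.1 hy)
    obtain ⟨y3, y4⟩ := mem_filter.1 (mem_coe.1 hy')
    by_contra hne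
    obtain ⟨l, -, h | h⟩ := R_or he hne
    · exact y4 ⟨l, y, y1, h⟩
    · exact y2 ⟨l, y', y3, h⟩
  have hd : ∀ y ∈ X.filter (fun y => ∃ l, ∃ z ∈ X, R z y l), ∃ l z, z ∈ X ∧ R z y l ∧
      ∀ l', ∀ z' ∈ X, R z' y l' → l' ≤ l := by
    intro y hy
    obtain ⟨l0, hl0⟩ := (mem_filter.1 hy).2
    obtain ⟨l, hl, hmax⟩ := exists_max_image (univ.filter (fun l => ∃ z ∈ X, R z y l)) id
      ⟨l0, mem_filter.2 ⟨mem_univ _, hl0⟩⟩
    obtain ⟨z, z1, z2⟩ := (mem_filter.1 hl).2
    exact ⟨l, z, z1, z2, fun l' z' a b => hmax l' (mem_filter.2 ⟨mem_univ _, z', a, b⟩)⟩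
  choose! d z z1 z2 z3 using hd
  have h1 : (X.filter (fun y => ∃ l, ∃ z ∈ X, R z y l)).card
      ≤ (univ : Finset (ZMod m × Fin 8)).card := by
    refine card_le_card_of_injOn (fun y => col ((y.1, (d y, fun j => ((z y).2 j, y.2 j))) : N m))
      (fun _ _ => mem_coe.2 (mem_univ _)) ?_
    intro y hy y' hy' he
    have hy1 := mem_coe.1 hy
    have hy2 := mem_coe.1 hy'
    obtain ⟨r1, r2, r3, r4⟩ := z2 y hy1
    obtain ⟨s1, s2, s3, s4⟩ := z2 y' hy2
    by_cases hs : Same ((y.1, (d y, fun j => ((z y).2 j, y.2 j))) : N m)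
        (y'.1, (d y', fun j => ((z y').2 j, y'.2 j)))
    · obtain ⟨e1, e2, e3⟩ := hs
      simp only at e1 e2 e3
      by_contra hne
      obtain ⟨l, l1, l2⟩ := R_or e1 hne
      have l3 : l ≤ d y := by
        rcases l2 with h | h
        · exact e2 ▸ z3 y' hy2 l y (mem_filter.1 hy1).1 h
        · exact z3 y hy1 l y' (mem_filter.1 hy2).1 h
      rcases l3.lt_or_eq with l4 | l4
      · exact l1 (by rw [← r2 l l4, e3 l l4, s2 l (e2 ▸ l4)])
      · exact l1 (by rw [l4, r4, e2, s4])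
    · exfalso
      have key : ∀ a b : V m, a.1 = y.1 → (∀ j < d y, a.2 j = y.2 j) → b.1 = y'.1 →
          (∀ j < d y', b.2 j = y'.2 j) → a ≠ b := by
        rintro a b a1 a2 b1 b2 rfl
        have e1 : y.1 = y'.1 := a1.symm.trans b1
        have e2 : d y = d y' := by
          have := congrArg Prod.fst he
          simp only [col, e1, add_right_inj] at this
          rw [ZMod.natCast_eq_natCast_iff', Nat.mod_eq_of_lt (by omega),
            Nat.mod_eq_of_lt (by omega)] at this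
          exact Fin.ext this
        refine hs ⟨e1, e2, fun j hj => ?_⟩
        simp only at hj ⊢
        rw [r2 j hj, ← a2 j hj, b2 j (e2 ▸ hj), s2 j (e2 ▸ hj)]
      have v1 : lv ((y.1, (d y, fun j => ((z y).2 j, y.2 j))) : N m) = z y := Prod.ext r1.symm rfl
      have v2 : lv ((y'.1, (d y', fun j => ((z y').2 j, y'.2 j))) : N m) = z y' :=
        Prod.ext s1.symm rfl
      refine hX {z y, y, z y', y'} (mem_filter.2 ⟨mem_union_right _ (mem_image.2
        ⟨((y.1, (d y, fun j => ((z y).2 j, y.2 j))), (y'.1, (d y', fun j => ((z y').2 j, y'.2 j)))),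
          mem_filter.2 ⟨mem_filter.2 ⟨mem_product.2 ⟨mem_product.2 ⟨mem_univ _, mem_Tw.2 ⟨r2, ?_⟩⟩,
            mem_product.2 ⟨mem_univ _, mem_Tw.2 ⟨s2, ?_⟩⟩⟩, he⟩, hs⟩, ?_⟩), ?_⟩) ?_
      · simp [r3, r4]
      · simp [s3, s4]
      · simp only [v1, v2]; rfl
      · refine card_four ?_ (key _ _ r1 r2 s1 s2) (key _ _ r1 r2 rfl (fun _ _ => rfl))
          (key _ _ rfl (fun _ _ => rfl) s1 s2) (key _ _ rfl (fun _ _ => rfl) rfl (fun _ _ => rfl)) ?_
        · intro h; rw [h, r4] at r3; exact absurd r3 (by simp)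
        · intro h; rw [h, s4] at s3; exact absurd s3 (by simp)
      · simp [insert_subset_iff, z1 y hy1, z1 y' hy2, (mem_filter.1 hy1).1, (mem_filter.1 hy2).1]
  have h2 := card_filter_add_card_filter_not (s := X) (fun y => ∃ l, ∃ z ∈ X, R z y l)
  have h3 := parts_le X hX
  have h4 : (univ : Finset (ZMod m × Fin 8)).card = m * 8 := by simp [ZMod.card]
  omega

theorem T_le (hm : 20 ≤ m) {n M : ℕ} (hn : 4 ≤ n)
    (hM : 2 * (154 * m * 2 ^ 80) + 88 * m * 549755289600 * (11 * 549755289600)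
      ≤ 2 * M + 88 * m * 86351844258187798118400) :
    T n (52 * m + 1 + 2) 4 * (88 * m * 2 ^ 20) ^ 4
      ≤ n.choose 4 * (M * 24 + (88 * m * 2 ^ 20) ^ 2 * 8) := by
  have hq : Fintype.card (V m) = 88 * m * 2 ^ 20 := by
    rw [Fintype.card_prod, card_P]
    simp only [Fintype.card_fin, Fintype.card_fun, Fintype.card_bool]
  have hF : (F m).card ≤ M := by
    have h1 := F1_card m
    have h2 := F2_card m
    have h3 : (F m).card ≤ (F1 m).card + (F2 m).card :=
      (card_filter_le _ _).trans (card_union_le _ _)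
    omega
  have h := blowup4 (V := V m) (by rw [hq]; omega) (s := 52 * m + 1) hn (by omega)
    (F m) hF (fun e he => (mem_filter.1 he).2) (fun X hX => by
      by_contra hc
      have := cover hm X (fun e he h => hc ⟨e, he, h⟩)
      omega)
  rw [hq] at h
  refine h.trans (Nat.mul_le_mul_left _ (Nat.add_le_add_left ?_ _))
  generalize 88 * m * 2 ^ 20 = q
  have h1 := Nat.div_mul_le_self (q * (q - 1)) 2
  have h2 : q * (q - 1) ≤ q ^ 2 := by rw [sq]; exact Nat.mul_le_mul_left _ (Nat.sub_le _ _)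
  rw [Nat.choose_two_right]
  omega

theorem t_le : t (520002 + 1) 4 ≤ (3286548402397916859769815040000 * 24
    + 922746880000 ^ 2 * 8) / 922746880000 ^ 4 := by
  refine (t_bounds (by norm_num) (by positivity) (fun n hn => ?_)).2
  have h := T_le (m := 10000) (M := 3286548402397916859769815040000) (by norm_num) hn
    (by norm_num)
  rw [show 52 * 10000 + 1 + 2 = 520002 + 1 by norm_num,
    show 88 * 10000 * 2 ^ 20 = 922746880000 by norm_num] at h
  rw [div_mul_eq_mul_div, le_div_iff₀ (by positivity), mul_comm _ (n.choose 4 : ℝ)]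
  exact_mod_cast h

theorem main : tInf 4 < 51 / 80 := by
  refine (tInf_le (a := 520002) (by norm_num)).trans_lt ?_
  unfold tStar
  refine (mul_le_mul_of_nonneg_left t_le (by positivity)).trans_lt ?_
  norm_num [Nat.factorial]

end Pool.Agent.Lib.MP_ff43e2_co.Four
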