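import Pool.Agent.Lib.MP_ff43e2_co.GroDefs

set_option autoImplicit false
open Finset

namespace Pool.Agent.Lib.MP_ff43e2_co.Gro

theorem ind_pos {P : Prop} (h : P) : ind P = 1 := by unfold ind; exact if_pos h

theorem ind_neg {P : Prop} (h : ¬ P) : ind P = 0 := by unfold ind; exact if_neg h

theorem ind_nonneg (P : Prop) : 0 ≤ ind P := by unfold ind; split_ifs <;> norm_num

theorem ind_le_one (P : Prop) : ind P ≤ 1 := by unfold ind; split_ifs <;> norm_num

theorem ind_congr {P Q : Prop} (h : P ↔ Q) : ind P = ind Q := by rw [propext h]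

theorem ind_mono {P Q : Prop} (h : P → Q) : ind P ≤ ind Q := by
  by_cases hP : P
  · rw [ind_pos hP, ind_pos (h hP)]
  · rw [ind_neg hP]; exact ind_nonneg Q

theorem ind_and (P Q : Prop) : ind (P ∧ Q) = ind P * ind Q := by
  by_cases hP : P <;> by_cases hQ : Q <;> simp [ind, hP, hQ]

theorem ind_eq_ite (P : Prop) [Decidable P] : ind P = if P then 1 else 0 := by
  by_cases hP : P <;> simp [ind, hP]

theorem ind_exists_le {ι : Type} (s : Finset ι) (P : ι → Prop) :
    ind (∃ i ∈ s, P i) ≤ ∑ i ∈ s, ind (P i) := by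
  by_cases h : ∃ i ∈ s, P i
  · obtain ⟨i, hi, hP⟩ := h
    calc _ ≤ (1 : ℝ) := ind_le_one _
      _ = ind (P i) := (ind_pos hP).symm
      _ ≤ _ := single_le_sum (f := fun i => ind (P i)) (fun i _ => ind_nonneg _) hi
  · rw [ind_neg h]; exact sum_nonneg (fun i _ => ind_nonneg _)

variable {V : Type} [DecidableEq V]

omit [DecidableEq V] in
theorem bEs_empty (q : ℝ) (F : Finset V → ℝ) : bEs ∅ q F = F ∅ := by simp [bEs]

theorem bEs_insert {s : Finset V} {x : V} (hx : x ∉ s) (q : ℝ) (F : Finset V → ℝ) :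
    bEs (insert x s) q F = q * bEs s q (fun W => F (insert x W)) + (1 - q) * bEs s q F := by
  unfold bEs
  rw [sum_powerset_insert hx, add_comm, mul_sum, mul_sum, card_insert_of_notMem hx]
  congr 1
  · refine sum_congr rfl (fun W hW => ?_)
    have h1 : W ⊆ s := mem_powerset.1 hW
    rw [card_insert_of_notMem (fun h => hx (h1 h)), Nat.add_sub_add_right]
    ring
  · refine sum_congr rfl (fun W hW => ?_)
    have h1 : W.card ≤ s.card := card_le_card (mem_powerset.1 hW)
    rw [show s.card + 1 - W.card = s.card - W.card + 1 by omega]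
    ring

omit [DecidableEq V] in
theorem bEs_congr {s : Finset V} (q : ℝ) {F G : Finset V → ℝ} (h : ∀ W, W ⊆ s → F W = G W) :
    bEs s q F = bEs s q G :=
  sum_congr rfl (fun W hW => by rw [h W (mem_powerset.1 hW)])

theorem bEs_const (s : Finset V) (q c : ℝ) : bEs s q (fun _ => c) = c := by
  induction s using Finset.induction_on with
  | empty => exact bEs_empty _ _
  | insert x s hx ih => rw [bEs_insert hx, ih]; ring

omit [DecidableEq V] in
theorem bEs_add (s : Finset V) (q : ℝ) (F G : Finset V → ℝ) :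
    bEs s q (fun W => F W + G W) = bEs s q F + bEs s q G := by
  simp only [bEs, mul_add, sum_add_distrib]

omit [DecidableEq V] in
theorem bEs_sub (s : Finset V) (q : ℝ) (F G : Finset V → ℝ) :
    bEs s q (fun W => F W - G W) = bEs s q F - bEs s q G := by
  simp only [bEs, mul_sub, sum_sub_distrib]

omit [DecidableEq V] in
theorem bEs_mul (s : Finset V) (q c : ℝ) (F : Finset V → ℝ) :
    bEs s q (fun W => c * F W) = c * bEs s q F := by
  simp only [bEs, mul_sum]
  exact sum_congr rfl (fun W _ => by ring)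

omit [DecidableEq V] in
theorem bEs_sum {ι : Type} (s : Finset V) (q : ℝ) (t : Finset ι) (F : ι → Finset V → ℝ) :
    bEs s q (fun W => ∑ i ∈ t, F i W) = ∑ i ∈ t, bEs s q (F i) := by
  simp only [bEs, mul_sum]
  exact sum_comm

omit [DecidableEq V] in
theorem bEs_mono {s : Finset V} {q : ℝ} (h0 : 0 ≤ q) (h1 : q ≤ 1) {F G : Finset V → ℝ}
    (h : ∀ W, W ⊆ s → F W ≤ G W) : bEs s q F ≤ bEs s q G :=
  sum_le_sum (fun W hW => mul_le_mul_of_nonneg_left (h W (mem_powerset.1 hW))
    (mul_nonneg (pow_nonneg h0 _) (pow_nonneg (by linarith) _)))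

theorem bEs_point {s : Finset V} {x : V} (hx : x ∈ s) (q : ℝ) (F : Finset V → ℝ) :
    bEs s q (fun W => ind (x ∈ W) * F W) = q * bEs s q (fun W => F (insert x W)) := by
  obtain ⟨t, ht, rfl⟩ : ∃ t, x ∉ t ∧ insert x t = s := ⟨s.erase x, notMem_erase x s, insert_erase hx⟩
  rw [bEs_insert ht, bEs_insert ht]
  have e1 : bEs t q (fun W => ind (x ∈ W) * F W) = 0 := by
    rw [← bEs_const t q 0]
    exact bEs_congr q (fun W hW => by rw [ind_neg (fun h => ht (hW h)), zero_mul])
  have e2 : bEs t q (fun W => ind (x ∈ insert x W) * F (insert x W))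
      = bEs t q (fun W => F (insert x W)) :=
    bEs_congr q (fun W _ => by rw [ind_pos (mem_insert_self x W), one_mul])
  rw [e1, e2]
  simp only [insert_eq_of_mem (mem_insert_self x _)]
  ring

theorem bEs_mecke {s J : Finset V} (hJ : J ⊆ s) (q : ℝ) (F : Finset V → ℝ) :
    bEs s q (fun W => ind (J ⊆ W) * F W) = q ^ J.card * bEs s q (fun W => F (W ∪ J)) := by
  induction J using Finset.induction_on generalizing F with
  | empty => simp [ind_pos]
  | insert x J hx ih =>
    have e1 : (fun W : Finset V => ind (insert x J ⊆ W) * F W)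
        = fun W => ind (J ⊆ W) * (ind (x ∈ W) * F W) := by
      funext W
      rw [← mul_assoc, ← ind_and]
      congr 1
      exact ind_congr (by rw [insert_subset_iff]; tauto)
    rw [e1, ih ((subset_insert x J).trans hJ), card_insert_of_notMem hx]
    have e2 : (fun W : Finset V => ind (x ∈ W ∪ J) * F (W ∪ J))
        = fun W => ind (x ∈ W) * F (W ∪ J) := by
      funext W
      congr 1
      exact ind_congr (by simp [hx])
    rw [e2, bEs_point (hJ (mem_insert_self x J))]
    simp only [insert_union, union_insert]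
    ring

theorem bEs_union (s : Finset V) (a b : ℝ) (F : Finset V → ℝ) :
    bEs s a (fun A => bEs s b (fun B => F (A ∪ B))) = bEs s (a + b - a * b) F := by
  induction s using Finset.induction_on generalizing F with
  | empty => simp [bEs_empty]
  | insert x s hx ih =>
    simp only [bEs_insert hx, insert_union, union_insert, insert_eq_of_mem (mem_insert_self x _),
      bEs_add, bEs_mul]
    rw [ih (fun W => F (insert x W)), ih F]
    ring

theorem bEs_sq_le {s : Finset V} {q : ℝ} (h0 : 0 ≤ q) (h1 : q ≤ 1) (F : Finset V → ℝ) :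
    bEs s q F ^ 2 ≤ bEs s q (fun W => F W ^ 2) := by
  have h := bEs_mono (s := s) h0 h1 (F := fun _ => 0) (G := fun W => (F W - bEs s q F) ^ 2)
    (fun W _ => sq_nonneg _)
  have e : (fun W => (F W - bEs s q F) ^ 2)
      = fun W => F W ^ 2 + ((-2 * bEs s q F) * F W + bEs s q F ^ 2) := by
    funext W; ring
  rw [e, bEs_add, bEs_add, bEs_mul, bEs_const, bEs_const] at h
  nlinarith

theorem bEs_poincare {s : Finset V} {q : ℝ} (h0 : 0 ≤ q) (h1 : q ≤ 1) (F : Finset V → ℝ) :
    bEs s q (fun W => F W ^ 2) - bEs s q F ^ 2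
      ≤ bEs s q (fun W => ∑ x ∈ W, (F W - F (W.erase x)) ^ 2) := by
  induction s using Finset.induction_on generalizing F with
  | empty => simp [bEs_empty]
  | insert x s hx ih =>
    simp only [bEs_insert hx]
    have i1 := ih (fun W => F (insert x W))
    have i2 := ih F
    have e1 : bEs s q (fun W => ∑ y ∈ insert x W, (F (insert x W) - F ((insert x W).erase y)) ^ 2)
        = bEs s q (fun W => (F (insert x W) - F W) ^ 2)
          + bEs s q (fun W => ∑ y ∈ W, (F (insert x W) - F (insert x (W.erase y))) ^ 2) := by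
      rw [← bEs_add]
      refine bEs_congr q (fun W hW => ?_)
      have hxW : x ∉ W := fun h => hx (hW h)
      rw [sum_insert hxW, erase_insert hxW]
      congr 1
      refine sum_congr rfl (fun y hy => ?_)
      rw [erase_insert_of_ne (fun h : x = y => hxW (h ▸ hy))]
    have i3 := bEs_sq_le (s := s) h0 h1 (fun W => F (insert x W) - F W)
    rw [bEs_sub] at i3
    rw [e1]
    have h2 : 0 ≤ 1 - q := by linarith
    have a1 := mul_le_mul_of_nonneg_left i1 h0
    have a2 := mul_le_mul_of_nonneg_left i2 h2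
    have a3 := mul_le_mul_of_nonneg_left i3 h0
    have a4 := mul_nonneg (mul_nonneg h0 h0)
      (sq_nonneg (bEs s q (fun W => F (insert x W)) - bEs s q F))
    nlinarith

variable [Fintype V]

theorem bE_const (q c : ℝ) : bE q (fun _ : Finset V => c) = c := bEs_const _ _ _

omit [DecidableEq V] in
theorem bE_add (q : ℝ) (F G : Finset V → ℝ) : bE q (fun W => F W + G W) = bE q F + bE q G :=
  bEs_add _ _ _ _

omit [DecidableEq V] in
theorem bE_sub (q : ℝ) (F G : Finset V → ℝ) : bE q (fun W => F W - G W) = bE q F - bE q G :=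
  bEs_sub _ _ _ _

omit [DecidableEq V] in
theorem bE_mul (q c : ℝ) (F : Finset V → ℝ) : bE q (fun W => c * F W) = c * bE q F :=
  bEs_mul _ _ _ _

omit [DecidableEq V] in
theorem bE_mul_right (q c : ℝ) (F : Finset V → ℝ) : bE q (fun W => F W * c) = bE q F * c := by
  rw [mul_comm, ← bE_mul]; simp only [mul_comm]

omit [DecidableEq V] in
theorem bE_div (q c : ℝ) (F : Finset V → ℝ) : bE q (fun W => F W / c) = bE q F / c := by
  simp only [div_eq_mul_inv, bE_mul_right]

omit [DecidableEq V] in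
theorem bE_sum {ι : Type} (q : ℝ) (t : Finset ι) (F : ι → Finset V → ℝ) :
    bE q (fun W => ∑ i ∈ t, F i W) = ∑ i ∈ t, bE q (F i) := bEs_sum _ _ _ _

omit [DecidableEq V] in
theorem bE_mono {q : ℝ} (h0 : 0 ≤ q) (h1 : q ≤ 1) {F G : Finset V → ℝ} (h : ∀ W, F W ≤ G W) :
    bE q F ≤ bE q G := bEs_mono h0 h1 (fun W _ => h W)

theorem bE_nonneg {q : ℝ} (h0 : 0 ≤ q) (h1 : q ≤ 1) {F : Finset V → ℝ} (h : ∀ W, 0 ≤ F W) :
    0 ≤ bE q F := by
  rw [← bE_const (V := V) q 0]; exact bE_mono h0 h1 h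

theorem bE_le_const {q c : ℝ} (h0 : 0 ≤ q) (h1 : q ≤ 1) {F : Finset V → ℝ} (h : ∀ W, F W ≤ c) :
    bE q F ≤ c := by
  rw [← bE_const (V := V) q c]; exact bE_mono h0 h1 h

theorem bE_mecke (J : Finset V) (q : ℝ) (F : Finset V → ℝ) :
    bE q (fun W => ind (J ⊆ W) * F W) = q ^ J.card * bE q (fun W => F (W ∪ J)) :=
  bEs_mecke (subset_univ J) q F

theorem bE_subset (J : Finset V) (q : ℝ) : bE q (fun W => ind (J ⊆ W)) = q ^ J.card := by
  have := bE_mecke J q (fun _ => 1)
  simpa [bE_const] using this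

theorem bE_union (a b : ℝ) (F : Finset V → ℝ) :
    bE a (fun A => bE b (fun B => F (A ∪ B))) = bE (a + b - a * b) F := bEs_union _ _ _ _

omit [DecidableEq V] in
theorem bE_comm (a b : ℝ) (F : Finset V → Finset V → ℝ) :
    bE a (fun A => bE b (fun B => F A B)) = bE b (fun B => bE a (fun A => F A B)) := by
  simp only [bE, bEs, mul_sum]
  rw [sum_comm]
  exact sum_congr rfl (fun B _ => sum_congr rfl (fun A _ => by ring))

theorem bE_sq_le {q : ℝ} (h0 : 0 ≤ q) (h1 : q ≤ 1) (F : Finset V → ℝ) :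
    bE q F ^ 2 ≤ bE q (fun W => F W ^ 2) := bEs_sq_le h0 h1 F

theorem bE_poincare {q : ℝ} (h0 : 0 ≤ q) (h1 : q ≤ 1) (F : Finset V → ℝ) :
    bE q (fun W => F W ^ 2) - bE q F ^ 2
      ≤ bE q (fun W => ∑ x ∈ W, (F W - F (W.erase x)) ^ 2) := bEs_poincare h0 h1 F

omit [Fintype V] in
theorem subset_union_iff (S W e : Finset V) : e ⊆ S ∪ W ↔ e \ S ⊆ W := by
  exact (sdiff_le_iff (a := e) (b := S) (c := W)).symm

theorem bE_present (q : ℝ) (S e : Finset V) : bE q (fun W => ind (e ⊆ S ∪ W)) = rho q S e := by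
  simp only [subset_union_iff, bE_subset, rho]

theorem bE_present_mul (q : ℝ) (S e : Finset V) (F : Finset V → ℝ) :
    bE q (fun W => ind (e ⊆ S ∪ W) * F W) = rho q S e * bE q (fun W => F (W ∪ e \ S)) := by
  simp only [subset_union_iff, bE_mecke, rho]

theorem bE_mem (q : ℝ) (x : V) : bE q (fun W : Finset V => ind (x ∈ W)) = q := by
  have := bE_subset {x} q
  simpa using this

theorem bE_card (q : ℝ) : bE q (fun W : Finset V => (W.card : ℝ)) = q * Fintype.card V := by
  have e : (fun W : Finset V => (W.card : ℝ)) = fun W => ∑ x, ind (x ∈ W) := by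
    funext W
    simp [ind_eq_ite]
  rw [e, bE_sum]
  simp [bE_mem, mul_comm]

theorem bE_rho (a q : ℝ) (e : Finset V) :
    bE a (fun S => rho q S e) = (a + q - a * q) ^ e.card := by
  rw [← bE_subset e, ← bE_union]
  simp only [bE_present]

/-- Chebyshev, lower tail -/
theorem bE_cheb {q : ℝ} (h0 : 0 ≤ q) (h1 : q ≤ 1) (F : Finset V → ℝ) {c d : ℝ} (hd : 0 < d)
    (hc : c + d ≤ bE q F) :
    bE q (fun W => ind (F W < c)) ≤ (bE q (fun W => F W ^ 2) - bE q F ^ 2) / d ^ 2 := by
  have e : bE q (fun W => F W ^ 2) - bE q F ^ 2 = bE q (fun W => (F W - bE q F) ^ 2) := by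
    have e : (fun W => (F W - bE q F) ^ 2)
        = fun W => F W ^ 2 + ((-2 * bE q F) * F W + bE q F ^ 2) := by
      funext W; ring
    rw [e, bE_add, bE_add, bE_mul, bE_const]
    ring
  rw [e, ← bE_div]
  refine bE_mono h0 h1 (fun W => ?_)
  by_cases h : F W < c
  · rw [ind_pos h, le_div_iff₀ (by positivity)]
    nlinarith
  · rw [ind_neg h]; positivity

theorem exists_ge_bE {q : ℝ} (h0 : 0 ≤ q) (h1 : q ≤ 1) (F : Finset V → ℝ) :
    ∃ W, bE q F ≤ F W := by
  obtain ⟨W, -, hW⟩ := exists_max_image (univ : Finset (Finset V)) F univ_nonempty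
  exact ⟨W, bE_le_const h0 h1 (fun W' => hW W' (mem_univ _))⟩

omit [Fintype V] in
theorem rho_nonneg {q : ℝ} (h0 : 0 ≤ q) (S e : Finset V) : 0 ≤ rho q S e := pow_nonneg h0 _

omit [Fintype V] in
theorem nu_nonneg {q : ℝ} (h0 : 0 ≤ q) (H : Finset (Finset V)) (S : Finset V) (u : V) :
    0 ≤ nu H q S u := sum_nonneg (fun _ _ => rho_nonneg h0 _ _)

omit [Fintype V] in
theorem tau_le {H : Finset (Finset V)} {X C : Finset V}
    (h : ∀ e ∈ H, e ⊆ X → e.Nonempty → (e ∩ C).Nonempty) : tau H X ≤ C.card :=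
  Nat.sInf_le ⟨C, rfl, h⟩

omit [Fintype V] in
theorem tau_spec (H : Finset (Finset V)) (X : Finset V) :
    ∃ C : Finset V, C.card = tau H X ∧ ∀ e ∈ H, e ⊆ X → e.Nonempty → (e ∩ C).Nonempty :=
  Nat.sInf_mem (s := {k | ∃ C : Finset V, C.card = k ∧
      ∀ e ∈ H, e ⊆ X → e.Nonempty → (e ∩ C).Nonempty})
    ⟨X.card, X, rfl, fun e _ h1 h2 => by rwa [inter_eq_left.2 h1]⟩

end Pool.Agent.Lib.MP_ff43e2_co.Gro
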