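import Pool.Agent.Lib.MP_ff43e2_co.GroBE

set_option autoImplicit false
open Finset

namespace Pool.Agent.Lib.MP_ff43e2_co.Gro

variable {V : Type} [DecidableEq V]

theorem exists_hit' (B : Finset (Finset V)) (hB : ∀ b ∈ B, b.Nonempty) :
    ∃ C : Finset V, C.card ≤ B.card ∧ ∀ b ∈ B, (b ∩ C).Nonempty := by
  choose g hg using hB
  refine ⟨B.attach.image (fun b => g b.1 b.2), card_image_le.trans (by simp), fun b hb => ?_⟩
  exact ⟨g b hb, mem_inter.2 ⟨hg b hb, mem_image.2 ⟨⟨b, hb⟩, mem_attach _ _, rfl⟩⟩⟩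

/-- method of conditional expectations -/
theorem cover_aux (y : V → ℝ) (y0 : ∀ u, 0 ≤ y u) (y1 : ∀ u, y u ≤ 1) (s : Finset V) :
    ∀ G : Finset (Finset V), (∀ e ∈ G, e.Nonempty) →
      ∃ C : Finset V, (∀ e ∈ G, (e ∩ C).Nonempty) ∧
        (C.card : ℝ) ≤ ∑ u ∈ s, y u + ∑ e ∈ G, ∏ u ∈ e ∩ s, (1 - y u) := by
  induction s using Finset.induction_on with
  | empty =>
    intro G hG
    obtain ⟨C, c1, c2⟩ := exists_hit' G hG
    refine ⟨C, c2, ?_⟩
    simpa using c1
  | insert v s hv ih =>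
    intro G hG
    obtain ⟨C1, a1, a2⟩ := ih G hG
    obtain ⟨C2, b1, b2⟩ := ih (G.filter (v ∉ ·)) (fun e he => hG e (mem_filter.1 he).1)
    have e1 : ∑ e ∈ G, ∏ u ∈ e ∩ insert v s, (1 - y u)
        = (1 - y v) * ∑ e ∈ G, ∏ u ∈ e ∩ s, (1 - y u)
          + y v * ∑ e ∈ G.filter (v ∉ ·), ∏ u ∈ e ∩ s, (1 - y u) := by
      rw [sum_filter, mul_sum, mul_sum, ← sum_add_distrib]
      refine sum_congr rfl (fun e _ => ?_)
      by_cases h : v ∈ e
      · rw [inter_insert_of_mem h, prod_insert (by simp [hv]), if_neg (not_not.2 h)]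
        ring
      · rw [inter_insert_of_notMem h, if_pos h]
        ring
    rw [e1, sum_insert hv]
    by_cases h : ∑ e ∈ G, ∏ u ∈ e ∩ s, (1 - y u)
        ≤ 1 + ∑ e ∈ G.filter (v ∉ ·), ∏ u ∈ e ∩ s, (1 - y u)
    · refine ⟨C1, a1, a2.trans ?_⟩
      nlinarith [mul_le_mul_of_nonneg_left h (y0 v)]
    · refine ⟨insert v C2, fun e he => ?_, ?_⟩
      · by_cases hve : v ∈ e
        · exact ⟨v, mem_inter.2 ⟨hve, mem_insert_self _ _⟩⟩
        · exact (b1 e (mem_filter.2 ⟨he, hve⟩)).mono (inter_subset_inter_left (subset_insert _ _))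
      · have : ((insert v C2).card : ℝ) ≤ C2.card + 1 := by exact_mod_cast card_insert_le v C2
        nlinarith [mul_le_mul_of_nonneg_left (not_le.1 h).le (sub_nonneg.2 (y1 v))]

theorem coverS : CoverS := by
  intro V _ _ G w x x0 w0 hG
  have hne : ∀ e ∈ G, e.Nonempty := fun e he => by
    by_contra hn
    have := hG e he
    rw [not_nonempty_iff_eq_empty.1 hn] at this
    norm_num at this
  obtain ⟨C, c1, c2⟩ := cover_aux (fun u => 1 - Real.exp (-(x * w u)))
    (fun u => sub_nonneg.2 (Real.exp_le_one_iff.2 (neg_nonpos.2 (mul_nonneg x0 (w0 u)))))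
    (fun u => by linarith [Real.exp_pos (-(x * w u))]) univ G hne
  refine ⟨C, c1, c2.trans (add_le_add ?_ ?_)⟩
  · rw [mul_sum]
    exact sum_le_sum (fun u _ => by linarith [Real.add_one_le_exp (-(x * w u))])
  · rw [mul_comm, ← nsmul_eq_mul, ← sum_const]
    refine sum_le_sum (fun e he => ?_)
    simp only [inter_univ, sub_sub_cancel, ← Real.exp_sum, sum_neg_distrib, ← mul_sum]
    exact Real.exp_le_exp.2 (neg_le_neg (le_mul_of_one_le_right x0 (hG e he)))

end Pool.Agent.Lib.MP_ff43e2_co.Gro
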