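import Mathlib

set_option autoImplicit false
open Finset

namespace Pool.Agent.Lib.MP_ff43e2_co.Gro

variable {V : Type} [Fintype V] [DecidableEq V]

/-- expectation over a Bernoulli random subset of `s` -/
noncomputable def bEs (s : Finset V) (q : ℝ) (F : Finset V → ℝ) : ℝ :=
  ∑ W ∈ s.powerset, q ^ W.card * (1 - q) ^ (s.card - W.card) * F W

/-- expectation over a Bernoulli random subset of `V` -/
noncomputable def bE (q : ℝ) (F : Finset V → ℝ) : ℝ := bEs univ q F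

open Classical in
/-- indicator of a proposition -/
noncomputable def ind (P : Prop) : ℝ := if P then 1 else 0

/-- least size of a set meeting every nonempty edge of `H` inside `X` -/
noncomputable def tau (H : Finset (Finset V)) (X : Finset V) : ℕ :=
  sInf {k | ∃ C : Finset V, C.card = k ∧ ∀ e ∈ H, e ⊆ X → e.Nonempty → (e ∩ C).Nonempty}

/-- probability that `e` lies in `S ∪ W` -/
noncomputable def rho (q : ℝ) (S e : Finset V) : ℝ := q ^ (e \ S).card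

/-- expected degree given the core `S` -/
noncomputable def nu (H : Finset (Finset V)) (q : ℝ) (S : Finset V) (u : V) : ℝ :=
  ∑ e ∈ H with u ∈ e, rho q S e

/-- a partner of `e` at `u` with large overlap inside the core is present in `X` -/
def Bad (H : Finset (Finset V)) (S X : Finset V) (z : ℝ) (e : Finset V) (u : V) : Prop :=
  ∃ f ∈ H, u ∈ f ∧ f ⊆ X ∧ f ∩ e ⊆ S ∧ z ≤ ((f ∩ e).card : ℝ)

noncomputable def Phi (H : Finset (Finset V)) (q : ℝ) (S : Finset V) (z : ℝ) (e : Finset V)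
    (u : V) : ℝ :=
  bE q (fun W => ind (Bad H S (S ∪ W) z e u))

noncomputable def mS (H : Finset (Finset V)) (q : ℝ) (S : Finset V) : ℝ := ∑ e ∈ H, rho q S e

noncomputable def irr (H : Finset (Finset V)) (q : ℝ) (R : ℕ) (S : Finset V) : ℝ :=
  ∑ e ∈ H with ((e \ S).card = 0 ∨ R < (e \ S).card), rho q S e

noncomputable def defS (H : Finset (Finset V)) (q T z : ℝ) (S : Finset V) : ℝ :=
  ∑ e ∈ H, rho q S e * ∑ u ∈ e with (u ∈ S ∧ nu H q S u ≤ T), Phi H q S z e u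

noncomputable def abn (H : Finset (Finset V)) (q T : ℝ) (S : Finset V) : ℝ :=
  ((S.filter (fun u => T < nu H q S u)).card : ℝ)

/-- `j` members of `F` with pairwise disjoint outer parts are present -/
def Yge (F : Finset (Finset V)) (S W : Finset V) (j : ℕ) : Prop :=
  ∃ 𝒢 : Finset (Finset V), 𝒢 ⊆ F ∧ 𝒢.card = j ∧ (∀ f ∈ 𝒢, f ⊆ S ∪ W) ∧
    ∀ f ∈ 𝒢, ∀ g ∈ 𝒢, f ≠ g → Disjoint (f \ S) (g \ S)

noncomputable def piY (F : Finset (Finset V)) (q : ℝ) (S : Finset V) (j : ℕ) : ℝ :=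
  bE q (fun W => ind (Yge F S W j))

noncomputable def fpot (H : Finset (Finset V)) (q T a : ℝ) : ℝ :=
  bE a (fun S => ∑ u, min (nu H q S u) T)

noncomputable def cpair (H : Finset (Finset V)) (q T b : ℝ) (u : V) (e f : Finset V) : ℝ :=
  bE b (fun S => ind (f ∩ e ⊆ S) * ind (nu H q S u ≤ 2 * T) * (rho q S e * rho q S f))

/-- weighted cover lemma -/
def CoverS : Prop :=
  ∀ (V : Type) [Fintype V] [DecidableEq V] (G : Finset (Finset V)) (w : V → ℝ) (x : ℝ),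
    0 ≤ x → (∀ u, 0 ≤ w u) → (∀ e ∈ G, 1 ≤ ∑ u ∈ e, w u) →
    ∃ C : Finset V, (∀ e ∈ G, (e ∩ C).Nonempty) ∧
      (C.card : ℝ) ≤ x * ∑ u, w u + Real.exp (-x) * G.card

/-- threshold lemma -/
def ThrS : Prop :=
  ∀ T : ℝ, 0 ≤ T → ∃ G : ℝ, 1 ≤ G ∧
    ∀ (V : Type) [Fintype V] [DecidableEq V] (F : Finset (Finset V)) (S : Finset V) (q : ℝ),
      0 ≤ q → q ≤ 1 → ∑ f ∈ F, rho q S f ≤ T →
      ∃ j : ℕ, 4 * piY F q S (j + 1) ≤ piY F q S j ∧ 1 ≤ G * piY F q S j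

/-- variance lemma -/
def VarS : Prop :=
  ∀ (V : Type) [Fintype V] [DecidableEq V] (A : Finset (Finset V)) (S I : Finset V) (q G z T Λ : ℝ)
    (R : ℕ) (j : V → ℕ) (c : V → ℝ), 0 ≤ q → q ≤ 1 → 0 ≤ G → 0 ≤ z → 0 ≤ T → 0 ≤ Λ →
    (∀ u ∈ I, 0 ≤ c u ∧ c u ≤ G) → (∀ f ∈ A, ((f ∩ I).card : ℝ) ≤ z) →
    (∀ f ∈ A, (f \ S).card ≤ R) →
    (∀ f ∈ A, ∀ J : Finset V, J ⊆ f \ S → J.Nonempty →
      ∑ g ∈ A with J ⊆ g \ S, q ^ ((g \ S).card - J.card) ≤ Λ) →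
    (∀ u ∈ I, nu A q S u ≤ T) →
    bE q (fun W => (∑ u ∈ I, c u * ind (Yge (A.filter (u ∈ ·)) S W (j u))) ^ 2)
      - bE q (fun W => ∑ u ∈ I, c u * ind (Yge (A.filter (u ∈ ·)) S W (j u))) ^ 2
      ≤ G ^ 2 * z * I.card * T * R * 2 ^ R * Λ

/-- one scale -/
def ScaleS : Prop :=
  ∀ T : ℝ, 0 ≤ T → ∃ G : ℝ, 1 ≤ G ∧
    ∀ (V : Type) [Fintype V] [DecidableEq V] (H : Finset (Finset V)) (r R : ℕ) (S : Finset V)
      (q Λ z x : ℝ), (∀ e ∈ H, e.card = r) → 0 < r → 0 ≤ q → q ≤ 1 → 0 < Λ → 0 ≤ z → 0 ≤ x →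
      8 * R ≤ r → 8 * G * R * q ≤ 1 →
      bE q (fun W => (tau H (S ∪ W) : ℝ)) ≤
        x * (2 / r) * (S.card / 4 + abn H q T S) + Real.exp (-x) * mS H q S + irr H q R S
          + 2 ^ R * mS H q S / Λ + 8 * G / r * defS H q T z S
          + 64 * G ^ 2 * (z / r) * T * R * 2 ^ R * Λ * mS H q S

/-- two scales -/
def TwoS : Prop :=
  ∀ (V : Type) [Fintype V] [DecidableEq V] (H : Finset (Finset V)) (a u q' b q T z : ℝ),
    0 ≤ a → a ≤ 1 → 0 ≤ u → u ≤ 1 → 0 ≤ q' → q' ≤ 1 → 0 ≤ T → b = a + u - a * u →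
    q = u + q' - u * q' → 0 < b →
    fpot H q' T b ≤ fpot H q T a ∧
    bE a (defS H q T z) ≤ 2 * (fpot H q T a - fpot H q' T b) +
      ∑ v, ∑ e ∈ H with v ∈ e, ∑ f ∈ H with v ∈ f,
        (a / b) ^ (f ∩ e).card * ind (z ≤ ((f ∩ e).card : ℝ)) * cpair H q' T b v e f

/-- means at one scale -/
def MeanS : Prop :=
  ∀ (V : Type) [Fintype V] [DecidableEq V] (H : Finset (Finset V)) (r R : ℕ) (a q p T : ℝ),
    (∀ e ∈ H, e.card = r) → 0 < r → 0 < R → 0 ≤ a → a ≤ 1 → 0 ≤ q → q ≤ 1 → 0 < T →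
    p = a + q - a * q →
    bE a (mS H q) = H.card * p ^ r ∧
    bE a (abn H q T) ≤ r * (H.card * p ^ r) / T ∧
    bE a (irr H q R) ≤ H.card * a ^ r + r * (H.card * p ^ (r - 1) * (p - a)) / R ∧
    0 ≤ fpot H q T a ∧ fpot H q T a ≤ r * (H.card * p ^ r) ∧
    (∀ v e f, 0 ≤ cpair H q T a v e f) ∧
    ∑ v, ∑ e ∈ H with v ∈ e, ∑ f ∈ H with v ∈ f, cpair H q T a v e f
      ≤ 2 * T * (r * (H.card * p ^ r))

/-- the finite theorem -/
def FinS : Prop :=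
  ∀ D : ℕ, 1 ≤ D → ∃ (r₀ : ℕ) (p₀ : ℝ), 0 < p₀ ∧
    ∀ (V : Type) [Fintype V] [DecidableEq V] (H : Finset (Finset V)) (r : ℕ) (p : ℝ),
      (∀ e ∈ H, e.card = r) → r₀ ≤ r → 0 < p → p ≤ p₀ →
      H.card * p ^ r ≤ D * (p * Fintype.card V) / r →
      bE p (fun X => (tau H X : ℝ)) ≤ p * Fintype.card V / r * (Real.log D / 2 + 8)

end Pool.Agent.Lib.MP_ff43e2_co.Gro
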