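import Pool.Agent.Lib.MP_ff43e2_co.GroBE

set_option autoImplicit false
open Finset

namespace Pool.Agent.Lib.MP_ff43e2_co.Gro

theorem exists_le_div {n : ℕ} (hn : 0 < n) (g : ℕ → ℝ) {C : ℝ} (h : ∑ i ∈ range n, g i ≤ C) :
    ∃ i, i < n ∧ g i ≤ C / n := by
  have n0 : (0 : ℝ) < n := by exact_mod_cast hn
  obtain ⟨i, hi, h2⟩ := exists_le_of_sum_le (s := range n) (f := g) (g := fun _ => C / n)
    ⟨0, mem_range.2 hn⟩ (by
      rw [sum_const, card_range, nsmul_eq_mul, mul_div_cancel₀ _ n0.ne']; exact h)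
  exact ⟨i, mem_range.1 hi, h2⟩

theorem pigeon {N s : ℕ} (hN : 0 < N) (hs : 0 < s) (f Def : ℕ → ℝ) (P : ℕ → ℕ → ℝ) {M C : ℝ}
    (f0 : 0 ≤ f 0) (fM : f (N * s) ≤ M) (mono : ∀ j i, j ≤ i → i ≤ N * s → f j ≤ f i)
    (hD : ∀ j i, j ≤ i → i ≤ N * s → Def i ≤ 2 * (f i - f j) + P i j)
    (hP : ∀ j, j + s ≤ N * s → ∑ i ∈ range s, P (j + i + 1) j ≤ C) :
    ∃ i, i ≤ N * s ∧ Def i ≤ 2 * (M / N) + C / s := by
  obtain ⟨b, b1, b2⟩ := exists_le_div hN (fun b => f ((b + 1) * s) - f (b * s)) (C := M) (by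
    rw [sum_range_sub (fun b => f (b * s))]
    simp only [zero_mul]
    linarith)
  have b3 : b * s + s ≤ N * s := by
    rw [← Nat.succ_mul]; exact Nat.mul_le_mul_right _ b1
  obtain ⟨i, i1, i2⟩ := exists_le_div hs _ (hP (b * s) b3)
  refine ⟨b * s + i + 1, by omega, ?_⟩
  have h1 := hD (b * s) (b * s + i + 1) (by omega) (by omega)
  have h2 := mono (b * s + i + 1) ((b + 1) * s) (by rw [Nat.succ_mul]; omega)
    (by rw [Nat.succ_mul]; omega)
  linarith

theorem pow_le_inv {ρ y s : ℝ} {l : ℕ} (ρ0 : 0 ≤ ρ) (h : ρ ≤ 1 - y) (y0 : 0 ≤ y) (s0 : 0 < s)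
    (hs : s ≤ l * y) : ρ ^ l ≤ 1 / s := by
  have h1 : 1 + l * y ≤ (1 + y) ^ l := one_add_mul_le_pow (by linarith) l
  have h2 : ρ ^ l * (1 + y) ^ l ≤ 1 := by
    rw [← mul_pow]
    exact pow_le_one₀ (by positivity) (by nlinarith)
  rw [le_div_iff₀ s0]
  nlinarith [pow_nonneg ρ0 l]

theorem block_sum {s : ℕ} (hs : 0 < s) (w : ℕ → ℝ) (P : ℕ → Prop) (w1 : ∀ i, i < s → w i ≤ 1)
    (h : ∀ i i', i < i' → i' < s → P i → w i' ≤ 1 / s) :
    ∑ i ∈ range s, w i * ind (P i) ≤ 2 := by
  classical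
  have s0 : (0 : ℝ) < s := by exact_mod_cast hs
  by_cases hP : ∃ i, P i
  · calc _ ≤ ∑ i ∈ range s, ((if i = Nat.find hP then 1 else 0) + 1 / (s : ℝ)) := by
          refine sum_le_sum (fun i hi => ?_)
          have hi' := mem_range.1 hi
          have : (0 : ℝ) ≤ 1 / s := by positivity
          rcases lt_trichotomy i (Nat.find hP) with h1 | h1 | h1
          · rw [ind_neg (Nat.find_min hP h1), if_neg h1.ne]; simp
          · rw [if_pos h1, ind_pos (h1 ▸ Nat.find_spec hP)]; linarith [w1 i hi']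
          · rw [if_neg h1.ne', zero_add]
            by_cases h2 : P i
            · rw [ind_pos h2, mul_one]; exact h _ _ h1 hi' (Nat.find_spec hP)
            · rw [ind_neg h2, mul_zero]; exact this
      _ ≤ 2 := by
          rw [sum_add_distrib, sum_ite_eq', sum_const, card_range, nsmul_eq_mul,
            mul_one_div_cancel s0.ne']
          split_ifs <;> norm_num
  · rw [sum_eq_zero (fun i _ => by rw [ind_neg (fun h => hP ⟨i, h⟩), mul_zero])]
    norm_num

/-- overlap threshold at scale `A` -/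
noncomputable def zeta (G : ℝ) (D A : ℕ) : ℝ :=
  1 / (64 * G ^ 2 * (D : ℝ) ^ 2 * ((A * D : ℕ) : ℝ) * 2 ^ (A * D) * (2 ^ (A * D) * D) * D)

/-- the scales -/
noncomputable def scale (G : ℝ) (D s : ℕ) : ℕ → ℕ
  | 0 => D
  | k + 1 => scale G D s k + ⌈(s : ℝ) / zeta G D (scale G D s k)⌉₊

theorem scale_mono (G : ℝ) (D s : ℕ) : Monotone (scale G D s) :=
  monotone_nat_of_le_succ (fun _ => Nat.le_add_right _ _)

theorem zeta_pos {G : ℝ} {D A : ℕ} (G1 : 1 ≤ G) (hD : 1 ≤ D) (hA : 1 ≤ A) : 0 < zeta G D A := by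
  unfold zeta
  have : 0 < A * D := Nat.mul_pos hA hD
  positivity

theorem finS (h1 : ScaleS) (h2 : TwoS) (h3 : MeanS) : FinS := by
  intro D hD
  have D1 : (1 : ℝ) ≤ D := by exact_mod_cast hD
  obtain ⟨G, G1, hG⟩ := h1 ((D : ℝ) ^ 2) (by positivity)
  obtain ⟨s, hs⟩ : ∃ s : ℕ, 64 * G * (D : ℝ) ^ 2 * D ≤ s := exists_nat_ge _
  obtain ⟨N, hN⟩ : ∃ N : ℕ, 32 * G * (D : ℝ) ≤ N := exists_nat_ge _
  have s0 : (0 : ℝ) < s := lt_of_lt_of_le (by positivity) hs
  have N0 : (0 : ℝ) < N := lt_of_lt_of_le (by positivity) hN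
  set A := scale G D s with hA
  have AD : ∀ k, D ≤ A k := fun k => scale_mono G D s (Nat.zero_le k)
  have A1 : ∀ k, 1 ≤ A k := fun k => hD.trans (AD k)
  have Rm : 1 ≤ A (N * s) * D := Nat.mul_pos (A1 _) hD
  have Rm' : (1 : ℝ) ≤ (A (N * s) * D : ℕ) := by exact_mod_cast Rm
  refine ⟨8 * (A (N * s) * D), 1 / (16 * G * (A (N * s) * D : ℕ)), by positivity, ?_⟩
  intro V _ _ H r p hH hr p0 hp hm
  have r0 : 0 < r := by omega
  have rr : (0 : ℝ) < r := by exact_mod_cast r0
  have hp' : p * (16 * G * (A (N * s) * D : ℕ)) ≤ 1 := (le_div_iff₀ (by positivity)).1 hp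
  have p2 : p ≤ 1 / 2 := by
    have : (2 : ℝ) ≤ 16 * G * (A (N * s) * D : ℕ) := by nlinarith
    nlinarith
  have RA : ∀ k, k ≤ N * s → A k * D ≤ A (N * s) * D := fun k hk =>
    Nat.mul_le_mul_right _ (scale_mono G D s hk)
  set a : ℕ → ℝ := fun k => A k / r with ha
  have a0 : ∀ k, 0 ≤ a k := fun k => by positivity
  have a1 : ∀ k, k ≤ N * s → a k ≤ 1 / 8 := fun k hk => by
    have : 8 * A k ≤ r := by nlinarith [RA k hk]
    have : 8 * (A k : ℝ) ≤ r := by exact_mod_cast this
    simp only [ha]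
    rw [div_le_iff₀ rr]; linarith
  have am : ∀ j i, j ≤ i → a j ≤ a i := fun j i h =>
    div_le_div_of_nonneg_right (by exact_mod_cast scale_mono G D s h) rr.le
  set pk : ℕ → ℝ := fun k => p * (1 - a k) with hpk
  have pk0 : ∀ k, k ≤ N * s → 0 < pk k := fun k hk => mul_pos p0 (by linarith [a1 k hk])
  have pk1 : ∀ k, pk k ≤ p := fun k => mul_le_of_le_one_right p0.le (by linarith [a0 k])
  have pkm : ∀ j i, j ≤ i → pk i ≤ pk j := fun j i h =>
    mul_le_mul_of_nonneg_left (by linarith [am j i h]) p0.le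
  have pk2 : ∀ k, 0 < 1 - pk k := fun k => by linarith [pk1 k]
  set qk : ℕ → ℝ := fun k => (p - pk k) / (1 - pk k) with hqk
  have qk0 : ∀ k, 0 ≤ qk k := fun k => div_nonneg (by linarith [pk1 k]) (pk2 k).le
  have qk2 : ∀ k, k ≤ N * s → qk k ≤ 2 * p := fun k hk => by
    simp only [hqk]
    rw [div_le_iff₀ (pk2 k)]
    nlinarith [pk0 k hk, pk1 k]
  have qk1 : ∀ k, k ≤ N * s → qk k ≤ 1 := fun k hk => by linarith [qk2 k hk]
  have pq : ∀ k, p = pk k + qk k - pk k * qk k := fun k => by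
    have := (pk2 k).ne'
    simp only [hqk]; field_simp; ring
  set m : ℝ := H.card * p ^ r with hm'
  have m0 : 0 ≤ m := by positivity
  have mean := fun k (hk : k ≤ N * s) => h3 V H r (A k * D) (pk k) (qk k) p ((D : ℝ) ^ 2) hH r0
    (Nat.mul_pos (A1 k) hD) (pk0 k hk).le (by linarith [pk2 k]) (qk0 k) (qk1 k hk)
    (by positivity) (pq k)
  have two := fun j i (h : j ≤ i) (hi : i ≤ N * s) =>
    h2 V H (pk i) ((pk j - pk i) / (1 - pk i)) (qk j) (pk j) (qk i) ((D : ℝ) ^ 2)
      (zeta G D (A i) * r) (pk0 i hi).le (by linarith [pk2 i])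
      (div_nonneg (by linarith [pkm j i h]) (pk2 i).le)
      (by rw [div_le_one (pk2 i)]; linarith [pk2 j]) (qk0 j) (qk1 j (h.trans hi))
      (by positivity) (by have := (pk2 i).ne'; field_simp; ring)
      (by
        have := (pk2 i).ne'
        have := (pk2 j).ne'
        simp only [hqk]; field_simp; ring)
      (pk0 j (h.trans hi))
  obtain ⟨i, hi, hdef⟩ := pigeon (N := N) (s := s) (by exact_mod_cast N0) (by exact_mod_cast s0)
    (fun k => fpot H (qk k) ((D : ℝ) ^ 2) (pk k))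
    (fun k => bE (pk k) (defS H (qk k) ((D : ℝ) ^ 2) (zeta G D (A k) * r)))
    (fun i j => ∑ v, ∑ e ∈ H with v ∈ e, ∑ f ∈ H with v ∈ f,
        (pk i / pk j) ^ (f ∩ e).card * ind (zeta G D (A i) * r ≤ ((f ∩ e).card : ℝ))
          * cpair H (qk j) ((D : ℝ) ^ 2) (pk j) v e f)
    (M := r * m) (C := 2 * (2 * (D : ℝ) ^ 2 * (r * m)))
    (mean 0 (Nat.zero_le _)).2.2.2.1 (mean _ le_rfl).2.2.2.2.1
    (fun j i h hi => (two j i h hi).1) (fun j i h hi => (two j i h hi).2) (by
      intro j hj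
      obtain ⟨-, -, -, -, -, c0, c1⟩ := mean j (by omega)
      refine le_trans ?_ (mul_le_mul_of_nonneg_left c1 (by norm_num))
      rw [sum_comm, mul_sum]
      refine sum_le_sum (fun v _ => ?_)
      rw [sum_comm, mul_sum]
      refine sum_le_sum (fun e _ => ?_)
      rw [sum_comm, mul_sum]
      refine sum_le_sum (fun f _ => ?_)
      rw [← sum_mul]
      refine mul_le_mul_of_nonneg_right ?_ (c0 v e f)
      have pj := pk0 j (by omega)
      refine block_sum (by exact_mod_cast s0) (fun i => (pk (j + i + 1) / pk j) ^ (f ∩ e).card) _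
        (fun i hi => pow_le_one₀ (div_nonneg (pk0 _ (by omega)).le pj.le)
          ((div_le_one pj).2 (pkm _ _ (by omega)))) (fun i i' hii hi' hz => ?_)
      have z0 := zeta_pos G1 hD (A1 (j + i + 1))
      refine pow_le_inv (y := s / zeta G D (A (j + i + 1)) / r)
        (div_nonneg (pk0 _ (by omega)).le pj.le) ?_ (by positivity) s0 ?_
      · have b1 : (A (j + i + 1) : ℝ) + s / zeta G D (A (j + i + 1)) ≤ A (j + i' + 1) := by
          have b2 : A (j + i + 1 + 1) ≤ A (j + i' + 1) := scale_mono G D s (by omega)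
          have b3 : (A (j + i + 1 + 1) : ℝ) ≤ A (j + i' + 1) := by exact_mod_cast b2
          refine le_trans ?_ b3
          simp only [hA, scale]
          push_cast
          linarith [Nat.le_ceil ((s : ℝ) / zeta G D (scale G D s (j + i) +
            ⌈(s : ℝ) / zeta G D (scale G D s (j + i))⌉₊))]
        have b4 : a (j + i + 1) + s / zeta G D (A (j + i + 1)) / r ≤ a (j + i' + 1) := by
          simp only [ha]
          rw [← add_div]
          exact div_le_div_of_nonneg_right b1 rr.le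
        have b5 := am j (j + i + 1) (by omega)
        have b6 : 0 ≤ s / zeta G D (A (j + i + 1)) / r := by positivity
        rw [div_le_iff₀ pj]
        simp only [hpk]
        have b7 := mul_nonneg b6 (a0 j)
        nlinarith [mul_le_mul_of_nonneg_left (show 1 - a (j + i' + 1)
          ≤ (1 - s / zeta G D (A (j + i + 1)) / r) * (1 - a j) by nlinarith) p0.le]
      · calc (s : ℝ) = zeta G D (A (j + i + 1)) * r * (s / zeta G D (A (j + i + 1)) / r) := by
              field_simp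
          _ ≤ _ := mul_le_mul_of_nonneg_right hz (by positivity))
  obtain ⟨e1, e2, e3, -⟩ := mean i hi
  have x0 : 0 ≤ Real.log D := Real.log_nonneg D1
  have x1 : Real.log D ≤ D := (Real.log_le_sub_one_of_pos (by linarith)).trans (by linarith)
  have z0 := zeta_pos G1 hD (A1 i)
  have Ri : ((A i * D : ℕ) : ℝ) ≤ (A (N * s) * D : ℕ) := by exact_mod_cast RA i hi
  have Ri0 : (0 : ℝ) < (A i * D : ℕ) := by exact_mod_cast Nat.mul_pos (A1 i) hD
  have main := bE_mono (pk0 i hi).le (by linarith [pk2 i]) (fun S =>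
    hG V H r (A i * D) S (qk i) (2 ^ (A i * D) * D) (zeta G D (A i) * r) (Real.log D) hH r0 (qk0 i)
      (qk1 i hi) (by positivity) (by positivity) x0 (by linarith [RA i hi]) (by
        calc 8 * G * (A i * D : ℕ) * qk i ≤ 8 * G * (A (N * s) * D : ℕ) * (2 * p) := by
              have := qk0 i
              have := qk2 i hi
              gcongr
          _ ≤ 1 := by linarith))
  rw [bE_union (pk i) (qk i) (fun X => (tau H X : ℝ)), ← pq i] at main
  simp only [bE_add, bE_mul, bE_div, bE_card, e1] at main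
  set κ : ℝ := p * Fintype.card V / r with hκ
  have κ0 : 0 ≤ κ := by positivity
  have mκ : m / D ≤ κ := by
    rw [div_le_iff₀ (by linarith), hκ]
    calc m ≤ _ := hm
      _ = _ := by ring
  have t1 : Real.log D * (2 / r) * (pk i * Fintype.card V / 4 + bE (pk i) (abn H (qk i) (D ^ 2)))
      ≤ κ * (Real.log D / 2) + 2 * κ := by
    have b1 : pk i * Fintype.card V ≤ p * Fintype.card V :=
      mul_le_mul_of_nonneg_right (pk1 i) (by positivity)
    calc _ ≤ Real.log D * (2 / r) * (p * Fintype.card V / 4 + r * m / D ^ 2) := by gcongr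
      _ = κ * (Real.log D / 2) + 2 * (Real.log D / D * (m / D)) := by
          rw [hκ]; field_simp; ring
      _ ≤ _ := by
          have : Real.log D / D ≤ 1 := (div_le_one (by linarith)).2 x1
          have : Real.log D / D * (m / D) ≤ 1 * κ := by gcongr
          linarith
  have t2 : Real.exp (-Real.log D) * m = m / D := by
    rw [Real.exp_neg, Real.exp_log (by linarith)]; ring
  have t3 : bE (pk i) (irr H (qk i) (A i * D)) ≤ m / D + m / D := by
    refine e3.trans (add_le_add ?_ (le_of_eq ?_))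
    · have b1 : (1 - a i) ^ r ≤ 1 / D := pow_le_inv (y := a i) (by linarith [a1 i hi]) le_rfl
        (a0 i) (by linarith) (by
          simp only [ha]; rw [mul_div_cancel₀ _ rr.ne']; exact_mod_cast AD i)
      simp only [hpk, mul_pow]
      calc _ = m * (1 - a i) ^ r := by rw [hm']; ring
        _ ≤ m * (1 / D) := mul_le_mul_of_nonneg_left b1 m0
        _ = _ := by ring
    · have b1 : p ^ r = p ^ (r - 1) * p := by rw [← pow_succ, Nat.sub_add_cancel r0]
      have b2 : (0 : ℝ) < A i := by exact_mod_cast A1 i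
      simp only [hpk, ha, hm', b1]
      push_cast
      field_simp
      ring
  have t4 : 2 ^ (A i * D) * m / (2 ^ (A i * D) * D) = m / D := by field_simp
  have t5 : 8 * G / r * bE (pk i) (defS H (qk i) (D ^ 2) (zeta G D (A i) * r)) ≤ m / D := by
    calc _ ≤ 8 * G / r * (2 * (r * m / N) + 2 * (2 * (D : ℝ) ^ 2 * (r * m)) / s) :=
          mul_le_mul_of_nonneg_left hdef (by positivity)
      _ = (32 * G * D / N + 64 * G * (D : ℝ) ^ 2 * D / s) / 2 * (m / D) := by field_simp; ring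
      _ ≤ (1 + 1) / 2 * (m / D) := by
          have := (div_le_one N0).2 hN
          have := (div_le_one s0).2 hs
          gcongr
      _ = _ := by ring
  have t6 : 64 * G ^ 2 * (zeta G D (A i) * r / r) * D ^ 2 * (A i * D : ℕ) * 2 ^ (A i * D)
      * (2 ^ (A i * D) * D) * m = m / D := by
    unfold zeta
    field_simp
  linarith

end Pool.Agent.Lib.MP_ff43e2_co.Gro
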