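import Pool.Agent.Lib.MP_ff43e2_co.GroBE

set_option autoImplicit false
open Finset

namespace Pool.Agent.Lib.MP_ff43e2_co.Gro

variable {V : Type} [Fintype V] [DecidableEq V]

theorem sum_sum_mem {H : Finset (Finset V)} {r : ℕ} (hH : ∀ e ∈ H, e.card = r)
    (φ : Finset V → ℝ) : ∑ v, ∑ e ∈ H with v ∈ e, φ e = r * ∑ e ∈ H, φ e := by
  simp only [sum_filter]
  rw [sum_comm, mul_sum]
  refine sum_congr rfl (fun e he => ?_)
  rw [sum_ite_mem, univ_inter, sum_const, hH e he, nsmul_eq_mul]

theorem bE_mS {H : Finset (Finset V)} {r : ℕ} (hH : ∀ e ∈ H, e.card = r) (a q : ℝ) :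
    bE a (mS H q) = H.card * (a + q - a * q) ^ r := by
  unfold mS
  rw [bE_sum, ← nsmul_eq_mul, ← sum_const]
  exact sum_congr rfl (fun e he => by rw [bE_rho, hH e he])

theorem bE_sum_nu {H : Finset (Finset V)} {r : ℕ} (hH : ∀ e ∈ H, e.card = r) (a q : ℝ) :
    bE a (fun S => ∑ u, nu H q S u) = r * (H.card * (a + q - a * q) ^ r) := by
  simp only [nu, sum_sum_mem hH]
  rw [bE_mul, ← bE_mS hH]
  rfl

theorem bE_rho_notMem (a q : ℝ) {e : Finset V} {x : V} (hx : x ∈ e) :
    bE a (fun S => rho q S e * ind (x ∉ S))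
      = (a + q - a * q) ^ (e.card - 1) * (a + q - a * q - a) := by
  have e1 : (fun S => rho q S e * ind (x ∉ S))
      = fun S => rho q S e - ind ({x} ⊆ S) * rho q S e := by
    funext S
    by_cases h : x ∈ S
    · rw [ind_neg (not_not.2 h), ind_pos (by simpa using h)]; ring
    · rw [ind_pos h, ind_neg (by simpa using h)]; ring
  have e2 : (fun S => rho q (S ∪ {x}) e) = fun S => rho q S (e.erase x) := by
    funext S
    unfold rho
    congr 2
    ext y
    simp only [mem_sdiff, mem_union, mem_singleton, mem_erase]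
    tauto
  rw [e1, bE_sub, bE_mecke, e2, bE_rho, bE_rho, card_erase_of_mem hx, card_singleton]
  obtain ⟨k, hk⟩ : ∃ k, e.card = k + 1 := ⟨e.card - 1, by
    have := card_pos.2 ⟨x, hx⟩; omega⟩
  rw [hk, Nat.add_sub_cancel]
  ring

theorem meanS : MeanS := by
  intro V _ _ H r R a q p T hH r0 R0 a0 a1 q0 q1 T0 hp
  classical
  subst hp
  have R0' : (0 : ℝ) < R := by exact_mod_cast R0
  refine ⟨bE_mS hH a q, ?_, ?_, ?_, ?_, ?_, ?_⟩
  · rw [← bE_sum_nu hH, ← bE_div]
    refine bE_mono a0 a1 (fun S => ?_)
    rw [le_div_iff₀ T0, abn, ← nsmul_eq_mul, ← sum_const]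
    exact (sum_le_sum (fun u hu => (mem_filter.1 hu).2.le)).trans
      (sum_le_sum_of_subset_of_nonneg (subset_univ _) (fun u _ _ => nu_nonneg q0 _ _ _))
  · calc _ ≤ bE a (fun S => ∑ e ∈ H, (ind (e ⊆ S) + (∑ x ∈ e, rho q S e * ind (x ∉ S)) / R)) := by
          refine bE_mono a0 a1 (fun S => ?_)
          rw [irr, sum_filter]
          refine sum_le_sum (fun e _ => ?_)
          have e1 : ∑ x ∈ e, rho q S e * ind (x ∉ S) = rho q S e * (e \ S).card := by
            rw [← mul_sum, sdiff_eq_filter]
            simp [ind_eq_ite, sum_ite]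
          have p0 := rho_nonneg q0 S e
          have i0 := ind_nonneg (e ⊆ S)
          rw [e1]
          split_ifs with h
          · rcases h with h | h
            · rw [ind_pos (sdiff_eq_empty_iff_subset.1 (card_eq_zero.1 h)), rho, h]
              simp
            · have h' : (R : ℝ) ≤ (e \ S).card := by exact_mod_cast h.le
              have : rho q S e ≤ rho q S e * (e \ S).card / R := by
                rw [le_div_iff₀ R0']; exact mul_le_mul_of_nonneg_left h' p0
              linarith
          · positivity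
      _ = _ := by
          rw [bE_sum]
          have : ∀ e ∈ H, bE a (fun S => ind (e ⊆ S) + (∑ x ∈ e, rho q S e * ind (x ∉ S)) / R)
              = a ^ r + r * ((a + q - a * q) ^ (r - 1) * (a + q - a * q - a)) / R := by
            intro e he
            rw [bE_add, bE_div, bE_sum, bE_subset, sum_congr rfl (fun x hx => bE_rho_notMem a q hx),
              sum_const, hH e he, nsmul_eq_mul]
          rw [sum_congr rfl this, sum_const, nsmul_eq_mul]
          ring
  · exact bE_nonneg a0 a1 (fun S => sum_nonneg (fun u _ => le_min (nu_nonneg q0 _ _ _) T0.le))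
  · rw [← bE_sum_nu hH]
    exact bE_mono a0 a1 (fun S => sum_le_sum (fun u _ => min_le_left _ _))
  · intro v e f
    exact bE_nonneg a0 a1 (fun S => mul_nonneg (mul_nonneg (ind_nonneg _) (ind_nonneg _))
      (mul_nonneg (rho_nonneg q0 _ _) (rho_nonneg q0 _ _)))
  · have h1 : ∀ (v : V) (e : Finset V), ∑ f ∈ H with v ∈ f, cpair H q T a v e f
        ≤ 2 * T * bE a (fun S => rho q S e) := by
      intro v e
      unfold cpair
      rw [← bE_sum, ← bE_mul]
      refine bE_mono a0 a1 (fun S => ?_)
      have p0 := rho_nonneg q0 S e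
      by_cases h : nu H q S v ≤ 2 * T
      · refine le_trans (sum_le_sum (g := fun f => rho q S e * rho q S f) (fun f _ => ?_)) ?_
        · rw [ind_pos h, mul_one]
          exact mul_le_of_le_one_left (mul_nonneg p0 (rho_nonneg q0 _ _)) (ind_le_one _)
        · rw [← mul_sum, mul_comm]
          exact mul_le_mul_of_nonneg_right h p0
      · simp only [ind_neg h, mul_zero, zero_mul, sum_const_zero]
        positivity
    refine (sum_le_sum (fun v _ => sum_le_sum (fun e _ => h1 v e))).trans (le_of_eq ?_)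
    rw [sum_sum_mem hH, ← mul_sum, ← bE_sum, ← bE_mS hH]
    unfold mS
    ring

end Pool.Agent.Lib.MP_ff43e2_co.Gro
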