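import Pool.Agent.Lib.MP_ff43e2_co.GroBE

set_option autoImplicit false
open Finset

namespace Pool.Agent.Lib.MP_ff43e2_co.Gro

variable {V : Type} [DecidableEq V]

theorem exists_hit (B : Finset (Finset V)) :
    ∃ C : Finset V, C.card ≤ B.card ∧ ∀ b ∈ B, b.Nonempty → (b ∩ C).Nonempty := by
  induction B using Finset.induction_on with
  | empty => exact ⟨∅, by simp, by simp⟩
  | insert b B hb ih =>
    obtain ⟨C, h1, h2⟩ := ih
    rw [card_insert_of_notMem hb]
    by_cases hn : b.Nonempty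
    · obtain ⟨y, hy⟩ := hn
      refine ⟨insert y C, (card_insert_le y C).trans (by omega), fun c hc hcn => ?_⟩
      rcases mem_insert.1 hc with rfl | hc
      · exact ⟨y, mem_inter.2 ⟨hy, mem_insert_self _ _⟩⟩
      · exact (h2 c hc hcn).mono (inter_subset_inter_left (subset_insert _ _))
    · refine ⟨C, by omega, fun c hc hcn => ?_⟩
      rcases mem_insert.1 hc with rfl | hc
      · exact absurd hcn hn
      · exact h2 c hc hcn

theorem card_filter_ind {ι : Type} (s : Finset ι) (P : ι → Prop) [DecidablePred P] :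
    ((s.filter P).card : ℝ) = ∑ i ∈ s, ind (P i) := by
  simp [ind_eq_ite]

/-- regular edges -/
def Reg (H : Finset (Finset V)) (S : Finset V) (R : ℕ) : Finset (Finset V) :=
  H.filter (fun f => 0 < (f \ S).card ∧ (f \ S).card ≤ R)

/-- expected codegree of `J` -/
noncomputable def DJ (H : Finset (Finset V)) (S : Finset V) (R : ℕ) (q : ℝ) (J : Finset V) : ℝ :=
  ∑ g ∈ Reg H S R with J ⊆ g \ S, q ^ ((g \ S).card - J.card)

open Classical in
/-- regular edges without heavy outer subsets -/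
noncomputable def Hp (H : Finset (Finset V)) (S : Finset V) (R : ℕ) (q Λ : ℝ) : Finset (Finset V) :=
  (Reg H S R).filter (fun f => ∀ J : Finset V, J ⊆ f \ S → J.Nonempty → DJ H S R q J ≤ Λ)

open Classical in
/-- edges allowed in the lower bound for the weight of `e` -/
noncomputable def Al (F : Finset (Finset V)) (S e : Finset V) (z : ℝ) : Finset (Finset V) :=
  F.filter (fun f => Disjoint (f \ S) (e \ S) ∧ ((f ∩ e).card : ℝ) < z)

theorem Hp_subset (H : Finset (Finset V)) (S : Finset V) (R : ℕ) (q Λ : ℝ) :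
    Hp H S R q Λ ⊆ Reg H S R := by
  classical
  exact filter_subset _ _

theorem Reg_subset (H : Finset (Finset V)) (S : Finset V) (R : ℕ) : Reg H S R ⊆ H :=
  filter_subset _ _

theorem Al_subset (F : Finset (Finset V)) (S e : Finset V) (z : ℝ) : Al F S e z ⊆ F := by
  classical
  exact filter_subset _ _

theorem nu_mono {q : ℝ} (q0 : 0 ≤ q) {F H : Finset (Finset V)} (h : F ⊆ H) (S : Finset V) (u : V) :
    nu F q S u ≤ nu H q S u :=
  sum_le_sum_of_subset_of_nonneg (filter_subset_filter _ h) (fun _ _ _ => rho_nonneg q0 _ _)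

theorem Yge_succ {F : Finset (Finset V)} {S W e : Finset V} {z : ℝ} {u : V} {j : ℕ} (he : e ∈ F)
    (hu : u ∈ e) (hO : 0 < (e \ S).card)
    (h : Yge ((Al F S e z).filter (u ∈ ·)) S W j) :
    Yge (F.filter (u ∈ ·)) S (W ∪ e \ S) (j + 1) := by
  classical
  obtain ⟨𝒢, g1, g2, g3, g4⟩ := h
  have d : ∀ f ∈ 𝒢, Disjoint (f \ S) (e \ S) := fun f hf =>
    (mem_filter.1 (mem_filter.1 (g1 hf)).1).2.1
  have ne : e ∉ 𝒢 := fun hh => by
    have := d e hh
    rw [disjoint_self, bot_eq_empty] at this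
    rw [this] at hO
    simp at hO
  refine ⟨insert e 𝒢, insert_subset (mem_filter.2 ⟨he, hu⟩)
    (g1.trans (filter_subset_filter _ (Al_subset _ _ _ _))), by rw [card_insert_of_notMem ne, g2],
    fun f hf => ?_, fun f hf g hg hfg => ?_⟩
  · rcases mem_insert.1 hf with rfl | hf
    · rw [subset_union_iff]; exact subset_union_right
    · exact (g3 f hf).trans (union_subset_union_right subset_union_left)
  · rcases mem_insert.1 hf with rfl | hf' <;> rcases mem_insert.1 hg with rfl | hg'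
    · exact absurd rfl hfg
    · exact (d g hg').symm
    · exact d f hf'
    · exact g4 f hf' g hg' hfg

theorem Yge_allowed {F H : Finset (Finset V)} (hF : F ⊆ H) {S W e : Finset V} {z : ℝ} {u : V}
    {j : ℕ} (hW : Disjoint W (e \ S)) (hB : ¬ Bad H S (S ∪ W) z e u)
    (h : Yge (F.filter (u ∈ ·)) S W j) : Yge ((Al F S e z).filter (u ∈ ·)) S W j := by
  classical
  obtain ⟨𝒢, g1, g2, g3, g4⟩ := h
  refine ⟨𝒢, fun f hf => ?_, g2, g3, g4⟩
  obtain ⟨f1, f2⟩ := mem_filter.1 (g1 hf)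
  have f3 : f ∩ e ⊆ S := fun y hy => by
    by_contra hn
    have y1 := g3 f hf (mem_inter.1 hy).1
    rw [mem_union] at y1
    exact disjoint_left.1 hW (y1.resolve_left hn) (mem_sdiff.2 ⟨(mem_inter.1 hy).2, hn⟩)
  refine mem_filter.2 ⟨mem_filter.2 ⟨f1, ?_, ?_⟩, f2⟩
  · exact disjoint_left.2 (fun y y1 y2 =>
      (mem_sdiff.1 y1).2 (f3 (mem_inter.2 ⟨(mem_sdiff.1 y1).1, (mem_sdiff.1 y2).1⟩)))
  · by_contra hn
    exact hB ⟨f, hF f1, f2, g3 f hf, f3, not_lt.1 hn⟩

variable [Fintype V]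

open Classical in
/-- heavy sets -/
noncomputable def Hv (H : Finset (Finset V)) (S : Finset V) (R : ℕ) (q Λ : ℝ) : Finset (Finset V) :=
  univ.filter (fun J => J.Nonempty ∧ Λ < DJ H S R q J)

theorem heavy_count (H : Finset (Finset V)) (S : Finset V) (R : ℕ) {q Λ : ℝ} (q0 : 0 ≤ q)
    (Λ0 : 0 < Λ) :
    bE q (fun W => ∑ J ∈ Hv H S R q Λ, ind (J ⊆ W)) ≤ 2 ^ R * mS H q S / Λ := by
  classical
  rw [bE_sum, le_div_iff₀ Λ0, sum_mul]
  simp only [bE_subset]
  calc ∑ J ∈ Hv H S R q Λ, q ^ J.card * Λ ≤ ∑ J ∈ Hv H S R q Λ, q ^ J.card * DJ H S R q J :=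
        sum_le_sum (fun J hJ => mul_le_mul_of_nonneg_left (mem_filter.1 hJ).2.2.le (by positivity))
    _ ≤ ∑ J : Finset V, q ^ J.card * DJ H S R q J :=
        sum_le_sum_of_subset_of_nonneg (subset_univ _) (fun J _ _ =>
          mul_nonneg (by positivity) (sum_nonneg (fun _ _ => by positivity)))
    _ = ∑ J : Finset V, ∑ g ∈ Reg H S R, if J ⊆ g \ S then rho q S g else 0 := by
        refine sum_congr rfl (fun J _ => ?_)
        rw [DJ, mul_sum, sum_filter]
        refine sum_congr rfl (fun g _ => ?_)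
        split_ifs with h
        · rw [← pow_add, rho, Nat.add_sub_cancel' (card_le_card h)]
        · rfl
    _ = ∑ g ∈ Reg H S R, 2 ^ (g \ S).card * rho q S g := by
        rw [sum_comm]
        refine sum_congr rfl (fun g _ => ?_)
        rw [← sum_filter, sum_const, nsmul_eq_mul]
        congr 1
        have : univ.filter (fun J : Finset V => J ⊆ g \ S) = (g \ S).powerset := by
          ext J; simp
        rw [this, card_powerset]; norm_num
    _ ≤ ∑ g ∈ Reg H S R, 2 ^ R * rho q S g :=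
        sum_le_sum (fun g hg => mul_le_mul_of_nonneg_right
          (pow_le_pow_right₀ (by norm_num) (mem_filter.1 hg).2.2) (rho_nonneg q0 _ _))
    _ ≤ 2 ^ R * mS H q S := by
        rw [← mul_sum]
        exact mul_le_mul_of_nonneg_left (sum_le_sum_of_subset_of_nonneg (Reg_subset _ _ _)
          (fun _ _ _ => rho_nonneg q0 _ _)) (by positivity)

open Classical in
/-- vertex weights -/
noncomputable def wt (H F : Finset (Finset V)) (S : Finset V) (q T : ℝ) (r : ℕ) (j : V → ℕ)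
    (W : Finset V) (u : V) : ℝ :=
  if u ∈ S then
    (if nu H q S u ≤ T then
      2 / r * ((piY (F.filter (u ∈ ·)) q S (j u))⁻¹ * ind (Yge (F.filter (u ∈ ·)) S W (j u + 1)))
    else 2 / r)
  else 0

theorem piY_nonneg {q : ℝ} (q0 : 0 ≤ q) (q1 : q ≤ 1) (F : Finset (Finset V)) (S : Finset V)
    (j : ℕ) : 0 ≤ piY F q S j := bE_nonneg q0 q1 (fun _ => ind_nonneg _)

theorem wt_nonneg {q : ℝ} (q0 : 0 ≤ q) (q1 : q ≤ 1) (H F : Finset (Finset V)) (S : Finset V)
    (T : ℝ) (r : ℕ) (j : V → ℕ) (W : Finset V) (u : V) : 0 ≤ wt H F S q T r j W u := by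
  unfold wt
  have := piY_nonneg q0 q1 (F.filter (u ∈ ·)) S (j u)
  have := ind_nonneg (Yge (F.filter (u ∈ ·)) S W (j u + 1))
  split_ifs <;> positivity

theorem wt_mean {q T G : ℝ} (H F : Finset (Finset V)) (S : Finset V)
    (r : ℕ) (j : V → ℕ)
    (hj : ∀ u, nu H q S u ≤ T → 4 * piY (F.filter (u ∈ ·)) q S (j u + 1)
      ≤ piY (F.filter (u ∈ ·)) q S (j u) ∧ 1 ≤ G * piY (F.filter (u ∈ ·)) q S (j u))
    (hp : ∀ u, 0 ≤ piY (F.filter (u ∈ ·)) q S (j u)) :
    bE q (fun W => ∑ u, wt H F S q T r j W u) ≤ 2 / r * (S.card / 4 + abn H q T S) := by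
  classical
  rw [bE_sum]
  have e : (S.card / 4 + abn H q T S : ℝ)
      = ∑ u, (if u ∈ S then (1 / 4 + ind (T < nu H q S u)) else 0) := by
    rw [← sum_filter, filter_mem_eq_inter, univ_inter, sum_add_distrib, abn, card_filter_ind]
    simp [div_eq_mul_inv]
  rw [e, mul_sum]
  refine sum_le_sum (fun u _ => ?_)
  have r0 : (0 : ℝ) ≤ 2 / r := by positivity
  unfold wt
  split_ifs with h1 h2
  · rw [bE_mul, bE_mul]
    refine mul_le_mul_of_nonneg_left ?_ r0
    obtain ⟨a1, a2⟩ := hj u h2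
    have a3 : 0 < piY (F.filter (u ∈ ·)) q S (j u) := by
      rcases (hp u).lt_or_eq with h | h
      · exact h
      · rw [← h] at a2; norm_num at a2
    have a4 : (piY (F.filter (u ∈ ·)) q S (j u))⁻¹ * piY (F.filter (u ∈ ·)) q S (j u + 1)
        ≤ 1 / 4 := by
      rw [inv_mul_le_iff₀ a3]; linarith
    have := ind_nonneg (T < nu H q S u)
    exact le_trans a4 (by linarith)
  · rw [bE_const, ind_pos (not_le.1 h2)]
    nlinarith
  · rw [bE_const]; simp

theorem bE_meet {q : ℝ} (q0 : 0 ≤ q) (q1 : q ≤ 1) (O : Finset V) :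
    bE q (fun W => ind (¬ Disjoint W O)) ≤ O.card * q := by
  calc _ ≤ bE q (fun W : Finset V => ∑ y ∈ O, ind (y ∈ W)) := by
        refine bE_mono q0 q1 (fun W => le_trans (ind_mono ?_) (ind_exists_le O (fun y => y ∈ W)))
        intro h
        obtain ⟨y, y1, y2⟩ := not_disjoint_iff.1 h
        exact ⟨y, y2, y1⟩
    _ = _ := by rw [bE_sum]; simp [bE_mem]

theorem bad_prob (hV : VarS) {H : Finset (Finset V)} {S e : Finset V} {r R : ℕ}
    {q T G Λ z : ℝ} (q0 : 0 ≤ q) (q1 : q ≤ 1) (T0 : 0 ≤ T) (G1 : 1 ≤ G) (Λ0 : 0 < Λ) (z0 : 0 ≤ z)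
    (r0 : 0 < r) (hR : 8 * R ≤ r) (hq : 8 * G * R * q ≤ 1) (j : V → ℕ)
    (hj : ∀ u, nu H q S u ≤ T → 1 ≤ G * piY ((Hp H S R q Λ).filter (u ∈ ·)) q S (j u))
    (he : e ∈ Hp H S R q Λ) (her : e.card = r) :
    bE q (fun W => ind (∑ u ∈ e, wt H (Hp H S R q Λ) S q T r j (W ∪ e \ S) u < 1))
      ≤ 8 * G / r * ∑ u ∈ e with (u ∈ S ∧ nu H q S u ≤ T), Phi H q S z e u
        + 64 * G ^ 2 * (z / r) * T * R * 2 ^ R * Λ := by
  classical
  set F := Hp H S R q Λ with hF
  set I := e.filter (fun u => u ∈ S ∧ nu H q S u ≤ T) with hI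
  set I' := e.filter (fun u => u ∈ S ∧ ¬ nu H q S u ≤ T) with hI'
  set c : V → ℝ := fun u => (piY (F.filter (u ∈ ·)) q S (j u))⁻¹ with hc
  set Sig : Finset V → ℝ := fun W =>
    ∑ u ∈ I, c u * ind (Yge ((Al F S e z).filter (u ∈ ·)) S W (j u)) with hSig
  have rr : (0 : ℝ) < r := by exact_mod_cast r0
  have G0 : 0 ≤ G := by linarith
  have Phi0 : ∀ u, 0 ≤ Phi H q S z e u := fun u => bE_nonneg q0 q1 (fun _ => ind_nonneg _)
  have P0 : 0 ≤ ∑ u ∈ I, Phi H q S z e u := sum_nonneg (fun u _ => Phi0 u)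
  have V0 : 0 ≤ 64 * G ^ 2 * (z / r) * T * R * 2 ^ R * Λ := by positivity
  by_cases hP : r / 8 < G * ∑ u ∈ I, Phi H q S z e u
  · refine (bE_le_const q0 q1 (fun W => ind_le_one _)).trans ?_
    have : 1 ≤ 8 * G / r * ∑ u ∈ I, Phi H q S z e u := by
      rw [div_mul_eq_mul_div, le_div_iff₀ rr]; linarith
    linarith
  have hP' := not_lt.1 hP
  have eR := (mem_filter.1 (Hp_subset _ _ _ _ _ he)).2
  have pos : ∀ u ∈ I, 0 < piY (F.filter (u ∈ ·)) q S (j u) := fun u hu => by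
    rcases (piY_nonneg q0 q1 (F.filter (u ∈ ·)) S (j u)).lt_or_eq with h | h
    · exact h
    · have := hj u (mem_filter.1 hu).2.2
      rw [← h] at this; norm_num at this
  have hcG : ∀ u ∈ I, 0 ≤ c u ∧ c u ≤ G := fun u hu =>
    ⟨(inv_pos.2 (pos u hu)).le, by
      simp only [hc]
      rw [inv_le_iff_one_le_mul₀ (pos u hu)]
      exact hj u (mem_filter.1 hu).2.2⟩
  have Ie : (I.card : ℝ) ≤ r := by
    rw [← her]; exact_mod_cast card_le_card (filter_subset _ _)
  -- cardinalities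
  have cI : (r : ℝ) ≤ I.card + I'.card + R := by
    have h1 : e ⊆ I ∪ I' ∪ e \ S := fun y hy => by
      simp only [hI, hI', mem_union, mem_filter, mem_sdiff]
      tauto
    have h2 := (card_le_card h1).trans ((card_union_le _ _).trans
      (Nat.add_le_add (card_union_le _ _) eR.2))
    rw [her] at h2
    exact_mod_cast h2
  -- lower bound for the weight
  have low : ∀ W, 2 / r * (Sig W + I'.card) ≤ ∑ u ∈ e, wt H F S q T r j (W ∪ e \ S) u := by
    intro W
    have h1 : ∑ u ∈ I ∪ I', wt H F S q T r j (W ∪ e \ S) u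
        ≤ ∑ u ∈ e, wt H F S q T r j (W ∪ e \ S) u :=
      sum_le_sum_of_subset_of_nonneg (union_subset (filter_subset _ _) (filter_subset _ _))
        (fun u _ _ => wt_nonneg q0 q1 _ _ _ _ _ _ _ _)
    refine le_trans ?_ h1
    rw [sum_union (disjoint_filter.2 (fun u _ h1 h2 => h2.2 h1.2)), mul_add]
    refine add_le_add ?_ (le_of_eq ?_)
    · rw [hSig, mul_sum]
      refine sum_le_sum (fun u hu => ?_)
      obtain ⟨u1, u2, u3⟩ := mem_filter.1 hu
      unfold wt
      rw [if_pos u2, if_pos u3]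
      refine mul_le_mul_of_nonneg_left (mul_le_mul_of_nonneg_left (ind_mono ?_) (hcG u hu).1)
        (by positivity)
      exact Yge_succ he u1 eR.1
    · rw [mul_comm, ← nsmul_eq_mul, ← sum_const]
      refine sum_congr rfl (fun u hu => ?_)
      obtain ⟨-, u2, u3⟩ := mem_filter.1 hu
      unfold wt
      rw [if_pos u2, if_neg u3]
  -- mean
  have mean : I.card - G * ∑ u ∈ I, Phi H q S z e u - I.card * (G * (R * q)) ≤ bE q Sig := by
    rw [hSig, bE_sum, mul_sum, ← nsmul_eq_mul, ← sum_const, card_eq_sum_ones, Nat.cast_sum,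
      ← sum_sub_distrib, ← sum_sub_distrib]
    refine sum_le_sum (fun u hu => ?_)
    have h1 : piY (F.filter (u ∈ ·)) q S (j u) - Phi H q S z e u - R * q
        ≤ bE q (fun W => ind (Yge ((Al F S e z).filter (u ∈ ·)) S W (j u))) := by
      have h2 := bE_meet q0 q1 (e \ S)
      have h3 : ((e \ S).card : ℝ) * q ≤ R * q :=
        mul_le_mul_of_nonneg_right (by exact_mod_cast eR.2) q0
      have h4 : bE q (fun W => ind (Yge (F.filter (u ∈ ·)) S W (j u))
            - ind (Bad H S (S ∪ W) z e u) - ind (¬ Disjoint W (e \ S)))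
          ≤ bE q (fun W => ind (Yge ((Al F S e z).filter (u ∈ ·)) S W (j u))) := by
        refine bE_mono q0 q1 (fun W => ?_)
        have a1 := ind_le_one (Yge (F.filter (u ∈ ·)) S W (j u))
        have a2 := ind_nonneg (Bad H S (S ∪ W) z e u)
        have a3 := ind_nonneg (¬ Disjoint W (e \ S))
        have a4 := ind_nonneg (Yge ((Al F S e z).filter (u ∈ ·)) S W (j u))
        by_cases b1 : Disjoint W (e \ S)
        · by_cases b2 : Bad H S (S ∪ W) z e u
          · rw [ind_pos b2]; linarith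
          · have := ind_mono (Yge_allowed (j := j u)
              ((Hp_subset H S R q Λ).trans (Reg_subset _ _ _)) b1 b2)
            linarith
        · rw [ind_pos b1]; linarith
      rw [bE_sub, bE_sub] at h4
      unfold piY Phi
      linarith
    rw [bE_mul]
    have h5 := mul_le_mul_of_nonneg_left h1 (hcG u hu).1
    have h6 : c u * piY (F.filter (u ∈ ·)) q S (j u) = 1 := inv_mul_cancel₀ (pos u hu).ne'
    have h7 := mul_le_mul_of_nonneg_right (hcG u hu).2 (Phi0 u)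
    have h8 := mul_le_mul_of_nonneg_right (hcG u hu).2 (show 0 ≤ (R : ℝ) * q by positivity)
    push_cast
    nlinarith
  -- variance
  have var := hV V (Al F S e z) S I q G z T Λ R j c q0 q1 G0 z0 T0 Λ0.le hcG
    (fun f hf => le_trans (by exact_mod_cast card_le_card (inter_subset_inter_left
      (filter_subset _ _))) (mem_filter.1 hf).2.2.le)
    (fun f hf => (mem_filter.1 (Hp_subset _ _ _ _ _ (Al_subset _ _ _ _ hf))).2.2)
    (fun f hf J J1 J2 => le_trans (sum_le_sum_of_subset_of_nonneg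
      (filter_subset_filter _ ((Al_subset _ _ _ _).trans (Hp_subset _ _ _ _ _)))
      (fun _ _ _ => by positivity)) ((mem_filter.1 (Al_subset _ _ _ _ hf)).2 J J1 J2))
    (fun u hu => (nu_mono q0 ((Al_subset _ _ _ _).trans ((Hp_subset _ _ _ _ _).trans
      (Reg_subset _ _ _))) S u).trans (mem_filter.1 hu).2.2)
  have hR' : 8 * (R : ℝ) ≤ r := by exact_mod_cast hR
  have m2 : (I.card : ℝ) * (G * (R * q)) ≤ r / 8 := by
    have : G * (R * q) ≤ 1 / 8 := by linarith
    calc _ ≤ (r : ℝ) * (1 / 8) := mul_le_mul Ie this (by positivity) rr.le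
      _ = _ := by ring
  have ch := bE_cheb q0 q1 Sig (c := r / 2 - I'.card) (d := r / 8) (by positivity) (by linarith)
  calc _ ≤ bE q (fun W => ind (Sig W < r / 2 - I'.card)) := by
        refine bE_mono q0 q1 (fun W => ind_mono (fun h => ?_))
        have := (low W).trans_lt h
        rw [div_mul_eq_mul_div, div_lt_one rr] at this
        linarith
    _ ≤ (G ^ 2 * z * I.card * T * R * 2 ^ R * Λ) / (r / 8) ^ 2 :=
        ch.trans (div_le_div_of_nonneg_right var (by positivity))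
    _ ≤ (G ^ 2 * z * r * T * R * 2 ^ R * Λ) / (r / 8) ^ 2 := by gcongr
    _ = 64 * G ^ 2 * (z / r) * T * R * 2 ^ R * Λ := by field_simp; ring
    _ ≤ _ := le_add_of_nonneg_left (by positivity)

theorem tau_point (hC : CoverS) (H : Finset (Finset V)) (S W : Finset V) (R : ℕ) (q Λ : ℝ)
    (w : V → ℝ) {x : ℝ} (x0 : 0 ≤ x) (w0 : ∀ u, 0 ≤ w u) :
    (tau H (S ∪ W) : ℝ) ≤ x * ∑ u, w u + Real.exp (-x) * ∑ e ∈ H, ind (e ⊆ S ∪ W)
      + ∑ e ∈ H with ((e \ S).card = 0 ∨ R < (e \ S).card), ind (e ⊆ S ∪ W)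
      + ∑ J ∈ Hv H S R q Λ, ind (J ⊆ W)
      + ∑ e ∈ Hp H S R q Λ, ind (e ⊆ S ∪ W) * ind (∑ u ∈ e, w u < 1) := by
  classical
  obtain ⟨C0, c1, c2⟩ := hC V (H.filter (fun e => e ⊆ S ∪ W ∧ 1 ≤ ∑ u ∈ e, w u)) w x x0 w0
    (fun e he => (mem_filter.1 he).2.2)
  set B1 := (H.filter (fun e => (e \ S).card = 0 ∨ R < (e \ S).card)).filter (· ⊆ S ∪ W) with hB1
  set B2 := (Hv H S R q Λ).filter (· ⊆ W) with hB2
  set B3 := (Hp H S R q Λ).filter (fun e => e ⊆ S ∪ W ∧ ∑ u ∈ e, w u < 1) with hB3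
  obtain ⟨C1, d1, d2⟩ := exists_hit (B1 ∪ B2 ∪ B3)
  have h1 : tau H (S ∪ W) ≤ (C0 ∪ C1).card := by
    refine tau_le (fun e he hs hn => ?_)
    by_cases a1 : 1 ≤ ∑ u ∈ e, w u
    · exact (c1 e (mem_filter.2 ⟨he, hs, a1⟩)).mono (inter_subset_inter_left subset_union_left)
    refine Finset.Nonempty.mono (inter_subset_inter_left subset_union_right) ?_
    by_cases a2 : (e \ S).card = 0 ∨ R < (e \ S).card
    · exact d2 e (mem_union_left _ (mem_union_left _
        (mem_filter.2 ⟨mem_filter.2 ⟨he, a2⟩, hs⟩))) hn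
    have a3 : e ∈ Reg H S R := mem_filter.2 ⟨he, by omega⟩
    by_cases a4 : e ∈ Hp H S R q Λ
    · exact d2 e (mem_union_right _ (mem_filter.2 ⟨a4, hs, not_le.1 a1⟩)) hn
    have a5 : ∃ J : Finset V, J ⊆ e \ S ∧ J.Nonempty ∧ Λ < DJ H S R q J := by
      by_contra hn'
      push Not at hn'
      exact a4 (mem_filter.2 ⟨a3, hn'⟩)
    obtain ⟨J, J1, J2, J3⟩ := a5
    exact (d2 J (mem_union_left _ (mem_union_right _ (mem_filter.2
      ⟨mem_filter.2 ⟨mem_univ _, J2, J3⟩, J1.trans ((subset_union_iff _ _ _).1 hs)⟩))) J2).mono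
      (inter_subset_inter_right (J1.trans sdiff_subset))
  have h2 : (tau H (S ∪ W) : ℝ) ≤ C0.card + (B1.card + B2.card + B3.card) := by
    have := h1.trans ((card_union_le _ _).trans (Nat.add_le_add_left (d1.trans
      ((card_union_le _ _).trans (Nat.add_le_add_right (card_union_le _ _) _))) _))
    exact_mod_cast this
  have h3 : ((H.filter (fun e => e ⊆ S ∪ W ∧ 1 ≤ ∑ u ∈ e, w u)).card : ℝ)
      ≤ ∑ e ∈ H, ind (e ⊆ S ∪ W) := by
    rw [card_filter_ind]
    exact sum_le_sum (fun e _ => ind_mono (fun h => h.1))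
  have h4 := mul_le_mul_of_nonneg_left h3 (Real.exp_pos (-x)).le
  rw [hB1, hB2, hB3, card_filter_ind, card_filter_ind, card_filter_ind] at h2
  simp only [ind_and] at h2
  linarith

theorem scaleS (hC : CoverS) (hT : ThrS) (hV : VarS) : ScaleS := by
  intro T T0
  obtain ⟨G, G1, hG⟩ := hT T T0
  refine ⟨G, G1, ?_⟩
  intro V _ _ H r R S q Λ z x hH r0 q0 q1 Λ0 z0 x0 hR hq
  classical
  set F := Hp H S R q Λ with hF
  have FH : F ⊆ H := (Hp_subset _ _ _ _ _).trans (Reg_subset _ _ _)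
  have ex : ∀ u : V, ∃ j : ℕ, nu H q S u ≤ T → 4 * piY (F.filter (u ∈ ·)) q S (j + 1)
      ≤ piY (F.filter (u ∈ ·)) q S j ∧ 1 ≤ G * piY (F.filter (u ∈ ·)) q S j := fun u => by
    by_cases h : nu H q S u ≤ T
    · obtain ⟨j, hj⟩ := hG V (F.filter (u ∈ ·)) S q q0 q1 ((nu_mono q0 FH S u).trans h)
      exact ⟨j, fun _ => hj⟩
    · exact ⟨0, fun h' => absurd h' h⟩
  choose j hj using ex
  have h1 := bE_mono q0 q1 (fun W => tau_point hC H S W R q Λ (wt H F S q T r j W) x0
    (wt_nonneg q0 q1 _ _ _ _ _ _ _))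
  simp only [bE_add, bE_mul] at h1
  have h2 := wt_mean H F S r j hj (fun u => piY_nonneg q0 q1 _ _ _)
  have h3 := heavy_count H S R q0 Λ0
  have h4 : bE q (fun W => ∑ e ∈ H, ind (e ⊆ S ∪ W)) = mS H q S := by
    rw [bE_sum]; simp only [bE_present, mS]
  have h5 : bE q (fun W => ∑ e ∈ H with ((e \ S).card = 0 ∨ R < (e \ S).card), ind (e ⊆ S ∪ W))
      = irr H q R S := by
    rw [bE_sum]; simp only [bE_present, irr]
  have h6 : bE q (fun W => ∑ e ∈ F, ind (e ⊆ S ∪ W) * ind (∑ u ∈ e, wt H F S q T r j W u < 1))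
      ≤ 8 * G / r * defS H q T z S + 64 * G ^ 2 * (z / r) * T * R * 2 ^ R * Λ * mS H q S := by
    rw [bE_sum, defS, mS, mul_sum, mul_sum, ← sum_add_distrib]
    have G0 : 0 ≤ G := by linarith
    refine le_trans (sum_le_sum (fun e he => ?_)) (sum_le_sum_of_subset_of_nonneg FH
      (fun e _ _ => ?_))
    · rw [bE_present_mul q S e (fun W => ind (∑ u ∈ e, wt H F S q T r j W u < 1))]
      refine (mul_le_mul_of_nonneg_left (bad_prob hV q0 q1 T0 G1 Λ0 z0 r0 hR hq j
        (fun u hu => (hj u hu).2) he (hH e (FH he))) (rho_nonneg q0 _ _)).trans (le_of_eq ?_)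
      ring
    · have a1 := rho_nonneg q0 S e
      have a2 : 0 ≤ ∑ u ∈ e with (u ∈ S ∧ nu H q S u ≤ T), Phi H q S z e u :=
        sum_nonneg (fun u _ => bE_nonneg q0 q1 (fun _ => ind_nonneg _))
      positivity
  rw [h4, h5] at h1
  have h7 := mul_le_mul_of_nonneg_left h2 x0
  rw [← mul_assoc] at h7
  linarith

end Pool.Agent.Lib.MP_ff43e2_co.Gro
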