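import Pool.Agent.Lib.MP_ff43e2_co.GroBE

set_option autoImplicit false
open Finset Filter Topology

namespace Pool.Agent.Lib.MP_ff43e2_co.Gro

theorem esymm_le {ι : Type} [DecidableEq ι] (y : ι → ℝ) (y0 : ∀ i, 0 ≤ y i) (F : Finset ι) :
    ∀ j : ℕ, (j.factorial : ℝ) * ∑ 𝒢 ∈ F.powersetCard j, ∏ f ∈ 𝒢, y f ≤ (∑ f ∈ F, y f) ^ j := by
  induction F using Finset.induction_on with
  | empty =>
    intro j
    cases j with
    | zero => simp
    | succ j => rw [powersetCard_eq_empty.2 (by simp)]; simp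
  | insert a F ha ih =>
    intro j
    cases j with
    | zero => simp
    | succ j =>
      have hs : 0 ≤ ∑ f ∈ F, y f := sum_nonneg (fun f _ => y0 f)
      rw [powersetCard_succ_insert ha, sum_union, sum_image, sum_insert ha]
      · have e : ∑ 𝒢 ∈ F.powersetCard j, ∏ f ∈ insert a 𝒢, y f
            = y a * ∑ 𝒢 ∈ F.powersetCard j, ∏ f ∈ 𝒢, y f := by
          rw [mul_sum]
          exact sum_congr rfl (fun 𝒢 h => prod_insert (fun h' => ha ((mem_powersetCard.1 h).1 h')))
        rw [e]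
        have h1 := ih (j + 1)
        have h2 := mul_le_mul_of_nonneg_left (ih j)
          (mul_nonneg (Nat.cast_nonneg (α := ℝ) (j + 1)) (y0 a))
        have h3 := pow_add_mul_le_add_pow hs (show 0 ≤ 2 * ∑ f ∈ F, y f + y a by
          linarith [y0 a]) (j + 1)
        rw [Nat.add_sub_cancel] at h3
        rw [Nat.factorial_succ] at h1 ⊢
        rw [add_comm (y a)]
        push_cast at h1 h2 h3 ⊢
        nlinarith
      · intro 𝒢 h 𝒢' h' hh
        have a1 : a ∉ 𝒢 := fun h'' => ha ((mem_powersetCard.1 h).1 h'')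
        have a2 : a ∉ 𝒢' := fun h'' => ha ((mem_powersetCard.1 h').1 h'')
        rw [← erase_insert a1, ← erase_insert a2, hh]
      · refine disjoint_left.2 (fun 𝒢 h h' => ?_)
        obtain ⟨𝒢', -, rfl⟩ := mem_image.1 h'
        exact ha ((mem_powersetCard.1 h).1 (mem_insert_self _ _))

variable {V : Type} [Fintype V] [DecidableEq V]

theorem piY_zero (F : Finset (Finset V)) (q : ℝ) (S : Finset V) : piY F q S 0 = 1 := by
  unfold piY
  rw [← bE_const (V := V) q 1]
  congr 1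
  funext W
  exact ind_pos ⟨∅, by simp, by simp, by simp, by simp⟩

theorem piY_le {q : ℝ} (q0 : 0 ≤ q) (q1 : q ≤ 1) (F : Finset (Finset V)) (S : Finset V) (j : ℕ) :
    piY F q S j ≤ ∑ 𝒢 ∈ F.powersetCard j, ∏ f ∈ 𝒢, rho q S f := by
  classical
  calc _ ≤ bE q (fun W => ∑ 𝒢 ∈ F.powersetCard j, ind ((∀ f ∈ 𝒢, f ⊆ S ∪ W) ∧
        ∀ f ∈ 𝒢, ∀ g ∈ 𝒢, f ≠ g → Disjoint (f \ S) (g \ S))) := by
        refine bE_mono q0 q1 (fun W => le_trans (ind_mono ?_) (ind_exists_le _ _))
        rintro ⟨𝒢, g1, g2, g3, g4⟩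
        exact ⟨𝒢, mem_powersetCard.2 ⟨g1, g2⟩, g3, g4⟩
    _ ≤ _ := by
        rw [bE_sum]
        refine sum_le_sum (fun 𝒢 _ => ?_)
        by_cases h : ∀ f ∈ 𝒢, ∀ g ∈ 𝒢, f ≠ g → Disjoint (f \ S) (g \ S)
        · refine (bE_mono q0 q1 (G := fun W => ind (𝒢.biUnion (· \ S) ⊆ W))
            (fun W => ind_mono (fun hh => ?_))).trans (le_of_eq ?_)
          · exact biUnion_subset.2 (fun f hf => (subset_union_iff _ _ _).1 (hh.1 f hf))
          · rw [bE_subset, card_biUnion (fun f hf g hg hfg => h f hf g hg hfg), ← prod_pow_eq_pow_sum]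
            rfl
        · refine (bE_le_const q0 q1 (c := 0) (fun W => (ind_neg (fun hh => h hh.2)).le)).trans ?_
          exact prod_nonneg (fun f _ => rho_nonneg q0 _ _)

theorem thrS : ThrS := by
  intro T T0
  have lim := FloorSemiring.tendsto_pow_div_factorial_atTop (4 * T)
  obtain ⟨M, hM⟩ := (lim.eventually (gt_mem_nhds (zero_lt_one' ℝ))).exists
  refine ⟨4 ^ M, one_le_pow₀ (by norm_num), ?_⟩
  intro V _ _ F S q q0 q1 hF
  by_contra hn
  push Not at hn
  have key : ∀ j, j ≤ M → 1 ≤ 4 ^ j * piY F q S j := by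
    intro j
    induction j with
    | zero => intro _; simp [piY_zero]
    | succ j ih =>
      intro hj
      have h1 := ih (by omega)
      have p0 : 0 ≤ piY F q S j := bE_nonneg q0 q1 (fun _ => ind_nonneg _)
      have h2 : (4 : ℝ) ^ j * piY F q S j ≤ 4 ^ M * piY F q S j :=
        mul_le_mul_of_nonneg_right (pow_le_pow_right₀ (by norm_num) (by omega)) p0
      have h3 : piY F q S j < 4 * piY F q S (j + 1) := by
        by_contra h
        linarith [hn j (not_lt.1 h)]
      have h4 := mul_le_mul_of_nonneg_left h3.le (show (0 : ℝ) ≤ 4 ^ j by positivity)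
      rw [pow_succ]
      linarith
  have h1 := key M le_rfl
  have h2 := piY_le q0 q1 F S M
  have h3 := esymm_le (rho q S) (fun f => rho_nonneg q0 _ _) F M
  have h4 : (∑ f ∈ F, rho q S f) ^ M ≤ T ^ M :=
    pow_le_pow_left₀ (sum_nonneg (fun f _ => rho_nonneg q0 _ _)) hF M
  have f0 : (0 : ℝ) < M.factorial := by exact_mod_cast M.factorial_pos
  rw [div_lt_one f0, mul_pow] at hM
  have h5 := mul_le_mul_of_nonneg_left h2 f0.le
  have h6 := mul_le_mul_of_nonneg_left (h5.trans (h3.trans h4)) (show (0 : ℝ) ≤ 4 ^ M by positivity)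
  nlinarith [mul_le_mul_of_nonneg_left h1 f0.le]

end Pool.Agent.Lib.MP_ff43e2_co.Gro
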