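import Pool.Agent.Lib.MP_ff43e2_co.GroBE

set_option autoImplicit false
open Finset

namespace Pool.Agent.Lib.MP_ff43e2_co.Gro

variable {V : Type} [Fintype V] [DecidableEq V]

theorem bE_nu (H : Finset (Finset V)) (u q' : ℝ) (S : Finset V) (v : V) :
    bE u (fun U => nu H q' (S ∪ U) v) = nu H (u + q' - u * q') S v := by
  unfold nu
  rw [bE_sum]
  refine sum_congr rfl (fun e _ => ?_)
  rw [rho, ← bE_rho]
  simp only [rho, sdiff_sdiff_left, sup_eq_union]

theorem part_a {u T : ℝ} (u0 : 0 ≤ u) (u1 : u ≤ 1) (N : Finset V → ℝ) :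
    ind (bE u N ≤ T) * bE u (fun U => ind (2 * T < N U) * N U)
      ≤ 2 * (min (bE u N) T - bE u (fun U => min (N U) T)) := by
  by_cases h : bE u N ≤ T
  · rw [ind_pos h, one_mul, min_eq_left h, ← bE_sub, ← bE_mul]
    refine bE_mono u0 u1 (fun U => ?_)
    by_cases h2 : 2 * T < N U
    · rw [ind_pos h2]; linarith [min_le_right (N U) T]
    · rw [ind_neg h2]; linarith [min_le_left (N U) T]
  · rw [ind_neg h, zero_mul, min_eq_right (not_le.1 h).le]
    have := bE_le_const u0 u1 (F := fun U => min (N U) T) (fun U => min_le_right _ _)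
    linarith

theorem thin {a u b : ℝ} (hb : b = a + u - a * u) (b0 : 0 < b) (J : Finset V) (g : Finset V → ℝ) :
    bE a (fun S => bE u (fun U => ind (J ⊆ S) * g (S ∪ U)))
      = (a / b) ^ J.card * bE b (fun S => ind (J ⊆ S) * g S) := by
  simp only [bE_mul]
  rw [bE_mecke J a (fun S => bE u (fun U => g (S ∪ U))), bE_mecke J b g, hb,
    ← bE_union a u (fun X => g (X ∪ J)), ← hb, div_pow, ← mul_assoc,
    div_mul_cancel₀ _ (pow_pos b0 _).ne']
  simp only [union_right_comm]

theorem bE_both' (q : ℝ) {S e f : Finset V} (h : f ∩ e ⊆ S) :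
    bE q (fun W => ind (e ⊆ S ∪ W) * ind (f ⊆ S ∪ W)) = rho q S e * rho q S f := by
  have e1 : (fun W => ind (e ⊆ S ∪ W) * ind (f ⊆ S ∪ W)) = fun W => ind (e \ S ∪ f \ S ⊆ W) := by
    funext W
    rw [← ind_and, subset_union_iff, subset_union_iff, union_subset_iff]
  rw [e1, bE_subset, rho, rho, ← pow_add, card_union_of_disjoint]
  exact disjoint_left.2 (fun y y1 y2 =>
    (mem_sdiff.1 y1).2 (h (mem_inter.2 ⟨(mem_sdiff.1 y2).1, (mem_sdiff.1 y1).1⟩)))

theorem split_point (H : Finset (Finset V)) {q' : ℝ} (q0 : 0 ≤ q') (q1 : q' ≤ 1) (T z : ℝ)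
    (S U e : Finset V) (v : V) :
    bE q' (fun W => ind (e ⊆ S ∪ U ∪ W) * ind (Bad H S (S ∪ U ∪ W) z e v))
      ≤ ind (2 * T < nu H q' (S ∪ U) v) * rho q' (S ∪ U) e
        + ∑ f ∈ H with v ∈ f, ind (z ≤ ((f ∩ e).card : ℝ)) * (ind (f ∩ e ⊆ S) *
          (ind (nu H q' (S ∪ U) v ≤ 2 * T) * (rho q' (S ∪ U) e * rho q' (S ∪ U) f))) := by
  by_cases h : nu H q' (S ∪ U) v ≤ 2 * T
  · rw [ind_neg (not_lt.2 h), zero_mul, zero_add]
    calc _ ≤ bE q' (fun W => ∑ f ∈ H with v ∈ f, (ind (z ≤ ((f ∩ e).card : ℝ)) * ind (f ∩ e ⊆ S))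
            * (ind (e ⊆ S ∪ U ∪ W) * ind (f ⊆ S ∪ U ∪ W))) := by
          refine bE_mono q0 q1 (fun W => ?_)
          simp only [← ind_and]
          refine le_trans (ind_mono ?_) (ind_exists_le _ _)
          rintro ⟨h0, f, f1, f2, f3, f4, f5⟩
          exact ⟨f, mem_filter.2 ⟨f1, f2⟩, ⟨f5, f4⟩, h0, f3⟩
      _ = _ := by
          rw [bE_sum]
          refine sum_congr rfl (fun f _ => ?_)
          rw [bE_mul, ind_pos h, one_mul, mul_assoc]
          by_cases h2 : f ∩ e ⊆ S
          · rw [bE_both' q' (h2.trans subset_union_left)]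
          · simp [ind_neg h2]
  · rw [ind_pos (not_le.1 h), one_mul, ← bE_present]
    refine le_add_of_le_of_nonneg (bE_mono q0 q1 (fun W =>
      mul_le_of_le_one_right (ind_nonneg _) (ind_le_one _))) (sum_nonneg (fun f _ => ?_))
    rw [ind_neg h]; simp

theorem twoS : TwoS := by
  intro V _ _ H a u q' b q T z a0 a1 u0 u1 q0' q1' T0 hb hq b0
  classical
  have q0 : 0 ≤ q := by rw [hq]; nlinarith
  have q1 : q ≤ 1 := by rw [hq]; nlinarith
  have hf : fpot H q T a - fpot H q' T b = bE a (fun S => ∑ v, (min (nu H q S v) T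
      - bE u (fun U => min (nu H q' (S ∪ U) v) T))) := by
    unfold fpot
    rw [hb, ← bE_union a u (fun X => ∑ v, min (nu H q' X v) T), ← bE_sub]
    simp only [bE_sum u, sum_sub_distrib]
  have pa : ∀ (S : Finset V) (v : V), ind (nu H q S v ≤ T) *
      bE u (fun U => ind (2 * T < nu H q' (S ∪ U) v) * nu H q' (S ∪ U) v)
      ≤ 2 * (min (nu H q S v) T - bE u (fun U => min (nu H q' (S ∪ U) v) T)) := fun S v => by
    have := part_a (T := T) u0 u1 (fun U => nu H q' (S ∪ U) v)
    rwa [bE_nu, ← hq] at this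
  constructor
  · rw [← sub_nonneg, hf]
    refine bE_nonneg a0 a1 (fun S => sum_nonneg (fun v _ => ?_))
    have h1 := pa S v
    have h2 : 0 ≤ ind (nu H q S v ≤ T) *
        bE u (fun U => ind (2 * T < nu H q' (S ∪ U) v) * nu H q' (S ∪ U) v) :=
      mul_nonneg (ind_nonneg _) (bE_nonneg u0 u1 (fun U =>
        mul_nonneg (ind_nonneg _) (nu_nonneg q0' _ _ _)))
    linarith
  set g : V → Finset V → Finset V → Finset V → ℝ := fun v e f X =>
    ind (nu H q' X v ≤ 2 * T) * (rho q' X e * rho q' X f) with hg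
  have g0 : ∀ v e f X, 0 ≤ g v e f X := fun v e f X =>
    mul_nonneg (ind_nonneg _) (mul_nonneg (rho_nonneg q0' _ _) (rho_nonneg q0' _ _))
  have s1 : ∀ (S e : Finset V) (v : V), rho q S e * Phi H q S z e v
      ≤ bE u (fun U => ind (2 * T < nu H q' (S ∪ U) v) * rho q' (S ∪ U) e)
        + ∑ f ∈ H with v ∈ f, ind (z ≤ ((f ∩ e).card : ℝ)) *
          bE u (fun U => ind (f ∩ e ⊆ S) * g v e f (S ∪ U)) := by
    intro S e v
    calc _ ≤ bE q (fun W => ind (e ⊆ S ∪ W) * ind (Bad H S (S ∪ W) z e v)) := by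
          rw [bE_present_mul q S e (fun W => ind (Bad H S (S ∪ W) z e v))]
          refine mul_le_mul_of_nonneg_left (bE_mono q0 q1 (fun W => ind_mono ?_))
            (rho_nonneg q0 _ _)
          rintro ⟨f, f1, f2, f3, f4⟩
          exact ⟨f, f1, f2, f3.trans (union_subset_union_right subset_union_left), f4⟩
      _ = bE u (fun U => bE q' (fun W =>
            ind (e ⊆ S ∪ U ∪ W) * ind (Bad H S (S ∪ U ∪ W) z e v))) := by
          rw [hq, ← bE_union u q' (fun W => ind (e ⊆ S ∪ W) * ind (Bad H S (S ∪ W) z e v))]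
          simp only [union_assoc]
      _ ≤ _ := by
          refine (bE_mono u0 u1 (fun U => split_point H q0' q1' T z S U e v)).trans (le_of_eq ?_)
          rw [bE_add, bE_sum]
          simp only [bE_mul u (ind (z ≤ _)), hg]
  have s2 : ∀ S : Finset V, defS H q T z S ≤ 2 * ∑ v, (min (nu H q S v) T
      - bE u (fun U => min (nu H q' (S ∪ U) v) T))
      + ∑ v, ∑ e ∈ H with v ∈ e, ∑ f ∈ H with v ∈ f, ind (z ≤ ((f ∩ e).card : ℝ)) *
          bE u (fun U => ind (f ∩ e ⊆ S) * g v e f (S ∪ U)) := by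
    intro S
    have Phi0 : ∀ e v, 0 ≤ rho q S e * Phi H q S z e v := fun e v =>
      mul_nonneg (rho_nonneg q0 _ _) (bE_nonneg q0 q1 (fun _ => ind_nonneg _))
    calc _ ≤ ∑ v, ∑ e ∈ H with v ∈ e, ind (nu H q S v ≤ T) * (rho q S e * Phi H q S z e v) := by
          simp only [defS, sum_filter, mul_sum]
          rw [sum_comm]
          refine sum_le_sum (fun e _ => ?_)
          rw [sum_ite_mem, univ_inter]
          refine sum_le_sum (fun v _ => ?_)
          split_ifs with h
          · rw [ind_pos h.2, one_mul]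
          · rw [mul_zero]; exact mul_nonneg (ind_nonneg _) (Phi0 e v)
      _ ≤ _ := by
          rw [mul_sum, ← sum_add_distrib]
          refine sum_le_sum (fun v _ => ?_)
          refine (sum_le_sum (fun e _ =>
            mul_le_mul_of_nonneg_left (s1 S e v) (ind_nonneg _))).trans ?_
          simp only [mul_add, sum_add_distrib]
          refine add_le_add (le_trans (le_of_eq ?_) (pa S v)) (sum_le_sum (fun e _ =>
            mul_le_of_le_one_left (sum_nonneg (fun f _ => mul_nonneg (ind_nonneg _)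
              (bE_nonneg u0 u1 (fun U => mul_nonneg (ind_nonneg _) (g0 _ _ _ _))))) (ind_le_one _)))
          rw [← mul_sum, ← bE_sum]
          simp only [← mul_sum]
          rfl
  refine (bE_mono a0 a1 s2).trans (le_of_eq ?_)
  rw [bE_add, bE_mul, hf]
  congr 1
  simp only [bE_sum a]
  refine sum_congr rfl (fun v _ => sum_congr rfl (fun e _ => sum_congr rfl (fun f _ => ?_)))
  rw [bE_mul, thin hb b0, cpair]
  simp only [hg, mul_assoc]
  ring

end Pool.Agent.Lib.MP_ff43e2_co.Gro
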