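import Pool.Agent.Lib.MP_ff43e2_co.GroBE

set_option autoImplicit false
open Finset

namespace Pool.Agent.Lib.MP_ff43e2_co.Gro

variable {V : Type} [DecidableEq V]

theorem ind_diff_le {F : Finset (Finset V)} (S W : Finset V) (x : V) (j : ℕ) :
    |ind (Yge F S W j) - ind (Yge F S (W.erase x) j)|
      ≤ ∑ f ∈ F, ind (f ⊆ S ∪ W ∧ x ∈ f \ S) := by
  have s0 : 0 ≤ ∑ f ∈ F, ind (f ⊆ S ∪ W ∧ x ∈ f \ S) := sum_nonneg (fun _ _ => ind_nonneg _)
  by_cases h1 : Yge F S (W.erase x) j
  · have h2 : Yge F S W j := by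
      obtain ⟨𝒢, g1, g2, g3, g4⟩ := h1
      exact ⟨𝒢, g1, g2, fun f hf => (g3 f hf).trans (union_subset_union_right (erase_subset _ _)),
        g4⟩
    rw [ind_pos h1, ind_pos h2]; simpa using s0
  by_cases h2 : Yge F S W j
  · rw [ind_neg h1, ind_pos h2]
    refine le_trans (le_of_eq ?_) (ind_exists_le F (fun f => f ⊆ S ∪ W ∧ x ∈ f \ S))
    rw [ind_pos]
    · simp
    obtain ⟨𝒢, g1, g2, g3, g4⟩ := h2
    by_contra hn
    refine h1 ⟨𝒢, g1, g2, fun f hf y hy => ?_, g4⟩
    rcases mem_union.1 (g3 f hf hy) with h | h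
    · exact mem_union_left _ h
    · by_cases hS : y ∈ S
      · exact mem_union_left _ hS
      · refine mem_union_right _ (mem_erase.2 ⟨fun hyx => hn ⟨f, g1 hf, g3 f hf, ?_⟩, h⟩)
        rw [← hyx]; exact mem_sdiff.2 ⟨hy, hS⟩
  · rw [ind_neg h1, ind_neg h2]; simpa using s0

theorem sum_swap_inter (A : Finset (Finset V)) (I : Finset V) (φ : Finset V → ℝ) :
    ∑ u ∈ I, ∑ f ∈ A with u ∈ f, φ f = ∑ f ∈ A, ((f ∩ I).card : ℝ) * φ f := by
  simp only [sum_filter]
  rw [sum_comm]
  refine sum_congr rfl (fun f _ => ?_)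
  rw [← sum_filter, sum_const, nsmul_eq_mul, filter_mem_eq_inter, inter_comm]

variable [Fintype V]

theorem bE_both (q : ℝ) (S f g : Finset V) :
    bE q (fun W => ind (f ⊆ S ∪ W) * ind (g ⊆ S ∪ W))
      = rho q S f * q ^ ((g \ S).card - ((g \ S) ∩ (f \ S)).card) := by
  have e : (fun W => ind (f ⊆ S ∪ W) * ind (g ⊆ S ∪ W)) = fun W => ind (f \ S ∪ g \ S ⊆ W) := by
    funext W
    rw [← ind_and, subset_union_iff, subset_union_iff, union_subset_iff]
  rw [e, bE_subset, rho, ← pow_add]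
  congr 1
  have h1 := card_union_add_card_inter (f \ S) (g \ S)
  have h2 : ((g \ S) ∩ (f \ S)).card ≤ (g \ S).card := card_le_card inter_subset_left
  rw [inter_comm] at h1
  omega

theorem varS : VarS := by
  intro V _ _ A S I q G z T Λ R j c q0 q1 G0 z0 T0 Λ0 hc hz hR hΛ hT
  classical
  refine (bE_poincare q0 q1 _).trans ?_
  set P : Finset V → V → Finset V → ℝ := fun W x f => ind (f ⊆ S ∪ W ∧ x ∈ f \ S) with hP
  have P0 : ∀ W x f, 0 ≤ P W x f := fun _ _ _ => ind_nonneg _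
  have step : ∀ (W : Finset V) (x : V),
      (∑ u ∈ I, c u * ind (Yge (A.filter (u ∈ ·)) S W (j u))
        - ∑ u ∈ I, c u * ind (Yge (A.filter (u ∈ ·)) S (W.erase x) (j u))) ^ 2
      ≤ G ^ 2 * z * ∑ f ∈ A, ∑ g ∈ A, ((f ∩ I).card : ℝ) * (P W x f * P W x g) := by
    intro W x
    have h1 : |∑ u ∈ I, c u * ind (Yge (A.filter (u ∈ ·)) S W (j u))
        - ∑ u ∈ I, c u * ind (Yge (A.filter (u ∈ ·)) S (W.erase x) (j u))|
        ≤ G * ∑ f ∈ A, ((f ∩ I).card : ℝ) * P W x f := by
      rw [← sum_sub_distrib, ← sum_swap_inter, mul_sum]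
      refine (abs_sum_le_sum_abs _ _).trans (sum_le_sum (fun u hu => ?_))
      rw [← mul_sub, abs_mul, abs_of_nonneg (hc u hu).1]
      exact mul_le_mul (hc u hu).2 (ind_diff_le S W x (j u)) (abs_nonneg _) G0
    have h2 : ∑ f ∈ A, ((f ∩ I).card : ℝ) * P W x f ≤ z * ∑ g ∈ A, P W x g := by
      rw [mul_sum]
      exact sum_le_sum (fun f hf => mul_le_mul_of_nonneg_right (hz f hf) (P0 _ _ _))
    have h3 : 0 ≤ ∑ f ∈ A, ((f ∩ I).card : ℝ) * P W x f :=
      sum_nonneg (fun f _ => mul_nonneg (Nat.cast_nonneg _) (P0 _ _ _))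
    have e : ∑ f ∈ A, ∑ g ∈ A, ((f ∩ I).card : ℝ) * (P W x f * P W x g)
        = (∑ f ∈ A, ((f ∩ I).card : ℝ) * P W x f) * ∑ g ∈ A, P W x g := by
      rw [sum_mul_sum]
      exact sum_congr rfl (fun f _ => sum_congr rfl (fun g _ => by ring))
    rw [e, ← sq_abs]
    refine (pow_le_pow_left₀ (abs_nonneg _) h1 2).trans ?_
    have := mul_le_mul_of_nonneg_left h2 (mul_nonneg (sq_nonneg G) h3)
    nlinarith
  have inner : ∀ f ∈ A, ∀ x : V, ∑ g ∈ A, bE q (fun W => P W x f * P W x g)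
      ≤ rho q S f * (ind (x ∈ f \ S) * (2 ^ R * Λ)) := by
    intro f hf x
    have e : ∀ g, bE q (fun W => P W x f * P W x g) = rho q S f * (ind (x ∈ f \ S) *
        (ind (x ∈ g \ S) * q ^ ((g \ S).card - ((g \ S) ∩ (f \ S)).card))) := fun g => by
      have : (fun W => P W x f * P W x g) = fun W => (ind (x ∈ f \ S) * ind (x ∈ g \ S)) *
          (ind (f ⊆ S ∪ W) * ind (g ⊆ S ∪ W)) := by
        funext W; simp only [hP, ind_and]; ring
      rw [this, bE_mul, bE_both]; ring
    simp only [e, ← mul_sum]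
    refine mul_le_mul_of_nonneg_left ?_ (rho_nonneg q0 _ _)
    by_cases hx : x ∈ f \ S
    swap
    · rw [ind_neg hx]; simp
    refine mul_le_mul_of_nonneg_left ?_ (ind_nonneg _)
    calc ∑ g ∈ A, ind (x ∈ g \ S) * q ^ ((g \ S).card - ((g \ S) ∩ (f \ S)).card)
        ≤ ∑ g ∈ A, ∑ J ∈ (f \ S).powerset with J.Nonempty,
            if J ⊆ g \ S then q ^ ((g \ S).card - J.card) else 0 := by
          refine sum_le_sum (fun g _ => ?_)
          have n0 : ∀ J ∈ (f \ S).powerset.filter (·.Nonempty),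
              0 ≤ if J ⊆ g \ S then q ^ ((g \ S).card - J.card) else 0 := fun J _ => by
            split_ifs <;> positivity
          by_cases hg : x ∈ g \ S
          · refine le_trans (le_of_eq ?_) (single_le_sum n0 (a := (g \ S) ∩ (f \ S))
              (mem_filter.2 ⟨mem_powerset.2 inter_subset_right, x, mem_inter.2 ⟨hg, hx⟩⟩))
            rw [ind_pos hg, if_pos inter_subset_left, one_mul]
          · rw [ind_neg hg, zero_mul]; exact sum_nonneg n0
      _ ≤ ∑ J ∈ (f \ S).powerset with J.Nonempty, Λ := by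
          rw [sum_comm]
          refine sum_le_sum (fun J hJ => ?_)
          rw [← sum_filter]
          exact hΛ f hf J (mem_powerset.1 (mem_filter.1 hJ).1) (mem_filter.1 hJ).2
      _ ≤ 2 ^ R * Λ := by
          rw [sum_const, nsmul_eq_mul]
          refine mul_le_mul_of_nonneg_right ?_ Λ0
          have h1 := card_filter_le (f \ S).powerset (·.Nonempty)
          rw [card_powerset] at h1
          exact_mod_cast h1.trans (Nat.pow_le_pow_right (by norm_num) (hR f hf))
  calc _ ≤ bE q (fun W => ∑ x, G ^ 2 * z *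
          ∑ f ∈ A, ∑ g ∈ A, ((f ∩ I).card : ℝ) * (P W x f * P W x g)) := by
        refine bE_mono q0 q1 (fun W => (sum_le_sum (fun x _ => step W x)).trans
          (sum_le_sum_of_subset_of_nonneg (subset_univ _) (fun x _ _ => ?_)))
        exact mul_nonneg (by positivity) (sum_nonneg (fun f _ => sum_nonneg (fun g _ =>
          mul_nonneg (Nat.cast_nonneg _) (mul_nonneg (P0 _ _ _) (P0 _ _ _)))))
    _ = G ^ 2 * z * ∑ f ∈ A, ((f ∩ I).card : ℝ) *
          ∑ x, ∑ g ∈ A, bE q (fun W => P W x f * P W x g) := by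
        simp only [bE_mul, bE_sum]
        rw [← mul_sum, sum_comm]
        simp only [← mul_sum]
    _ ≤ G ^ 2 * z * ∑ f ∈ A, ((f ∩ I).card : ℝ) * (rho q S f * (R * (2 ^ R * Λ))) := by
        refine mul_le_mul_of_nonneg_left (sum_le_sum (fun f hf =>
          mul_le_mul_of_nonneg_left ?_ (Nat.cast_nonneg _))) (by positivity)
        refine (sum_le_sum (fun x _ => inner f hf x)).trans ?_
        rw [← mul_sum, ← sum_mul]
        refine mul_le_mul_of_nonneg_left (mul_le_mul_of_nonneg_right ?_ (by positivity))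
          (rho_nonneg q0 _ _)
        have : ∑ x, ind (x ∈ f \ S) = ((f \ S).card : ℝ) := by
          simp only [ind_eq_ite]
          rw [sum_ite_mem, univ_inter]; simp
        rw [this]
        exact_mod_cast hR f hf
    _ ≤ _ := by
        have h1 : ∑ f ∈ A, ((f ∩ I).card : ℝ) * rho q S f ≤ I.card * T := by
          rw [← sum_swap_inter, ← nsmul_eq_mul, ← sum_const]
          exact sum_le_sum hT
        simp only [← mul_assoc, ← sum_mul]
        have h2 := mul_le_mul_of_nonneg_left h1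
          (show 0 ≤ G ^ 2 * z * (R * 2 ^ R * Λ) by positivity)
        nlinarith

end Pool.Agent.Lib.MP_ff43e2_co.Gro
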