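import Pool.Agent.Lib.MP_ff43e2_co.Lower
import Pool.Agent.Lib.MP_ff43e2_co.GroCover
import Pool.Agent.Lib.MP_ff43e2_co.GroThr
import Pool.Agent.Lib.MP_ff43e2_co.GroVar
import Pool.Agent.Lib.MP_ff43e2_co.GroMean
import Pool.Agent.Lib.MP_ff43e2_co.GroTwo
import Pool.Agent.Lib.MP_ff43e2_co.GroScale
import Pool.Agent.Lib.MP_ff43e2_co.GroFin

set_option autoImplicit false
open Finset Filter

namespace Pool.Agent.Lib.MP_ff43e2_co.Gro

theorem fin_all : FinS := finS (scaleS coverS thrS varS) twoS meanS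

theorem one_sub_pow_ge {y : ℝ} {r : ℕ} (y1 : 1 < y) (hr : y ^ 2 ≤ r) :
    Real.exp (-(y + 1)) ≤ (1 - y / r) ^ (r - 1) := by
  have h1 : y < r := by nlinarith
  have r0 : (0 : ℝ) < r := by linarith
  have r1 : 1 ≤ r := by exact_mod_cast (show (1 : ℝ) ≤ r by linarith)
  have h2 : Real.exp (-(y / (r - y))) ≤ 1 - y / r := by
    have := Real.add_one_le_exp (y / (r - y))
    have h3 : 0 < r - y := by linarith
    rw [Real.exp_neg, inv_le_comm₀ (Real.exp_pos _) (by rw [sub_pos, div_lt_one r0]; exact h1)]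
    refine le_trans (le_of_eq ?_) this
    field_simp
    ring
  refine le_trans ?_ (pow_le_pow_left₀ (Real.exp_pos _).le h2 _)
  rw [← Real.exp_nat_mul, Real.exp_le_exp, Nat.cast_sub r1, mul_neg, neg_le_neg_iff, ← mul_div_assoc,
    div_le_iff₀ (by linarith)]
  push_cast
  nlinarith

theorem indep_le {n a r : ℕ} (r0 : 0 < r) (H : Finset (Finset (Fin n))) (hH : ∀ e ∈ H, e.card = r)
    (hX : ∀ X : Finset (Fin n), X.card = a + 1 → ∃ e ∈ H, e ⊆ X) (X : Finset (Fin n)) :
    (X.card : ℝ) - tau H X ≤ a := by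
  obtain ⟨C, c1, c2⟩ := tau_spec H X
  have h1 : (X \ C).card ≤ a := by
    by_contra hn
    obtain ⟨Y, y1, y2⟩ := exists_subset_card_eq (s := X \ C) (n := a + 1) (by omega)
    obtain ⟨e, e1, e2⟩ := hX Y y2
    obtain ⟨v, hv⟩ := c2 e e1 (e2.trans (y1.trans sdiff_subset)) (card_pos.1 (by rw [hH e e1]; exact r0))
    exact (mem_sdiff.1 (y1 (e2 (mem_inter.1 hv).1))).2 (mem_inter.1 hv).2
  have h2 := le_card_sdiff C X
  have h3 : X.card ≤ a + tau H X := by omega
  have h4 : (X.card : ℝ) ≤ a + tau H X := by exact_mod_cast h3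
  linarith

theorem tStar_grow (L : ℝ) : ∃ r₀ : ℕ, ∀ r : ℕ, r₀ ≤ r → ∀ a : ℕ, r ≤ a → L ≤ r * tStar a r := by
  obtain ⟨D, hD⟩ := exists_nat_ge ((max L 1 * Real.exp 10) ^ 2)
  have L1 : 1 ≤ max L 1 * Real.exp 10 :=
    one_le_mul_of_one_le_of_one_le (le_max_right _ _) (Real.one_le_exp (by norm_num))
  have D1 : (1 : ℝ) ≤ D := le_trans (one_le_pow₀ L1) hD
  obtain ⟨r₀, p₀, p0, hF⟩ := fin_all D (by exact_mod_cast D1)
  set y := Real.log D / 2 + 9 with hy
  have y1 : 1 < y := by linarith [Real.log_nonneg D1]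
  have hL : max L 1 * Real.exp (y + 1) ≤ D := by
    have e1 : Real.exp (Real.log D / 2) ^ 2 = D := by
      rw [← Real.exp_nat_mul]
      push_cast
      rw [mul_div_cancel₀ _ two_ne_zero, Real.exp_log (by linarith)]
    have e2 : max L 1 * Real.exp 10 ≤ Real.exp (Real.log D / 2) :=
      le_of_sq_le_sq (by rw [e1]; exact hD) (Real.exp_pos _).le
    rw [show y + 1 = 10 + Real.log D / 2 by rw [hy]; ring, Real.exp_add, ← mul_assoc]
    refine (mul_le_mul_of_nonneg_right e2 (Real.exp_pos _).le).trans (le_of_eq ?_)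
    rw [← sq, e1]
  obtain ⟨r₁, hr₁⟩ := exists_nat_ge (y ^ 2)
  refine ⟨max r₀ r₁, fun r hr a ha => ?_⟩
  have hr2 : y ^ 2 ≤ r := hr₁.trans (by exact_mod_cast (le_max_right _ _).trans hr)
  have yr : y < r := by nlinarith
  have rr : (0 : ℝ) < r := by linarith
  have r0 : 0 < r := by exact_mod_cast rr
  have a0 : (0 : ℝ) < a := by exact_mod_cast (by omega : 0 < a)
  have θ0 : 0 < 1 - y / r := by rw [sub_pos, div_lt_one rr]; exact yr
  by_contra hn
  have hlt : r * tStar a r ≤ max L 1 := (not_le.1 hn).le.trans (le_max_left _ _)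
  set K : ℝ := a / (1 - y / r) with hK
  have K0 : 0 < K := by positivity
  obtain ⟨n, hn'⟩ := exists_nat_ge (max (K / min p₀ 1) r)
  have nr : r ≤ n := by exact_mod_cast (le_max_right _ _).trans hn'
  have n0 : (0 : ℝ) < n := by exact_mod_cast (by omega : 0 < n)
  have hp : K / n ≤ min p₀ 1 := by
    have := (le_max_left _ _).trans hn'
    rw [div_le_iff₀ (lt_min p0 one_pos)] at this
    rw [div_le_iff₀ n0]; linarith
  obtain ⟨H, h1, h2, h3⟩ := T_spec n (k := a + 1) (r := r) (by omega)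
  have t0 : 0 ≤ t (a + 1) r := t_nonneg (by omega)
  have b2 := Low.ratio_le_t (k := a + 1) (r := r) (by omega) n
  have c0 : (0 : ℝ) < n.choose r := by exact_mod_cast Nat.choose_pos nr
  rw [← h3, div_le_iff₀ c0] at b2
  have b3 : (H.card : ℝ) ≤ t (a + 1) r * ((n : ℝ) ^ r / r.factorial) :=
    b2.trans (mul_le_mul_of_nonneg_left (Nat.choose_le_pow_div r n) t0)
  have pn : K / n * Fintype.card (Fin n) = K := by
    rw [Fintype.card_fin]; field_simp
  have f0 : (0 : ℝ) < r.factorial := by exact_mod_cast r.factorial_pos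
  have hm : H.card * (K / n) ^ r ≤ D * (K / n * Fintype.card (Fin n)) / r := by
    rw [pn]
    have e1 : K ^ r = K * ((a : ℝ) ^ (r - 1) / (1 - y / r) ^ (r - 1)) := by
      rw [← div_pow, ← hK, ← pow_succ', Nat.sub_add_cancel r0]
    have b4 : r * tStar a r / (1 - y / r) ^ (r - 1) ≤ D := by
      rw [div_le_iff₀ (by positivity)]
      have b5 := mul_le_mul hL (one_sub_pow_ge y1 hr2) (Real.exp_pos _).le (by linarith)
      rw [mul_assoc, ← Real.exp_add, add_neg_cancel, Real.exp_zero, mul_one] at b5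
      exact hlt.trans b5
    calc _ ≤ t (a + 1) r * ((n : ℝ) ^ r / r.factorial) * (K / n) ^ r :=
          mul_le_mul_of_nonneg_right b3 (by positivity)
      _ = t (a + 1) r / r.factorial * K ^ r := by rw [div_pow]; field_simp
      _ = r * tStar a r / (1 - y / r) ^ (r - 1) * K / r := by
          rw [e1, tStar]; field_simp
      _ ≤ _ := by gcongr
  have main := hF (Fin n) H r (K / n) h1 ((le_max_left _ _).trans hr) (by positivity)
    (hp.trans (min_le_left _ _)) hm
  have b6 := bE_le_const (q := K / n) (by positivity) (hp.trans (min_le_right _ _))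
    (indep_le r0 H h1 h2)
  rw [bE_sub, bE_card] at b6
  rw [pn] at main b6
  have e2 : K / r * (Real.log D / 2 + 8) = K - a - K / r := by
    have : (a : ℝ) = K * (1 - y / r) := by rw [hK, div_mul_cancel₀ _ θ0.ne']
    rw [this, hy]; ring
  have : 0 < K / r := by positivity
  linarith

theorem tInf_grow : Tendsto (fun r : ℕ => (r : ℝ) * tInf r) atTop atTop := by
  refine tendsto_atTop.2 (fun L => ?_)
  obtain ⟨r₀, h⟩ := tStar_grow L
  filter_upwards [eventually_ge_atTop (max r₀ 1)] with r hr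
  have rr : (0 : ℝ) < r := by exact_mod_cast (le_max_right _ _).trans hr
  have : Nonempty {a : ℕ // r ≤ a} := ⟨⟨r, le_rfl⟩⟩
  rw [← div_le_iff₀' rr]
  exact le_ciInf (fun a => (div_le_iff₀' rr).2 (h r ((le_max_left _ _).trans hr) a.1 a.2))

end Pool.Agent.Lib.MP_ff43e2_co.Gro
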