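import Mathlib
import Pool.Agent.Lib.MP_ff43e2_co.Comb

-- part Pool.Agent.Lib.MP_ff43e2_co.Jump
section

set_option autoImplicit false

namespace Pool.Agent.Lib.MP_ff43e2_co.Low

/-- the one-vertex potential -/
noncomputable def phi (s a b : ℝ) : ℝ :=
  54 / 25 * s - s ^ 2 * a - s ^ 3 * (36 / 25 * b + 19 / 100 * a ^ 2)

/-- minus the derivative of `phi` in `a` -/
noncomputable def al (s a : ℝ) : ℝ := s ^ 2 + 19 / 50 * s ^ 3 * a

/-- minus the derivative of `phi` in `b` -/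
noncomputable def be (s : ℝ) : ℝ := 36 / 25 * s ^ 3

theorem y_le {y B : ℝ} (hy : 0 ≤ y) (hB : 0 ≤ B)
    (hK : 54 / 25 = 2 * y + 3 * (B + 19 / 100 * y ^ 2)) : y ≤ 13 / 15 := by
  nlinarith

theorem concave_quad {p q k Y Y1 Y2 : ℝ} (hk : 0 ≤ k) (h1 : 0 ≤ p + q * Y1 - k * Y1 ^ 2)
    (h2 : 0 ≤ p + q * Y2 - k * Y2 ^ 2) (a1 : Y1 ≤ Y) (a2 : Y ≤ Y2) :
    0 ≤ p + q * Y - k * Y ^ 2 := by
  have h3 : 0 ≤ k * ((Y - Y1) * (Y2 - Y)) := by
    apply mul_nonneg hk (mul_nonneg _ _) <;> linarith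
  rcases le_total 0 (q - k * (Y1 + Y2)) with h | h
  · nlinarith [mul_nonneg h (sub_nonneg.2 a1)]
  · nlinarith [mul_nonneg (neg_nonneg.2 h) (sub_nonneg.2 a2)]

theorem regime_one {y B A : ℝ} (hy : 0 ≤ y) (hB : 0 ≤ B)
    (hK : 54 / 25 = 2 * y + 3 * (B + 19 / 100 * y ^ 2)) (h1 : 0 ≤ y + A) (h2 : A ≤ 1 / 6) :
    (54 / 25 - y - B - 19 / 100 * y ^ 2) - (1 + 19 / 50 * y) * A
      ≤ 54 / 25 * (1 - A / 2) - (1 - A / 2) ^ 2 * (y + A)
        - (1 - A / 2) ^ 3 * (B + 19 / 100 * (y + A) ^ 2) := by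
  have hy2 := y_le hy hB hK
  have hBe : B = (54 / 25 - 2 * y) / 3 - 19 / 100 * y ^ 2 := by linarith
  obtain ⟨σ, hσ⟩ : ∃ σ, σ = 1 - A / 2 := ⟨_, rfl⟩
  have hA : A = 2 * (1 - σ) := by linarith
  have s1 : 11 / 12 ≤ σ := by linarith
  have s2 : σ ≤ 1 + y / 2 := by linarith
  have hQ : 0 ≤ -(54 / 25 - y) / 4 + (54 / 25 - 2 * y) / 3 * A / 8 + (σ + 1) / 2
      + 19 / 100 * y * (σ ^ 2 + σ + 1) - 19 / 100 * σ ^ 3 := by
    have b1 : σ ^ 3 ≤ σ ^ 2 * (1 + y / 2) := by nlinarith [sq_nonneg σ]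
    have b2 : σ ^ 2 * (1 - y / 2) ≤ (1 + y / 2) ^ 2 * (1 - y / 2) := by
      apply mul_le_mul_of_nonneg_right _ (by linarith)
      nlinarith
    have b3 : (1 + y / 2) ^ 2 * (1 - y / 2) ≤ 6 / 5 := by
      nlinarith [mul_nonneg hy (sq_nonneg (y - 2 / 3)), sq_nonneg (y - 2 / 3)]
    have b4 : -(y / 10) ≤ (54 / 25 - 2 * y) / 3 * A / 8 := by
      nlinarith [mul_nonneg h1 (show 0 ≤ 54 / 25 - 2 * y by linarith)]
    have b5 : 0 ≤ y * (σ + 1) := by positivity
    nlinarith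
  have key := mul_nonneg (sq_nonneg A) hQ
  rw [← hσ]
  subst hBe
  rw [hA] at key ⊢
  nlinarith [key]

theorem jump_norm {ρ τ y B Y F c : ℝ} (hρ : (ρ = 11 / 12 ∧ τ = 0) ∨ (ρ = 1 ∧ τ = 7 / 40))
    (hy : 0 ≤ y) (hB : 0 ≤ B) (hK : 54 / 25 = 2 * y + 3 * (B + 19 / 100 * y ^ 2))
    (hY : 0 ≤ Y) (hF : 0 ≤ F) (hFB : F ≤ B) (hc : 0 ≤ c) (hAc : Y - y ≤ c) :
    ∃ σ : ℝ, 0 ≤ σ ∧ (54 / 25 - y - B - 19 / 100 * y ^ 2) - (1 + 19 / 50 * y) * (Y - y)
        - τ * (1 + 19 / 50 * y) * c + ρ ^ 3 * F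
      ≤ 54 / 25 * σ - σ ^ 2 * Y - σ ^ 3 * (B - F + 19 / 100 * Y ^ 2) := by
  have hy2 := y_le hy hB hK
  have hBe : B = (54 / 25 - 2 * y) / 3 - 19 / 100 * y ^ 2 := by linarith
  have hτ : 0 ≤ τ := by rcases hρ with ⟨-, h⟩ | ⟨-, h⟩ <;> norm_num [h]
  have hρ1 : 11 / 12 ≤ ρ := by rcases hρ with ⟨h, -⟩ | ⟨h, -⟩ <;> norm_num [h]
  have hal : 0 ≤ 1 + 19 / 50 * y := by positivity
  -- third regime
  have third : 13 / 15 ≤ ρ * Y → ∀ L : ℝ, L * Y ≤ 54 / 25 * (13 / 15) - (13 / 15) ^ 2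
      - 19 / 100 * (13 / 15) ^ 3 → ∃ σ : ℝ, 0 ≤ σ ∧ L - ρ ^ 3 * (B - F)
      ≤ 54 / 25 * σ - σ ^ 2 * Y - σ ^ 3 * (B - F + 19 / 100 * Y ^ 2) := by
    intro h L hL
    have hY0 : 0 < Y := by
      by_contra hn
      have : Y = 0 := le_antisymm (not_lt.1 hn) hY
      rw [this] at h; norm_num at h
    refine ⟨13 / 15 / Y, by positivity, ?_⟩
    have a1 : 13 / 15 / Y ≤ ρ := by rw [div_le_iff₀ hY0]; linarith
    have a2 : (13 / 15 / Y) ^ 3 * (B - F) ≤ ρ ^ 3 * (B - F) := by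
      apply mul_le_mul_of_nonneg_right _ (by linarith)
      exact pow_le_pow_left₀ (by positivity) a1 3
    have a3 : 54 / 25 * (13 / 15 / Y) - (13 / 15 / Y) ^ 2 * Y
        - (13 / 15 / Y) ^ 3 * (19 / 100 * Y ^ 2)
        = (54 / 25 * (13 / 15) - (13 / 15) ^ 2 - 19 / 100 * (13 / 15) ^ 3) / Y := by
      field_simp
    have a4 : L ≤ (54 / 25 * (13 / 15) - (13 / 15) ^ 2 - 19 / 100 * (13 / 15) ^ 3) / Y := by
      rw [le_div_iff₀ hY0]; exact hL
    nlinarith
  rcases le_or_gt (Y - y) (2 * (1 - ρ)) with h | h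
  · refine ⟨1 - (Y - y) / 2, by linarith, ?_⟩
    have a1 := regime_one (A := Y - y) hy hB hK (by linarith) (by linarith)
    have a2 : ρ ^ 3 * F ≤ (1 - (Y - y) / 2) ^ 3 * F := by
      apply mul_le_mul_of_nonneg_right _ hF
      exact pow_le_pow_left₀ (by linarith) (by linarith) 3
    have a3 : 0 ≤ τ * (1 + 19 / 50 * y) * c := by positivity
    have e : y + (Y - y) = Y := by ring
    rw [e] at a1
    nlinarith
  · rcases hρ with ⟨rfl, rfl⟩ | ⟨rfl, rfl⟩
    · rcases le_or_gt Y (52 / 55) with h2 | h2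
      · refine ⟨11 / 12, by norm_num, ?_⟩
        have := concave_quad (p := 54 / 25 * (11 / 12) - (11 / 12) ^ 3 * B
            - (54 / 25 - y - B - 19 / 100 * y ^ 2) - (1 + 19 / 50 * y) * y)
          (q := (1 + 19 / 50 * y) - (11 / 12) ^ 2) (k := (11 / 12) ^ 3 * (19 / 100))
          (Y := Y) (Y1 := y + 1 / 6) (Y2 := 52 / 55) (by norm_num)
          (by subst hBe; nlinarith)
          (by subst hBe; nlinarith [mul_nonneg hy (sub_nonneg.2 hy2)]) (by linarith) h2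
        nlinarith
      · obtain ⟨σ, s0, s1⟩ := third (by linarith) ((54 / 25 * (13 / 15) - (13 / 15) ^ 2
          - 19 / 100 * (13 / 15) ^ 3) * (2 - Y)) (by nlinarith [sq_nonneg (Y - 1)])
        refine ⟨σ, s0, le_trans ?_ s1⟩
        subst hBe
        nlinarith [mul_nonneg hy (sub_nonneg.2 hy2), mul_nonneg hy (sub_nonneg.2 h2.le)]
    · have a0 : (1 + 19 / 50 * y) * (Y - y) ≤ (1 + 19 / 50 * y) * c :=
        mul_le_mul_of_nonneg_left hAc hal
      rcases le_or_gt (Y - y) (23 / 25) with h2 | h2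
      · refine ⟨1, by norm_num, ?_⟩
        have h0 : 0 ≤ Y - y := by linarith
        nlinarith [mul_nonneg h0 (sub_nonneg.2 h2), mul_nonneg hy h0]
      · obtain ⟨σ, s0, s1⟩ := third (by linarith) ((54 / 25 * (13 / 15) - (13 / 15) ^ 2
          - 19 / 100 * (13 / 15) ^ 3) * (2 * (40 / 37) - (40 / 37) ^ 2 * Y))
          (by nlinarith [sq_nonneg (40 / 37 * Y - 1)])
        refine ⟨σ, s0, le_trans ?_ s1⟩
        subst hBe
        nlinarith [mul_nonneg hy (sub_nonneg.2 h2.le), sq_nonneg y]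

/-- jump lemma, scaled form -/
theorem jump {ρ τ s a b c e f b' : ℝ} (hρ : (ρ = 11 / 12 ∧ τ = 0) ∨ (ρ = 1 ∧ τ = 7 / 40))
    (hs : 0 < s) (ha : 0 ≤ a) (hb : 0 ≤ b)
    (hK : 54 / 25 = 2 * s * a + 3 * s ^ 2 * (36 / 25 * b + 19 / 100 * a ^ 2))
    (ha' : 0 ≤ a + c - e) (hf : 0 ≤ f) (hfb : f ≤ b) (hc : 0 ≤ c) (he : 0 ≤ e)
    (hb' : b' ≤ b - f) :
    ∃ s' : ℝ, 0 ≤ s' ∧ phi s a b - (1 + τ) * al s a * c + al s a * e + ρ ^ 3 * be s * f
      ≤ phi s' (a + c - e) b' := by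
  obtain ⟨σ, s0, s1⟩ := jump_norm (y := s * a) (B := 36 / 25 * s ^ 2 * b) (Y := s * (a + c - e))
    (F := 36 / 25 * s ^ 2 * f) (c := s * c) hρ (by positivity) (by positivity)
    (by rw [hK]; ring) (by positivity) (by positivity) (by gcongr) (by positivity)
    (by nlinarith)
  refine ⟨σ * s, by positivity, ?_⟩
  have h1 := mul_le_mul_of_nonneg_left s1 hs.le
  have h2 : (σ * s) ^ 3 * b' ≤ (σ * s) ^ 3 * (b - f) :=
    mul_le_mul_of_nonneg_left hb' (by positivity)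
  unfold phi al be
  nlinarith

theorem final_ineq {y B : ℝ} (hy : 0 ≤ y) (hB : 0 ≤ B)
    (hK : 54 / 25 = 2 * y + 3 * (B + 19 / 100 * y ^ 2)) :
    ∃ ρ τ : ℝ, ((ρ = 11 / 12 ∧ τ = 0) ∨ (ρ = 1 ∧ τ = 7 / 40)) ∧
      (1 + 19 / 50 * y) * (y ^ 2 + (1 + τ) * (25 / 18 * B))
        + (1 - ρ ^ 3) * (y * (36 / 25 * (1 + 19 / 100 * y))) ≤ 1 := by
  have hy2 := y_le hy hB hK
  have hBe : B = (54 / 25 - 2 * y) / 3 - 19 / 100 * y ^ 2 := by linarith
  rcases le_total y (9 / 25) with h | h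
  · refine ⟨11 / 12, 0, Or.inl ⟨rfl, rfl⟩, ?_⟩
    subst hBe
    nlinarith [mul_nonneg hy (sub_nonneg.2 h), mul_nonneg hy (mul_nonneg hy (sub_nonneg.2 h))]
  · refine ⟨1, 7 / 40, Or.inr ⟨rfl, rfl⟩, ?_⟩
    subst hBe
    nlinarith [mul_nonneg (sub_nonneg.2 h) (sub_nonneg.2 hy2),
      mul_nonneg hy (mul_nonneg (sub_nonneg.2 h) (sub_nonneg.2 hy2))]

end Pool.Agent.Lib.MP_ff43e2_co.Low
end

-- part Pool.Agent.Lib.MP_ff43e2_co.Pot
section

set_option autoImplicit false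
open Finset Filter Topology

namespace Pool.Agent.Lib.MP_ff43e2_co.Low

theorem deriv_nonpos {f : ℝ → ℝ} {D : ℝ} (hf : HasDerivAt f D 0)
    (h : ∀ t, 0 ≤ t → t ≤ 1 → f t ≤ f 0) : D ≤ 0 := by
  have h1 := hf.tendsto_slope_zero_right
  refine le_of_tendsto h1 ?_
  filter_upwards [Ioo_mem_nhdsGT (zero_lt_one' ℝ)] with t ht
  have := h t ht.1.le ht.2.le
  rw [zero_add, smul_eq_mul]
  exact mul_nonpos_of_nonneg_of_nonpos (inv_nonneg.2 ht.1.le) (by linarith)

theorem hasDerivAt_cubic (c0 c1 c2 c3 : ℝ) :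
    HasDerivAt (fun t : ℝ => c0 + t * c1 + t ^ 2 * c2 + t ^ 3 * c3) c1 0 := by
  have h1 := (((hasDerivAt_id' (0:ℝ)).mul_const c1).const_add c0)
  have h2 := (hasDerivAt_pow 2 (0:ℝ)).mul_const c2
  have h3 := (hasDerivAt_pow 3 (0:ℝ)).mul_const c3
  exact ((h1.fun_add h2).fun_add h3).congr_deriv (by simp)

theorem hasDerivAt_phi (s : ℝ) {a b : ℝ → ℝ} {a' b' : ℝ} (ha : HasDerivAt a a' 0)
    (hb : HasDerivAt b b' 0) :
    HasDerivAt (fun t => phi s (a t) (b t)) (-(al s (a 0) * a') - be s * b') 0 := by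
  unfold phi al be
  have h1 := ((ha.const_mul (s ^ 2)).const_sub (54 / 25 * s)).fun_sub
    (((hb.const_mul (36 / 25)).fun_add ((ha.fun_pow 2).const_mul (19 / 100))).const_mul (s ^ 3))
  exact h1.congr_deriv (by simp; ring)

/-- first order condition in `s` -/
theorem kkt_s {s a b : ℝ} (hs : 0 ≤ s) (h : ∀ σ, 0 ≤ σ → phi σ a b ≤ phi s a b) :
    0 < s ∧ 54 / 25 = 2 * s * a + 3 * s ^ 2 * (36 / 25 * b + 19 / 100 * a ^ 2) := by
  set C := 36 / 25 * b + 19 / 100 * a ^ 2 with hC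
  have h1 : 54 / 25 - 2 * s * a - 3 * s ^ 2 * C ≤ 0 := by
    refine deriv_nonpos (hasDerivAt_cubic (phi s a b) _ (-a - 3 * s * C) (-C)) (fun t t0 _ => ?_)
    have := h (s + t) (by positivity)
    unfold phi at this ⊢
    rw [← hC] at this ⊢
    nlinarith
  have h2 : -(s * (54 / 25 - 2 * s * a - 3 * s ^ 2 * C)) ≤ 0 := by
    refine deriv_nonpos (hasDerivAt_cubic (phi s a b) _ (s ^ 2 * (-a - 3 * s * C)) (s ^ 3 * C))
      (fun t _ t1 => ?_)
    have := h (s * (1 - t)) (mul_nonneg hs (by linarith))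
    unfold phi at this ⊢
    rw [← hC] at this ⊢
    nlinarith
  have h3 : 0 < s := by
    rcases hs.lt_or_eq with h3 | h3
    · exact h3
    · rw [← h3] at h1; norm_num at h1
  refine ⟨h3, ?_⟩
  have h4 : 0 ≤ 54 / 25 - 2 * s * a - 3 * s ^ 2 * C := by
    by_contra hn
    nlinarith [mul_pos h3 (neg_pos.2 (not_le.1 hn))]
  linarith

variable {V : Type} [Fintype V]

/-- regularised weighted degree in the fractional graph -/
noncomputable def aa (η : ℝ) (w : V → ℝ) (G : V → V → ℝ) (v : V) : ℝ :=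
  ∑ u, w u * (1 + η - G v u)

/-- surviving weight of a triple -/
noncomputable def HH (h : V → V → V → ℝ) (G : V → V → ℝ) (v u z : V) : ℝ :=
  h v u z * (G v u * G v z * G u z)

/-- weighted triple degree -/
noncomputable def bb (h : V → V → V → ℝ) (w : V → ℝ) (G : V → V → ℝ) (v : V) : ℝ :=
  1 / 2 * ∑ u, ∑ z, w u * w z * HH h G v u z

/-- the potential -/
noncomputable def Phi (η : ℝ) (h : V → V → V → ℝ) (w s : V → ℝ) (G : V → V → ℝ) : ℝ :=
  ∑ v, w v * phi (s v) (aa η w G v) (bb h w G v)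

noncomputable def ee (η : ℝ) (w p : V → ℝ) (G : V → V → ℝ) (v : V) : ℝ :=
  ∑ u, w u * p u * (1 + η - G v u)

noncomputable def f1 (h : V → V → V → ℝ) (w p : V → ℝ) (G : V → V → ℝ) (v : V) : ℝ :=
  1 / 2 * ∑ u, ∑ z, w u * w z * (p u + p z) * HH h G v u z

noncomputable def f2 (h : V → V → V → ℝ) (w p : V → ℝ) (G : V → V → ℝ) (v : V) : ℝ :=
  1 / 2 * ∑ u, ∑ z, w u * w z * (p u * p z) * HH h G v u z

theorem aa_w (η t : ℝ) (w p : V → ℝ) (G : V → V → ℝ) (v : V) :
    aa η (fun u => w u * (1 + t * p u)) G v = aa η w G v + t * ee η w p G v := by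
  simp only [aa, ee, mul_sum, ← sum_add_distrib]
  exact sum_congr rfl (fun u _ => by ring)

theorem bb_w (h : V → V → V → ℝ) (t : ℝ) (w p : V → ℝ) (G : V → V → ℝ) (v : V) :
    bb h (fun u => w u * (1 + t * p u)) G v
      = bb h w G v + t * f1 h w p G v + t ^ 2 * f2 h w p G v := by
  simp only [bb, f1, f2, mul_sum, ← sum_add_distrib]
  exact sum_congr rfl (fun u _ => sum_congr rfl (fun z _ => by ring))

theorem aa_G (η t : ℝ) (w p : V → ℝ) (G : V → V → ℝ) (v : V) :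
    aa η w (fun u z => G u z * (1 - t * (p u * p z))) v
      = aa η w G v + t * (p v * ∑ u, w u * p u * G v u) := by
  simp only [aa, mul_sum, ← sum_add_distrib]
  exact sum_congr rfl (fun u _ => by ring)

theorem bb_G (h : V → V → V → ℝ) (w p : V → ℝ) (G : V → V → ℝ) (v : V) : ∃ k2 k3 : ℝ, ∀ t : ℝ,
    bb h w (fun u z => G u z * (1 - t * (p u * p z))) v
      = bb h w G v + t * (-(p v * f1 h w p G v + f2 h w p G v)) + t ^ 2 * k2 + t ^ 3 * k3 := by
  refine ⟨1 / 2 * ∑ u, ∑ z, w u * w z * (p v * p u * p z * (p v + p u + p z)) * HH h G v u z,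
    1 / 2 * ∑ u, ∑ z, w u * w z * (-(p v * p u * p z) ^ 2) * HH h G v u z, fun t => ?_⟩
  simp only [bb, f1, f2, HH, mul_sum, ← sum_add_distrib, ← sum_neg_distrib]
  exact sum_congr rfl (fun u _ => sum_congr rfl (fun z _ => by ring))

/-- first order condition in `w` -/
theorem kkt_w {η : ℝ} {h : V → V → V → ℝ} {w s p : V → ℝ} {G : V → V → ℝ}
    (hmax : ∀ t : ℝ, -1 ≤ t → t ≤ 1 → Phi η h (fun u => w u * (1 + t * p u)) s G ≤ Phi η h w s G) :
    ∑ v, w v * p v * phi (s v) (aa η w G v) (bb h w G v)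
      = ∑ v, w v * (al (s v) (aa η w G v) * ee η w p G v) + ∑ v, w v * (be (s v) * f1 h w p G v) := by
  have hd : HasDerivAt (fun t : ℝ => Phi η h (fun u => w u * (1 + t * p u)) s G)
      (∑ v, (w v * p v * phi (s v) (aa η w G v) (bb h w G v)
        - w v * (al (s v) (aa η w G v) * ee η w p G v) - w v * (be (s v) * f1 h w p G v))) 0 := by
    unfold Phi
    refine HasDerivAt.fun_sum (fun v _ => ?_)
    simp only [aa_w, bb_w]
    have a1 : HasDerivAt (fun t : ℝ => aa η w G v + t * ee η w p G v) (ee η w p G v) 0 := by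
      simpa using hasDerivAt_cubic (aa η w G v) (ee η w p G v) 0 0
    have a2 : HasDerivAt (fun t : ℝ => bb h w G v + t * f1 h w p G v + t ^ 2 * f2 h w p G v)
        (f1 h w p G v) 0 := by
      simpa using hasDerivAt_cubic (bb h w G v) (f1 h w p G v) (f2 h w p G v) 0
    have a3 : HasDerivAt (fun t : ℝ => w v * (1 + t * p v)) (w v * p v) 0 := by
      have := hasDerivAt_cubic (w v) (w v * p v) 0 0
      convert this using 2
      ring
    exact (a3.fun_mul (hasDerivAt_phi (s v) a1 a2)).congr_deriv (by simp; ring)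
  have h0 := IsLocalMax.hasDerivAt_eq_zero (by
    filter_upwards [Ioo_mem_nhds (show (-1:ℝ) < 0 by norm_num) (zero_lt_one' ℝ)] with t ht
    simpa using hmax t ht.1.le ht.2.le) hd
  simp only [sum_sub_distrib] at h0
  linarith

/-- first order condition in `G` -/
theorem kkt_G {η : ℝ} {h : V → V → V → ℝ} {w s p : V → ℝ} {G : V → V → ℝ}
    (hmax : ∀ t : ℝ, 0 ≤ t → t ≤ 1 →
      Phi η h w s (fun u z => G u z * (1 - t * (p u * p z))) ≤ Phi η h w s G) :
    ∑ v, w v * (be (s v) * (p v * f1 h w p G v + f2 h w p G v))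
      ≤ ∑ v, w v * (al (s v) (aa η w G v) * (p v * ∑ u, w u * p u * G v u)) := by
  have hd : HasDerivAt (fun t : ℝ => Phi η h w s (fun u z => G u z * (1 - t * (p u * p z))))
      (∑ v, (w v * (be (s v) * (p v * f1 h w p G v + f2 h w p G v))
        - w v * (al (s v) (aa η w G v) * (p v * ∑ u, w u * p u * G v u)))) 0 := by
    unfold Phi
    refine HasDerivAt.fun_sum (fun v _ => ?_)
    obtain ⟨k2, k3, hk⟩ := bb_G h w p G v
    simp only [aa_G, hk]
    have a1 : HasDerivAt (fun t : ℝ => aa η w G v + t * (p v * ∑ u, w u * p u * G v u))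
        (p v * ∑ u, w u * p u * G v u) 0 := by
      simpa using hasDerivAt_cubic (aa η w G v) (p v * ∑ u, w u * p u * G v u) 0 0
    have a2 := hasDerivAt_cubic (bb h w G v) (-(p v * f1 h w p G v + f2 h w p G v)) k2 k3
    exact ((hasDerivAt_phi (s v) a1 a2).const_mul (w v)).congr_deriv (by simp; ring)
  have h0 := deriv_nonpos hd (fun t t0 t1 => by simpa using hmax t t0 t1)
  simp only [sum_sub_distrib] at h0
  linarith

end Pool.Agent.Lib.MP_ff43e2_co.Low
end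

-- part Pool.Agent.Lib.MP_ff43e2_co.Step
section

set_option autoImplicit false
open Finset Filter Topology

namespace Pool.Agent.Lib.MP_ff43e2_co.Low

variable {V : Type} [Fintype V] [DecidableEq V]

theorem Phi_update (η : ℝ) (h : V → V → V → ℝ) (w s : V → ℝ) (G : V → V → ℝ) (v : V) (σ : ℝ) :
    Phi η h w (Function.update s v σ) G = Phi η h w s G
      + w v * (phi σ (aa η w G v) (bb h w G v) - phi (s v) (aa η w G v) (bb h w G v)) := by
  unfold Phi
  rw [← add_sum_erase _ _ (mem_univ v), ← add_sum_erase _ _ (mem_univ v)]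
  have : ∑ u ∈ univ.erase v, w u * phi (Function.update s v σ u) (aa η w G u) (bb h w G u)
      = ∑ u ∈ univ.erase v, w u * phi (s u) (aa η w G u) (bb h w G u) :=
    sum_congr rfl (fun u hu => by rw [Function.update_of_ne (ne_of_mem_erase hu)])
  rw [this, Function.update_self]
  ring

omit [Fintype V] [DecidableEq V] in
theorem HH_nonneg {h : V → V → V → ℝ} {G : V → V → ℝ} (h0 : ∀ u v z, 0 ≤ h u v z)
    (hG0 : ∀ u v, 0 ≤ G u v) (v u z : V) : 0 ≤ HH h G v u z :=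
  mul_nonneg (h0 _ _ _) (mul_nonneg (mul_nonneg (hG0 _ _) (hG0 _ _)) (hG0 _ _))

omit [DecidableEq V] in
theorem aa_nonneg {η : ℝ} {w : V → ℝ} {G : V → V → ℝ} (hη : 0 ≤ η) (hw : ∀ v, 0 ≤ w v)
    (hG1 : ∀ u v, G u v ≤ 1) (v : V) : 0 ≤ aa η w G v :=
  sum_nonneg (fun u _ => mul_nonneg (hw u) (by linarith [hG1 v u]))

omit [DecidableEq V] in
theorem bb_nonneg {h : V → V → V → ℝ} {w : V → ℝ} {G : V → V → ℝ} (h0 : ∀ u v z, 0 ≤ h u v z)
    (hw : ∀ v, 0 ≤ w v) (hG0 : ∀ u v, 0 ≤ G u v) (v : V) : 0 ≤ bb h w G v :=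
  mul_nonneg (by norm_num) (sum_nonneg (fun u _ => sum_nonneg (fun z _ =>
    mul_nonneg (mul_nonneg (hw u) (hw z)) (HH_nonneg h0 hG0 v u z))))

omit [DecidableEq V] in
theorem bb_mono {h : V → V → V → ℝ} {w : V → ℝ} {G G' : V → V → ℝ} (h0 : ∀ u v z, 0 ≤ h u v z)
    (hw : ∀ v, 0 ≤ w v) (hG0 : ∀ u v, 0 ≤ G' u v) (hG : ∀ u v, G' u v ≤ G u v) (v : V) :
    bb h w G' v ≤ bb h w G v := by
  unfold bb HH
  have := fun u v => (hG0 u v).trans (hG u v)
  gcongr with u _ z _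
  · exact mul_nonneg (hw u) (hw z)
  · exact h0 _ _ _
  · exact hG0 _ _
  · exact mul_nonneg (this _ _) (this _ _)
  · exact hG0 _ _
  · exact this _ _
  all_goals exact hG _ _

theorem step {η : ℝ} (hη : 0 ≤ η) {h : V → V → V → ℝ} (h0 : ∀ u v z, 0 ≤ h u v z)
    (h1 : ∀ u v z, h u v z ≤ 1) {w s : V → ℝ} {G : V → V → ℝ} (hw : ∀ v, 0 ≤ w v)
    (hs : ∀ v, 0 ≤ s v) (hG0 : ∀ u v, 0 ≤ G u v) (hG1 : ∀ u v, G u v ≤ 1) (x : V) (hx : 0 < w x)
    (hxm : ∀ v, 0 < w v → al (s v) (aa η w G v) ≤ al (s x) (aa η w G x))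
    (ms : ∀ v σ, 0 ≤ σ → Phi η h w (Function.update s v σ) G ≤ Phi η h w s G)
    (mw : ∀ t : ℝ, -1 ≤ t → t ≤ 1 →
      Phi η h (fun u => w u * (1 + t * (1 - G x u))) s G ≤ Phi η h w s G)
    (mG : ∀ t : ℝ, 0 ≤ t → t ≤ 1 →
      Phi η h w s (fun u z => G u z * (1 - t * ((1 - G x u) * (1 - G x z)))) ≤ Phi η h w s G) :
    ∃ s' : V → ℝ, (∀ v, 0 ≤ s' v) ∧ Phi η h w s G
      ≤ Phi η h (fun u => w u * G x u) s' (fun u z => G u z * (1 - h x u z)) + 1 := by
  set p : V → ℝ := fun u => 1 - G x u with hp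
  have p0 : ∀ u, 0 ≤ p u := fun u => sub_nonneg.2 (hG1 x u)
  have p1 : ∀ u, p u ≤ 1 := fun u => by simp only [hp]; linarith [hG0 x u]
  have hq : ∀ u, G x u = 1 - p u := fun u => by simp only [hp]; ring
  have a0 := aa_nonneg hη hw hG1
  have b0 := bb_nonneg h0 hw hG0
  have H0 := HH_nonneg h0 hG0
  have Ks : ∀ v, 0 < w v → 0 < s v ∧ 54 / 25 = 2 * s v * aa η w G v
      + 3 * s v ^ 2 * (36 / 25 * bb h w G v + 19 / 100 * aa η w G v ^ 2) := by
    intro v hv
    refine kkt_s (hs v) (fun σ hσ => ?_)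
    have := ms v σ hσ
    rw [Phi_update] at this
    by_contra hn
    nlinarith [mul_pos hv (sub_pos.2 (not_le.1 hn))]
  have Kw := kkt_w (p := p) mw
  have KG := kkt_G (p := p) mG
  obtain ⟨sx, Kx⟩ := Ks x hx
  obtain ⟨ρ, τ, hρ, fin⟩ := final_ineq (y := s x * aa η w G x)
    (B := 36 / 25 * s x ^ 2 * bb h w G x) (mul_nonneg sx.le (a0 x))
    (mul_nonneg (by positivity) (b0 x)) (by rw [Kx]; ring)
  have hτ : 0 ≤ τ := by rcases hρ with ⟨-, h⟩ | ⟨-, h⟩ <;> norm_num [h]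
  have hρ1 : ρ ^ 3 ≤ 1 := by rcases hρ with ⟨h, -⟩ | ⟨h, -⟩ <;> norm_num [h]
  set c : V → ℝ := fun v => ∑ u, w u * G x u * (G v u * h x v u) with hc
  have c0 : ∀ v, 0 ≤ c v := fun v => sum_nonneg (fun u _ =>
    mul_nonneg (mul_nonneg (hw u) (hG0 _ _)) (mul_nonneg (hG0 _ _) (h0 _ _ _)))
  have e0 : ∀ v, 0 ≤ ee η w p G v := fun v => sum_nonneg (fun u _ =>
    mul_nonneg (mul_nonneg (hw u) (p0 u)) (by linarith [hG1 v u]))
  have f20 : ∀ v, 0 ≤ f2 h w p G v := fun v => mul_nonneg (by norm_num) (sum_nonneg (fun u _ =>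
    sum_nonneg (fun z _ => mul_nonneg (mul_nonneg (mul_nonneg (hw u) (hw z))
      (mul_nonneg (p0 u) (p0 z))) (H0 v u z))))
  have f12 : ∀ v, f2 h w p G v ≤ f1 h w p G v := fun v => by
    unfold f1 f2
    gcongr with u _ z _
    · exact H0 v u z
    · exact mul_nonneg (hw u) (hw z)
    · nlinarith [p0 u, p0 z, p1 u, p1 z]
  have al0 : ∀ v, 0 ≤ al (s v) (aa η w G v) := fun v => by
    have := a0 v; have := hs v; unfold al; positivity
  have be0 : ∀ v, 0 ≤ be (s v) := fun v => by have := hs v; unfold be; positivity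
  have w'0 : ∀ u, 0 ≤ w u * G x u := fun u => mul_nonneg (hw u) (hG0 x u)
  have G'0 : ∀ u z, 0 ≤ G u z * (1 - h x u z) := fun u z =>
    mul_nonneg (hG0 u z) (sub_nonneg.2 (h1 x u z))
  have G'1 : ∀ u z, G u z * (1 - h x u z) ≤ G u z := fun u z => by
    nlinarith [mul_nonneg (hG0 u z) (h0 x u z)]
  have ea : ∀ v, aa η (fun u => w u * G x u) (fun u z => G u z * (1 - h x u z)) v
      = aa η w G v + c v - ee η w p G v := fun v => by
    simp only [aa, ee, hc, hp, ← sum_add_distrib, ← sum_sub_distrib]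
    exact sum_congr rfl (fun u _ => by ring)
  have eb : ∀ v, bb h (fun u => w u * G x u) G v
      = bb h w G v - (f1 h w p G v - f2 h w p G v) := fun v => by
    have := bb_w h (-1) w p G v
    have e : (fun u => w u * (1 + -1 * p u)) = fun u => w u * G x u := by
      funext u; simp only [hp]; ring
    rw [e] at this
    linarith
  have J : ∀ v, ∃ s' : ℝ, 0 ≤ s' ∧ w v * G x v * (phi (s v) (aa η w G v) (bb h w G v)
      - (1 + τ) * al (s v) (aa η w G v) * c v + al (s v) (aa η w G v) * ee η w p G v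
      + ρ ^ 3 * be (s v) * (f1 h w p G v - f2 h w p G v))
      ≤ w v * G x v * phi s' (aa η (fun u => w u * G x u) (fun u z => G u z * (1 - h x u z)) v)
        (bb h (fun u => w u * G x u) (fun u z => G u z * (1 - h x u z)) v) := by
    intro v
    rcases (hw v).lt_or_eq with hv | hv
    · obtain ⟨k1, k2⟩ := Ks v hv
      obtain ⟨s', j1, j2⟩ := jump (c := c v) (e := ee η w p G v)
        (f := f1 h w p G v - f2 h w p G v)
        (b' := bb h (fun u => w u * G x u) (fun u z => G u z * (1 - h x u z)) v) hρ k1 (a0 v) (b0 v)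
        k2 (by rw [← ea]; exact aa_nonneg hη w'0 (fun u z => (G'1 u z).trans (hG1 u z)) v)
        (sub_nonneg.2 (f12 v)) (by linarith [eb v, bb_nonneg h0 w'0 hG0 v]) (c0 v) (e0 v)
        (by rw [← eb]; exact bb_mono h0 w'0 G'0 G'1 v)
      exact ⟨s', j1, mul_le_mul_of_nonneg_left (by rw [ea]; exact j2) (w'0 v)⟩
    · exact ⟨0, le_rfl, by rw [← hv]; simp⟩
  choose s' hs' J using J
  refine ⟨s', hs', ?_⟩
  have J' := sum_le_sum (fun v (_ : v ∈ (univ : Finset V)) => J v)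
  have wal : ∀ v (k : ℝ), 0 ≤ k → w v * k * al (s v) (aa η w G v)
      ≤ w v * k * al (s x) (aa η w G x) := by
    intro v k hk
    rcases (hw v).lt_or_eq with hv | hv
    · exact mul_le_mul_of_nonneg_left (hxm v hv) (mul_nonneg hv.le hk)
    · rw [← hv]; simp
  set A0 := ∑ u, w u * p u with hA0
  have A00 : 0 ≤ A0 := sum_nonneg (fun u _ => mul_nonneg (hw u) (p0 u))
  have A01 : (1 + η) * A0 ≤ aa η w G x := by
    simp only [hA0, aa, mul_sum]
    refine sum_le_sum (fun u _ => ?_)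
    rw [hq u]
    nlinarith [mul_nonneg hη (mul_nonneg (hw u) (sub_nonneg.2 (p1 u)))]
  have A02 : A0 ≤ aa η w G x := by nlinarith [mul_nonneg hη A00]
  have B1 : ∑ v, w v * (G x v * c v) * al (s v) (aa η w G v)
      ≤ 2 * bb h w G x * al (s x) (aa η w G x) := by
    refine (sum_le_sum (fun v _ => wal v _ (mul_nonneg (hG0 x v) (c0 v)))).trans (le_of_eq ?_)
    rw [← sum_mul]
    congr 1
    simp only [bb, HH, hc, mul_sum]
    exact sum_congr rfl (fun u _ => sum_congr rfl (fun z _ => by ring))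
  have B2 : ∑ v, w v * (p v * ((1 + η) * A0)) * al (s v) (aa η w G v)
      ≤ aa η w G x ^ 2 * al (s x) (aa η w G x) := by
    refine (sum_le_sum (fun v _ => wal v _ (mul_nonneg (p0 v) (by positivity)))).trans ?_
    rw [← sum_mul]
    refine mul_le_mul_of_nonneg_right ?_ (al0 x)
    have : ∑ v, w v * (p v * ((1 + η) * A0)) = A0 * ((1 + η) * A0) := by
      rw [hA0, sum_mul]
      exact sum_congr rfl (fun u _ => by ring)
    rw [this, sq]
    exact mul_le_mul A02 A01 (by positivity) (a0 x)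
  have B2' : ∀ v, ee η w p G v + ∑ u, w u * p u * G v u = (1 + η) * A0 := fun v => by
    simp only [ee, hA0, mul_sum, ← sum_add_distrib]
    exact sum_congr rfl (fun u _ => by ring)
  have B4 : ∑ v, w v * p v * phi (s v) (aa η w G v) (bb h w G v)
      ≤ aa η w G x * (36 / 25 * (s x * (1 + 19 / 100 * (s x * aa η w G x)))) := by
    have m0 : 0 ≤ s x * (1 + 19 / 100 * (s x * aa η w G x)) := by have := a0 x; positivity
    refine le_trans ?_ (mul_le_mul_of_nonneg_right A02 (by positivity))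
    rw [hA0, sum_mul]
    refine sum_le_sum (fun v _ => ?_)
    rcases (hw v).lt_or_eq with hv | hv
    · refine mul_le_mul_of_nonneg_left ?_ (mul_nonneg hv.le (p0 v))
      obtain ⟨k1, k2⟩ := Ks v hv
      have k3 : s v ≤ s x * (1 + 19 / 100 * (s x * aa η w G x)) := by
        refine abs_le_of_sq_le_sq' ?_ m0 |>.2
        have := hxm v hv
        unfold al at this
        have t1 : 0 ≤ s v ^ 3 * aa η w G v := by have := a0 v; positivity
        nlinarith [sq_nonneg (s x ^ 2 * aa η w G x)]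
      have k4 : phi (s v) (aa η w G v) (bb h w G v) = 36 / 25 * s v - s v ^ 2 * aa η w G v / 3 := by
        unfold phi
        linear_combination (s v / 3) * k2
      have t2 : 0 ≤ s v ^ 2 * aa η w G v := by have := a0 v; positivity
      linarith
    · rw [← hv]; simp
  have B5 : 0 ≤ ∑ v, w v * (al (s v) (aa η w G v) * ee η w p G v) :=
    sum_nonneg (fun v _ => mul_nonneg (hw v) (mul_nonneg (al0 v) (e0 v)))
  have B6 : ∑ v, w v * G x v * (be (s v) * (f1 h w p G v - f2 h w p G v))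
      ≤ ∑ v, w v * (be (s v) * f1 h w p G v) := by
    refine sum_le_sum (fun v _ => ?_)
    rw [hq v]
    have t1 := mul_nonneg (hw v) (be0 v)
    nlinarith [mul_nonneg t1 (f20 v), mul_nonneg (mul_nonneg t1 (p0 v)) (sub_nonneg.2 (f12 v))]
  have B3 : ∑ v, w v * (be (s v) * f1 h w p G v)
      - ∑ v, w v * G x v * (be (s v) * (f1 h w p G v - f2 h w p G v))
      ≤ ∑ v, w v * (be (s v) * (p v * f1 h w p G v + f2 h w p G v)) := by
    rw [← sum_sub_distrib]
    refine sum_le_sum (fun v _ => ?_)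
    rw [hq v]
    have t1 := mul_nonneg (hw v) (be0 v)
    nlinarith [mul_nonneg (mul_nonneg t1 (p0 v)) (f20 v)]
  have E1 : ∑ v, w v * G x v * (phi (s v) (aa η w G v) (bb h w G v)
      - (1 + τ) * al (s v) (aa η w G v) * c v + al (s v) (aa η w G v) * ee η w p G v
      + ρ ^ 3 * be (s v) * (f1 h w p G v - f2 h w p G v))
      = Phi η h w s G - ∑ v, w v * p v * phi (s v) (aa η w G v) (bb h w G v)
        - (1 + τ) * ∑ v, w v * (G x v * c v) * al (s v) (aa η w G v)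
        + ∑ v, w v * (al (s v) (aa η w G v) * ee η w p G v)
        - ∑ v, w v * (p v * ((1 + η) * A0)) * al (s v) (aa η w G v)
        + ∑ v, w v * (al (s v) (aa η w G v) * (p v * ∑ u, w u * p u * G v u))
        + ρ ^ 3 * ∑ v, w v * G x v * (be (s v) * (f1 h w p G v - f2 h w p G v)) := by
    rw [Phi, mul_sum univ _ (1 + τ), mul_sum univ _ (ρ ^ 3), ← sum_sub_distrib, ← sum_sub_distrib,
      ← sum_add_distrib, ← sum_sub_distrib, ← sum_add_distrib, ← sum_add_distrib]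
    refine sum_congr rfl (fun v _ => ?_)
    rw [← B2' v, hq v]
    ring
  have E2 : Phi η h (fun u => w u * G x u) s' (fun u z => G u z * (1 - h x u z))
      = ∑ v, w v * G x v * phi (s' v)
        (aa η (fun u => w u * G x u) (fun u z => G u z * (1 - h x u z)) v)
        (bb h (fun u => w u * G x u) (fun u z => G u z * (1 - h x u z)) v) := rfl
  have F1 := mul_le_mul_of_nonneg_left B1 (show 0 ≤ 1 + τ by linarith)
  have F2 := mul_le_mul_of_nonneg_left
    (show ∑ v, w v * G x v * (be (s v) * (f1 h w p G v - f2 h w p G v)) ≤ _ from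
      B6.trans ((show _ ≤ _ by linarith).trans B4)) (sub_nonneg.2 hρ1)
  have F3 : (1 + 19 / 50 * (s x * aa η w G x)) * ((s x * aa η w G x) ^ 2
      + (1 + τ) * (25 / 18 * (36 / 25 * s x ^ 2 * bb h w G x)))
      + (1 - ρ ^ 3) * (s x * aa η w G x * (36 / 25 * (1 + 19 / 100 * (s x * aa η w G x))))
      = aa η w G x ^ 2 * al (s x) (aa η w G x) + (1 + τ) * (2 * bb h w G x * al (s x) (aa η w G x))
        + (1 - ρ ^ 3) * (aa η w G x * (36 / 25 * (s x * (1 + 19 / 100 * (s x * aa η w G x))))) := by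
    unfold al; ring
  rw [E2]
  linarith

end Pool.Agent.Lib.MP_ff43e2_co.Low
end

-- part Pool.Agent.Lib.MP_ff43e2_co.Lower
section

set_option autoImplicit false
open Finset Filter Topology

namespace Pool.Agent.Lib.MP_ff43e2_co.Low

variable {V : Type} [Fintype V] [DecidableEq V]

/-- admissible states -/
structure Adm (U : Finset V) (G0 : V → V → ℝ) (w s : V → ℝ) (G : V → V → ℝ) : Prop where
  w0 : ∀ v, 0 ≤ w v
  wU : ∀ v, v ∉ U → w v = 0
  s0 : ∀ v, 0 ≤ s v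
  g0 : ∀ u v, 0 ≤ G u v
  g1 : ∀ u v, G u v ≤ G0 u v

omit [DecidableEq V] in
theorem Phi_scale (η : ℝ) (h : V → V → V → ℝ) (w s : V → ℝ) (G : V → V → ℝ) {W : ℝ} (hW : W ≠ 0) :
    Phi η h (fun v => w v / W) (fun v => s v * W) G = Phi η h w s G := by
  unfold Phi
  refine sum_congr rfl (fun v _ => ?_)
  have e1 : aa η (fun v => w v / W) G v = aa η w G v / W := by
    simp only [aa, sum_div]
    exact sum_congr rfl (fun u _ => by ring)
  have e2 : bb h (fun v => w v / W) G v = bb h w G v / W ^ 2 := by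
    simp only [bb, sum_div, mul_sum]
    exact sum_congr rfl (fun u _ => sum_congr rfl (fun z _ => by ring))
  rw [e1, e2]
  unfold phi
  field_simp

theorem exists_max {η : ℝ} (hη : 0 < η) {h : V → V → V → ℝ} (h0 : ∀ u v z, 0 ≤ h u v z)
    {U : Finset V} (hU : U.Nonempty) {G0 : V → V → ℝ} (hG0 : ∀ u v, 0 ≤ G0 u v)
    (hG1 : ∀ u v, G0 u v ≤ 1) :
    ∃ (w s : V → ℝ) (G : V → V → ℝ), Adm U G0 w s G ∧ ∑ v, w v = 1 ∧
      ∀ w' s' G', Adm U G0 w' s' G' → Phi η h w' s' G' ≤ Phi η h w s G := by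
  set K : Set ((V → ℝ) × (V → ℝ) × (V → V → ℝ)) :=
    (Set.Icc 0 (fun v => if v ∈ U then 1 else 0) ×ˢ Set.Icc 0 (fun _ => 54 / 25 / η) ×ˢ
      Set.Icc 0 G0) ∩ {P | ∑ v, P.1 v = 1} with hK
  have Kc : IsCompact K := (isCompact_Icc.prod (isCompact_Icc.prod isCompact_Icc)).inter_right
    (isClosed_eq (by fun_prop) continuous_const)
  obtain ⟨x, hx⟩ := hU
  have P0 : ((fun v => if v = x then 1 else 0, 0, 0) : (V → ℝ) × (V → ℝ) × (V → V → ℝ)) ∈ K := by
    refine ⟨⟨⟨fun v => ?_, fun v => ?_⟩, ⟨le_rfl, fun v => ?_⟩, ⟨le_rfl, fun u v => hG0 u v⟩⟩, ?_⟩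
    · dsimp only; split_ifs <;> simp
    · dsimp only
      by_cases hv : v = x
      · simp [hv, hx]
      · simp only [hv, if_false]; split_ifs <;> simp
    · simp only [Pi.zero_apply]; positivity
    · simp
  have Pc : Continuous (fun P : (V → ℝ) × (V → ℝ) × (V → V → ℝ) => Phi η h P.1 P.2.1 P.2.2) := by
    unfold Phi phi aa bb HH
    fun_prop
  obtain ⟨⟨w, s, G⟩, ⟨⟨⟨k1, k2⟩, ⟨k3, -⟩, ⟨k4, k5⟩⟩, k6⟩, hm⟩ :=
    Kc.exists_isMaxOn ⟨_, P0⟩ Pc.continuousOn
  refine ⟨w, s, G, ⟨k1, fun v hv => le_antisymm (by simpa [hv] using k2 v) (k1 v), k3, k4, k5⟩,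
    k6, fun w' s' G' hA => ?_⟩
  rcases (sum_nonneg (fun v (_ : v ∈ univ) => hA.w0 v)).lt_or_eq with hW | hW
  · set W := ∑ v, w' v with hWd
    rw [← Phi_scale η h w' s' G' hW.ne']
    have w0 : ∀ v, 0 ≤ w' v / W := fun v => div_nonneg (hA.w0 v) hW.le
    have w1 : ∑ v, w' v / W = 1 := by rw [← sum_div, div_self hW.ne']
    have g1 : ∀ u v, G' u v ≤ 1 := fun u v => (hA.g1 u v).trans (hG1 u v)
    have mem : ((fun v => w' v / W, fun v => if s' v * W ≤ 54 / 25 / η then s' v * W else 0, G') :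
        (V → ℝ) × (V → ℝ) × (V → V → ℝ)) ∈ K := by
      refine ⟨⟨⟨w0, fun v => ?_⟩, ⟨fun v => ?_, fun v => ?_⟩, ⟨hA.g0, hA.g1⟩⟩, w1⟩
      · dsimp only
        split_ifs with hv
        · rw [div_le_one hW]
          exact single_le_sum (fun v _ => hA.w0 v) (mem_univ v)
        · rw [hA.wU v hv]; simp
      · dsimp only
        split_ifs
        · exact mul_nonneg (hA.s0 v) hW.le
        · simp
      · dsimp only
        split_ifs with hv
        · exact hv
        · positivity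
    refine le_trans ?_ (hm mem)
    unfold Phi
    refine sum_le_sum (fun v _ => mul_le_mul_of_nonneg_left ?_ (w0 v))
    dsimp only
    split_ifs with hv
    · exact le_rfl
    · have a1 : η ≤ aa η (fun v => w' v / W) G' v := by
        calc η = ∑ u, w' u / W * η := by rw [← sum_mul, w1, one_mul]
          _ ≤ _ := sum_le_sum (fun u _ =>
              mul_le_mul_of_nonneg_left (by linarith [g1 v u]) (w0 u))
      have b1 := bb_nonneg h0 w0 hA.g0 v
      have s1 : 0 ≤ s' v * W := mul_nonneg (hA.s0 v) hW.le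
      rw [not_le, div_lt_iff₀ hη] at hv
      generalize aa η (fun v => w' v / W) G' v = a at *
      generalize bb h (fun v => w' v / W) G' v = b at *
      generalize s' v * W = σ at *
      unfold phi
      have t1 : 0 ≤ σ ^ 3 * (36 / 25 * b + 19 / 100 * a ^ 2) := by positivity
      nlinarith [mul_nonneg s1 (mul_nonneg s1 (sub_nonneg.2 a1)),
        mul_nonneg s1 (sub_nonneg.2 hv.le)]
  · have z : ∀ v, w' v = 0 := fun v =>
      (sum_eq_zero_iff_of_nonneg (fun v _ => hA.w0 v)).1 hW.symm v (mem_univ v)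
    refine le_trans (le_of_eq ?_) (hm P0)
    simp [Phi, z, phi]

/-- independence with respect to a fractional graph and a triple system -/
def Ind (h : V → V → V → ℝ) (G : V → V → ℝ) (I : Finset V) : Prop :=
  (∀ u ∈ I, ∀ v ∈ I, u ≠ v → 0 < G u v ∨ 0 < G v u) ∧
    ∀ u ∈ I, ∀ v ∈ I, ∀ z ∈ I, u ≠ v → u ≠ z → v ≠ z → h u v z < 1

theorem potential_le {η : ℝ} (hη : 0 < η) {h : V → V → V → ℝ} (h0 : ∀ u v z, 0 ≤ h u v z)
    (h1 : ∀ u v z, h u v z ≤ 1) (hs1 : ∀ u v z, h u v z = h v u z)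
    (hs2 : ∀ u v z, h u v z = h u z v) (n : ℕ) : ∀ U : Finset V, U.card = n →
      ∀ G0 : V → V → ℝ, (∀ u v, 0 ≤ G0 u v) → (∀ u v, G0 u v ≤ 1) → (∀ v, G0 v v = 0) →
      ∃ I, I ⊆ U ∧ Ind h G0 I ∧ ∀ w s G, Adm U G0 w s G → Phi η h w s G ≤ I.card := by
  induction n using Nat.strong_induction_on with
  | _ n ih =>
  intro U hU G0 hG0 hG1 hGd
  rcases U.eq_empty_or_nonempty with rfl | hne
  · refine ⟨∅, Subset.rfl, ⟨by simp, by simp⟩, fun w s G hA => ?_⟩
    simp [Phi, hA.wU]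
  obtain ⟨w, s, G, hA, hW, hm⟩ := exists_max hη h0 hne hG0 hG1
  have g1 : ∀ u v, G u v ≤ 1 := fun u v => (hA.g1 u v).trans (hG1 u v)
  have hne' : (univ.filter (fun v => 0 < w v)).Nonempty := by
    by_contra hn
    rw [not_nonempty_iff_eq_empty, filter_eq_empty_iff] at hn
    have : ∑ v, w v ≤ 0 := sum_nonpos (fun v hv => not_lt.1 (hn hv))
    linarith
  obtain ⟨x, hx, hxm⟩ := exists_max_image _ (fun v => al (s v) (aa η w G v)) hne'
  have hx0 : 0 < w x := (mem_filter.1 hx).2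
  have hxU : x ∈ U := by
    by_contra hn
    exact hx0.ne' (hA.wU x hn)
  have Gx : G x x = 0 := le_antisymm (hGd x ▸ hA.g1 x x) (hA.g0 x x)
  obtain ⟨s', s0, hstep⟩ := step hη.le h0 h1 hA.w0 hA.s0 hA.g0 g1 x hx0
    (fun v hv => hxm v (mem_filter.2 ⟨mem_univ v, hv⟩))
    (fun v σ hσ => hm _ _ _ ⟨hA.w0, hA.wU, fun u => by
      by_cases hu : u = v
      · rw [hu, Function.update_self]; exact hσ
      · rw [Function.update_of_ne hu]; exact hA.s0 u, hA.g0, hA.g1⟩)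
    (fun t t0 t1 => hm _ _ _ ⟨fun u => mul_nonneg (hA.w0 u) (by
      nlinarith [hA.g0 x u, g1 x u]), fun v hv => by rw [hA.wU v hv, zero_mul], hA.s0, hA.g0, hA.g1⟩)
    (fun t t0 t1 => by
      have q : ∀ u z, 0 ≤ t * ((1 - G x u) * (1 - G x z)) ∧
          t * ((1 - G x u) * (1 - G x z)) ≤ 1 := fun u z => by
        have a1 := sub_nonneg.2 (g1 x u)
        have a2 := sub_nonneg.2 (g1 x z)
        refine ⟨by positivity, mul_le_one₀ t1 (by positivity) (mul_le_one₀ ?_ a2 ?_)⟩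
        · linarith [hA.g0 x u]
        · linarith [hA.g0 x z]
      refine hm _ _ _ ⟨hA.w0, hA.wU, hA.s0, fun u z => mul_nonneg (hA.g0 u z) ?_, fun u z => ?_⟩
      · linarith [(q u z).2]
      · nlinarith [hA.g1 u z, mul_nonneg (hA.g0 u z) (q u z).1])
  have G'0 : ∀ u z, 0 ≤ G u z * (1 - h x u z) := fun u z =>
    mul_nonneg (hA.g0 u z) (sub_nonneg.2 (h1 x u z))
  have G'1 : ∀ u z, G u z * (1 - h x u z) ≤ G0 u z := fun u z => by
    nlinarith [mul_nonneg (hA.g0 u z) (h0 x u z), hA.g1 u z]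
  have hlt : (U.filter (fun u => 0 < G x u)).card < n := by
    rw [← hU]
    exact card_lt_card (filter_ssubset.2 ⟨x, hxU, by rw [Gx]; exact lt_irrefl _⟩)
  obtain ⟨I, i1, ⟨i2, i3⟩, i4⟩ := ih _ hlt _ rfl (fun u z => G u z * (1 - h x u z)) G'0
    (fun u z => (G'1 u z).trans (hG1 u z))
    (fun v => le_antisymm (hGd v ▸ G'1 v v) (G'0 v v))
  have i5 := i4 (fun u => w u * G x u) s' _ ⟨fun u => mul_nonneg (hA.w0 u) (hA.g0 x u),
    fun v hv => by
      by_cases hv' : v ∈ U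
      · have : G x v = 0 := le_antisymm (not_lt.1 (fun hh => hv (mem_filter.2 ⟨hv', hh⟩)))
          (hA.g0 x v)
        rw [this, mul_zero]
      · rw [hA.wU v hv', zero_mul], s0, G'0, fun _ _ => le_rfl⟩
  have xI : x ∉ I := fun hh => by
    have := (mem_filter.1 (i1 hh)).2
    rw [Gx] at this
    exact lt_irrefl _ this
  have gx : ∀ u ∈ I, 0 < G0 x u := fun u hu => (mem_filter.1 (i1 hu)).2.trans_le (hA.g1 x u)
  have hx3 : ∀ u ∈ I, ∀ z ∈ I, u ≠ z → h x u z < 1 := fun u hu z hz huz => by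
    rcases i2 u hu z hz huz with a | a
    · exact sub_pos.1 ((pos_iff_pos_of_mul_pos a).1 ((hA.g0 u z).lt_of_ne (fun e => by
        dsimp only at a; rw [← e, zero_mul] at a; exact lt_irrefl _ a)))
    · rw [hs2]
      exact sub_pos.1 ((pos_iff_pos_of_mul_pos a).1 ((hA.g0 z u).lt_of_ne (fun e => by
        dsimp only at a; rw [← e, zero_mul] at a; exact lt_irrefl _ a)))
  refine ⟨insert x I, insert_subset hxU (i1.trans (filter_subset _ _)), ⟨?_, ?_⟩,
    fun w' s'' G' hA' => ?_⟩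
  · intro u hu v hv huv
    rw [mem_insert] at hu hv
    rcases hu with rfl | hu <;> rcases hv with rfl | hv
    · exact absurd rfl huv
    · exact Or.inl (gx v hv)
    · exact Or.inr (gx u hu)
    · exact (i2 u hu v hv huv).imp (fun a => a.trans_le (G'1 u v)) (fun a => a.trans_le (G'1 v u))
  · intro u hu v hv z hz huv huz hvz
    rw [mem_insert] at hu hv hz
    rcases hu with rfl | hu <;> rcases hv with rfl | hv <;> rcases hz with rfl | hz
    · exact absurd rfl huv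
    · exact absurd rfl huv
    · exact absurd rfl huz
    · exact hx3 v hv z hz hvz
    · exact absurd rfl hvz
    · rw [hs1]; exact hx3 u hu z hz huz
    · rw [hs2, hs1]; exact hx3 u hu v hv huv
    · exact i3 u hu v hv z hz huv huz hvz
  · rw [card_insert_of_notMem xI]
    push_cast
    linarith [hm _ _ _ hA']

theorem triple_count (H : Finset (Finset V)) (hH : ∀ e ∈ H, e.card = 3) :
    ∑ v, ∑ u, ∑ z, HH (fun u v z => if ({u, v, z} : Finset V) ∈ H then (1:ℝ) else 0)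
      (fun u v => if u = v then 0 else 1) v u z ≤ 6 * H.card := by
  set G : V → V → ℝ := fun u v => if u = v then 0 else 1 with hG
  have G0 : ∀ u v, 0 ≤ G u v := fun u v => by simp only [hG]; split_ifs <;> simp
  have a1 : ∀ v u z, HH (fun u v z => if ({u, v, z} : Finset V) ∈ H then (1:ℝ) else 0) G v u z
      ≤ ∑ e ∈ H, (if v ∈ e then if u ∈ e then if z ∈ e then G v u * G v z * G u z
        else 0 else 0 else 0) := by
    intro v u z
    have n : ∀ e ∈ H, 0 ≤ (if v ∈ e then if u ∈ e then if z ∈ e then G v u * G v z * G u z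
        else 0 else 0 else (0:ℝ)) := fun e _ => by
      have := G0 v u; have := G0 v z; have := G0 u z
      split_ifs <;> positivity
    unfold HH
    dsimp only
    split_ifs with he
    · refine le_trans (le_of_eq ?_) (single_le_sum n he)
      simp
    · rw [zero_mul]; exact sum_nonneg n
  refine (sum_le_sum (fun v _ => sum_le_sum (fun u _ => sum_le_sum (fun z _ => a1 v u z)))).trans ?_
  simp only [sum_comm (t := H)]
  rw [mul_comm, ← nsmul_eq_mul, ← sum_const]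
  refine sum_le_sum (fun e he => le_of_eq ?_)
  obtain ⟨a, b, c, hab, hac, hbc, rfl⟩ := card_eq_three.1 (hH e he)
  simp only [sum_ite_irrel, sum_const_zero, sum_ite_mem, univ_inter]
  simp [hG, hab, hac, hbc, hab.symm, hac.symm, hbc.symm]
  norm_num

/-- finite form of the lower bound on the independence number -/
theorem finite_bound {n a : ℕ} (H : Finset (Finset (Fin n))) (hH : ∀ e ∈ H, e.card = 3)
    (hX : ∀ X : Finset (Fin n), X.card = a + 1 → ∃ e ∈ H, e ⊆ X) {η s : ℝ} (hη : 0 < η)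
    (hs : 0 ≤ s) :
    n * (54 / 25 * s - s ^ 2 * (1 + n * η) - 19 / 100 * s ^ 3 * (1 + n * η) ^ 2)
      - 108 / 25 * s ^ 3 * H.card ≤ a := by
  set G : Fin n → Fin n → ℝ := fun u v => if u = v then 0 else 1 with hG
  set h : Fin n → Fin n → Fin n → ℝ :=
    fun u v z => if ({u, v, z} : Finset (Fin n)) ∈ H then (1:ℝ) else 0 with hh
  have G0 : ∀ u v, 0 ≤ G u v := fun u v => by simp only [hG]; split_ifs <;> simp
  obtain ⟨I, -, ⟨-, i2⟩, i3⟩ := potential_le hη (h := h)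
    (fun u v z => by simp only [hh]; split_ifs <;> simp)
    (fun u v z => by simp only [hh]; split_ifs <;> simp)
    (fun u v z => by simp only [hh]; rw [insert_comm])
    (fun u v z => by simp only [hh]; rw [pair_comm]) _ univ rfl G G0
    (fun u v => by simp only [hG]; split_ifs <;> simp) (fun v => by simp [hG])
  have i4 := i3 (fun _ => 1) (fun _ => s) G ⟨fun _ => zero_le_one, by simp, fun _ => hs, G0,
    fun _ _ => le_rfl⟩
  have i5 : I.card ≤ a := by
    by_contra hn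
    obtain ⟨X, x1, x2⟩ := exists_subset_card_eq (s := I) (n := a + 1) (by omega)
    obtain ⟨e, e1, e2⟩ := hX X x2
    obtain ⟨u, v, z, huv, huz, hvz, rfl⟩ := card_eq_three.1 (hH e e1)
    have := i2 u (x1 (e2 (by simp))) v (x1 (e2 (by simp))) z (x1 (e2 (by simp))) huv huz hvz
    simp [hh, e1] at this
  have i6 : (I.card : ℝ) ≤ a := by exact_mod_cast i5
  have ea : ∀ v, aa η (fun _ => 1) G v = 1 + n * η := fun v => by
    have : ∀ u, 1 * (1 + η - G v u) = η + if v = u then 1 else 0 := fun u => by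
      simp only [hG]; split_ifs <;> ring
    simp only [aa, this, sum_add_distrib]
    simp [add_comm]
  have eb : ∑ v, bb h (fun _ => 1) G v ≤ 3 * H.card := by
    have := triple_count H hH
    simp only [bb, one_mul, ← mul_sum]
    linarith
  have e : Phi η h (fun _ => 1) (fun _ => s) G
      = n * (54 / 25 * s - s ^ 2 * (1 + n * η) - 19 / 100 * s ^ 3 * (1 + n * η) ^ 2)
        - 36 / 25 * s ^ 3 * ∑ v, bb h (fun _ => 1) G v := by
    have : ∀ v, 1 * phi s (aa η (fun _ => 1) G v) (bb h (fun _ => 1) G v)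
        = (54 / 25 * s - s ^ 2 * (1 + n * η) - 19 / 100 * s ^ 3 * (1 + n * η) ^ 2)
          - 36 / 25 * s ^ 3 * bb h (fun _ => 1) G v := fun v => by
      rw [ea]; unfold phi; ring
    simp only [Phi, this, sum_sub_distrib, ← mul_sum]
    simp
    ring
  have := mul_le_mul_of_nonneg_left eb (show 0 ≤ 36 / 25 * s ^ 3 by positivity)
  linarith

theorem ratio_le_t {k r : ℕ} (hrk : r ≤ k) (n : ℕ) : (T n k r : ℝ) / (n.choose r : ℝ) ≤ t k r := by
  have h1 : ∀ n, (T n k r : ℝ) / (n.choose r : ℝ) ≤ 1 := by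
    intro n
    obtain ⟨H, h1, -, h3⟩ := T_spec n hrk
    have : H ⊆ powersetCard r univ := fun e he => by simp [h1 e he]
    have := card_le_card this
    rw [h3] at this
    simp only [card_powersetCard, card_univ, Fintype.card_fin] at this
    exact div_le_one_of_le₀ (by exact_mod_cast this) (by positivity)
  have hb : BddAbove (Set.range fun n : ℕ => (T n k r : ℝ) / (n.choose r : ℝ)) :=
    ⟨1, by rintro _ ⟨n, rfl⟩; exact h1 n⟩
  have h2 := tendsto_atTop_ciSup (ratio_mono hrk) hb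
  unfold t
  rw [h2.limUnder_eq]
  exact le_ciSup hb n

theorem t_lower {a : ℕ} (ha : 2 ≤ a) : (36 / 25) ^ 2 / (a:ℝ) ^ 2 ≤ t (a + 1) 3 := by
  have a0 : (0:ℝ) < a := by exact_mod_cast (by omega : 0 < a)
  set σ : ℝ := 25 / 36 * a with hσ
  have σ0 : 0 < σ := by positivity
  have key : ∀ n : ℕ, 3 ≤ n → (a:ℝ) / 2 - (2 * σ ^ 2 + σ ^ 3) / n
      ≤ 18 / 25 * σ ^ 3 * t (a + 1) 3 := by
    intro n hn
    have n0 : (0:ℝ) < n := by exact_mod_cast (by omega : 0 < n)
    have n1 : (1:ℝ) ≤ n := by exact_mod_cast (by omega : 1 ≤ n)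
    obtain ⟨H, h1, h2, h3⟩ := T_spec n (k := a + 1) (r := 3) (by omega)
    have b1 := finite_bound H h1 h2 (η := 1 / n) (s := σ / n) (by positivity) (by positivity)
    have b2 := ratio_le_t (k := a + 1) (r := 3) (by omega) n
    have c0 : (0:ℝ) < n.choose 3 := by exact_mod_cast Nat.choose_pos hn
    have c1 : (n.choose 3 : ℝ) ≤ (n:ℝ) ^ 3 / 6 := by
      have := Nat.choose_le_pow_div (α := ℝ) 3 n
      simpa [Nat.factorial] using this
    rw [← h3, div_le_iff₀ c0] at b2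
    have b3 : (H.card : ℝ) ≤ t (a + 1) 3 * ((n:ℝ) ^ 3 / 6) :=
      b2.trans (mul_le_mul_of_nonneg_left c1 (t_nonneg (by omega)))
    have b4 : 108 / 25 * (σ / n) ^ 3 * H.card ≤ 18 / 25 * σ ^ 3 * t (a + 1) 3 := by
      refine (mul_le_mul_of_nonneg_left b3 (by positivity)).trans (le_of_eq ?_)
      field_simp
      ring
    have b5 : (n:ℝ) * (54 / 25 * (σ / n) - (σ / n) ^ 2 * (1 + n * (1 / n))
        - 19 / 100 * (σ / n) ^ 3 * (1 + n * (1 / n)) ^ 2)
        = 3 / 2 * a - 2 * σ ^ 2 / n - 19 / 25 * (σ ^ 3 / n / n) := by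
      rw [hσ]
      field_simp
      ring
    have b6 : σ ^ 3 / n / n ≤ σ ^ 3 / n := div_le_self (by positivity) n1
    have b7 : 0 ≤ σ ^ 3 / n := by positivity
    rw [add_div]
    linarith
  have lim : Tendsto (fun n : ℕ => (a:ℝ) / 2 - (2 * σ ^ 2 + σ ^ 3) / n) atTop (𝓝 ((a:ℝ) / 2 - 0)) :=
    tendsto_const_nhds.sub (tendsto_const_div_atTop_nhds_zero_nat _)
  have fin := le_of_tendsto lim (eventually_atTop.2 ⟨3, key⟩)
  rw [div_le_iff₀ (by positivity)]
  rw [hσ] at fin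
  refine le_of_mul_le_mul_left ?_ a0
  nlinarith

theorem tStar_lower {a : ℕ} (ha : 2 ≤ a) : 216 / 625 ≤ tStar a 3 := by
  have a0 : (0:ℝ) < a := by exact_mod_cast (by omega : 0 < a)
  have := t_lower ha
  rw [div_le_iff₀ (by positivity)] at this
  unfold tStar
  norm_num [Nat.factorial]
  linarith

theorem tInf_lower : 216 / 625 ≤ tInf 3 := by
  have : Nonempty {a : ℕ // 3 ≤ a} := ⟨⟨3, le_rfl⟩⟩
  exact le_ciInf (fun a => tStar_lower (by have := a.2; omega))

end Pool.Agent.Lib.MP_ff43e2_co.Low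
end
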