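import Pool.Agent.Lib.MP_ff43e2_co.Four

set_option autoImplicit false
open Finset

namespace Pool.Agent.Lib.MP_ff43e2_co.Six
open Four (blowup4 first_diff card_four Tw Tw_card mem_Tw)

/-- the affine space of dimension six over the field with two elements -/
abbrev G := Fin 6 → ZMod 2

instance : DecidableEq G := inferInstance

theorem G_card : Fintype.card G = 64 := by simp [ZMod.card]

theorem G_two (a : G) : a + a = 0 := by
  funext i
  simp only [Pi.add_apply, Pi.zero_apply]
  generalize a i = x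
  revert x; decide

/-- Plotkin bound: ten points of the space contain four distinct points with sum zero -/
theorem plotkin (f : Fin 10 → G) (hf : Function.Injective f) :
    ∃ T : Finset (Fin 10), T.card = 4 ∧ ∑ i ∈ T, f i = 0 := by
  classical
  by_contra hc
  push Not at hc
  let φ : (Fin 10 → ZMod 2) →+ ZMod 2 × G :=
    { toFun := fun c => (∑ i, c i, ∑ i, c i • f i)
      map_zero' := by simp
      map_add' := fun a b => by simp [sum_add_distrib, add_smul] }
  set K : Finset (Fin 10 → ZMod 2) := univ.filter (fun c => φ c = 0) with hK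
  have hK8 : 8 ≤ K.card := by
    have h1 := AddSubgroup.card_eq_card_quotient_mul_card_addSubgroup φ.ker
    have h2 : Nat.card ((Fin 10 → ZMod 2) ⧸ φ.ker) ≤ 128 := by
      rw [Nat.card_congr (QuotientAddGroup.quotientKerEquivRange φ).toEquiv]
      refine (Nat.card_le_card_of_injective _ Subtype.val_injective).trans ?_
      simp [ZMod.card]
    have h3 : Nat.card φ.ker = K.card := by
      rw [Nat.card_eq_fintype_card, Fintype.card_subtype]
      congr 1
      ext c
      simp [hK, AddMonoidHom.mem_ker]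
    have h4 : Nat.card (Fin 10 → ZMod 2) = 1024 := by simp [ZMod.card]
    rw [h4, h3] at h1
    nlinarith
  have hz : ∀ x : ZMod 2, x ≠ 1 → x = 0 := by decide
  have hw : ∀ c ∈ K.erase 0, 6 ≤ (univ.filter (fun i => c i = 1)).card := by
    intro c hc0
    obtain ⟨c0, c1⟩ := mem_erase.1 hc0
    have c2 : φ c = 0 := (mem_filter.1 c1).2
    set T := univ.filter (fun i => c i = 1) with hT
    have s1 : ∑ i, c i = (T.card : ZMod 2) := by
      rw [← sum_filter_add_sum_filter_not univ (fun i => c i = 1),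
        sum_congr rfl (fun i hi => (mem_filter.1 hi).2),
        sum_eq_zero (fun i hi => hz _ (mem_filter.1 hi).2)]
      simp [hT]
    have s2 : ∑ i, c i • f i = ∑ i ∈ T, f i := by
      rw [hT, sum_filter]
      refine sum_congr rfl (fun i _ => ?_)
      split_ifs with h
      · rw [h, one_smul]
      · rw [hz _ h, zero_smul]
    have e1 : (T.card : ZMod 2) = 0 := s1 ▸ congrArg Prod.fst c2
    have e2 : ∑ i ∈ T, f i = 0 := s2 ▸ congrArg Prod.snd c2
    have e3 : 2 ∣ T.card := (ZMod.natCast_eq_zero_iff _ _).1 e1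
    have n0 : T.card ≠ 0 := by
      intro h
      rw [card_eq_zero] at h
      refine c0 (funext fun i => hz _ (fun hi => ?_))
      have : i ∈ T := mem_filter.2 ⟨mem_univ _, hi⟩
      simp [h] at this
    have n2 : T.card ≠ 2 := by
      intro h
      obtain ⟨a, b, hab, h⟩ := card_eq_two.1 h
      rw [h, sum_pair hab] at e2
      refine hab (hf ?_)
      have := G_two (f b)
      rw [← e2] at this
      exact (add_right_cancel this).symm
    have n4 : T.card ≠ 4 := fun h => hc T h e2
    omega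
  have hh : ∀ i, 2 * (K.filter (fun c => c i = 1)).card ≤ K.card := by
    intro i
    rcases (K.filter (fun c => c i = 1)).eq_empty_or_nonempty with h | ⟨c0, h⟩
    · simp [h]
    obtain ⟨h1, h2⟩ := mem_filter.1 h
    have h3 : (K.filter (fun c => c i = 1)).card ≤ (K.filter (fun c => ¬ c i = 1)).card := by
      refine card_le_card_of_injOn (fun c => c + c0) (fun c hc => ?_)
        (fun a _ b _ h => add_right_cancel h)
      obtain ⟨h4, h5⟩ := mem_filter.1 (mem_coe.1 hc)
      refine mem_coe.2 (mem_filter.2 ⟨mem_filter.2 ⟨mem_univ _, ?_⟩, ?_⟩)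
      · rw [map_add, (mem_filter.1 h4).2, (mem_filter.1 h1).2, add_zero]
      · simp only [Pi.add_apply, h5, h2]; decide
    have := card_filter_add_card_filter_not (s := K) (fun c => c i = 1)
    omega
  have t1 : ∑ c ∈ K, (univ.filter (fun i => c i = 1)).card
      = ∑ i, (K.filter (fun c => c i = 1)).card := by
    simp only [card_filter]
    exact sum_comm
  have t2 : 2 * ∑ i, (K.filter (fun c => c i = 1)).card ≤ 10 * K.card := by
    rw [mul_sum]
    refine (sum_le_card_nsmul _ _ _ (fun i _ => hh i)).trans (by simp)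
  have t3 : 6 * (K.erase 0).card ≤ ∑ c ∈ K, (univ.filter (fun i => c i = 1)).card := by
    refine le_trans ?_ (sum_le_sum_of_subset (erase_subset 0 K))
    have := card_nsmul_le_sum _ _ _ hw
    simpa [mul_comm] using this
  have t4 := pred_card_le_card_erase (s := K) (a := 0)
  omega

theorem L_cover (Z : Finset G) (hZ : 9 < Z.card) :
    ∃ g : Fin 4 → G, Function.Injective g ∧ (∀ i, g i ∈ Z) ∧ ∑ i, g i = 0 := by
  obtain ⟨Y, hY, hY2⟩ := exists_subset_card_eq (s := Z) (n := 10) hZ
  set e := (Y.equivFinOfCardEq hY2).symm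
  obtain ⟨T, h1, h2⟩ := plotkin (fun i => (e i : G))
    (Subtype.val_injective.comp e.injective)
  set e' := (T.equivFinOfCardEq h1).symm
  refine ⟨fun i => (e (e' i) : G), Subtype.val_injective.comp
    (e.injective.comp (Subtype.val_injective.comp e'.injective)), fun i => hY (e _).2, ?_⟩
  rw [← h2, ← sum_coe_sort T, ← e'.sum_comp]

variable (m : ℕ) [NeZero m]

/-- parts -/
abbrev P := Fin 174 × ZMod m × G
/-- vertices -/
abbrev V := P m × (Fin 20 → Bool)
/-- twin pairs -/
abbrev N := P m × (Fin 20 × (Fin 20 → Bool × Bool))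

instance : DecidableEq (P m) := inferInstance
instance : DecidableEq (V m) := inferInstance

def A : Finset (N m) := univ ×ˢ Tw

variable {m}

def col (a : N m) : ZMod m × G := (a.1.2.1 + (a.2.1.val : ZMod m), a.1.2.2)

def Same (a b : N m) : Prop := a.1 = b.1 ∧ a.2.1 = b.2.1 ∧ ∀ j < a.2.1, (a.2.2 j).1 = (b.2.2 j).1

instance (a b : N m) : Decidable (Same a b) := by unfold Same; infer_instance

omit [NeZero m] in
theorem Same.symm {a b : N m} (h : Same a b) : Same b a :=
  ⟨h.1.symm, h.2.1.symm, fun j hj => (h.2.2 j (h.2.1 ▸ hj)).symm⟩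

def lv (a : N m) : V m := (a.1, fun j => (a.2.2 j).1)
def rv (a : N m) : V m := (a.1, fun j => (a.2.2 j).2)

variable (m)

def SS : Finset (N m × N m) := (A m ×ˢ A m).filter (fun x => col x.1 = col x.2)
def C : Finset (N m × N m) := (SS m).filter (fun x => ¬ Same x.1 x.2)
def F2 : Finset (Finset (V m)) := (C m).image (fun x => {lv x.1, rv x.1, lv x.2, rv x.2})

theorem card_P : Fintype.card (P m) = 11136 * m := by
  simp only [Fintype.card_prod, Fintype.card_fin, ZMod.card, G_card]; ring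

theorem A_card : (A m).card = 11136 * m * 549755289600 := by
  rw [A, card_product, card_univ, card_P, Tw_card]

theorem SS_card : (SS m).card ≤ 11136 * m * 549755289600 * (174 * 549755289600) := by
  obtain ⟨U, hU, hU2⟩ : ∃ U : Finset (Fin 174), U.card = 174 ∧ ∀ x, x ∈ U :=
    ⟨univ, by simp, mem_univ⟩
  have : (A m ×ˢ (U ×ˢ Tw)).card
      = 11136 * m * 549755289600 * (174 * 549755289600) := by
    rw [card_product, card_product, A_card, Tw_card, hU]
  rw [← this]
  refine card_le_card_of_injOn (fun x => (x.1, (x.2.1.1, x.2.2))) ?_ ?_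
  · intro x hx
    have h1 := mem_product.1 (mem_filter.1 (mem_coe.1 hx)).1
    exact mem_coe.2 (mem_product.2 ⟨h1.1, mem_product.2 ⟨hU2 _, (mem_product.1 h1.2).2⟩⟩)
  · rintro ⟨a, ⟨h, g, x⟩, u⟩ h1 ⟨a', ⟨h', g', x'⟩, u'⟩ h2 he
    have c1 := (mem_filter.1 (mem_coe.1 h1)).2
    have c2 := (mem_filter.1 (mem_coe.1 h2)).2
    simp only [Prod.mk.injEq] at he
    obtain ⟨rfl, rfl, rfl⟩ := he
    have c3 := c1.symm.trans c2
    simp only [col, Prod.mk.injEq, add_left_inj] at c3
    obtain ⟨rfl, rfl⟩ := c3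
    rfl

theorem F2_card : 2 * (F2 m).card ≤ 11136 * m * 549755289600 * (174 * 549755289600) := by
  have h1 : 2 * (F2 m).card ≤ (C m).card := by
    classical
    refine mul_card_image_le_card _ 2 (fun e he => ?_)
    obtain ⟨x, hx, rfl⟩ := mem_image.1 he
    obtain ⟨x1, x2⟩ := mem_filter.1 hx
    obtain ⟨x3, x4⟩ := mem_filter.1 x1
    have hs : x.swap ∈ C m := mem_filter.2 ⟨mem_filter.2
      ⟨mem_product.2 (mem_product.1 x3).symm, x4.symm⟩, fun h => x2 h.symm⟩
    have hne : x ≠ x.swap := fun h => x2 (by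
      have : x.1 = x.2 := congrArg Prod.fst h
      rw [← this]; exact ⟨rfl, rfl, fun _ _ => rfl⟩)
    rw [← card_pair hne]
    refine card_le_card (insert_subset (mem_filter.2 ⟨hx, rfl⟩)
      (singleton_subset_iff.2 (mem_filter.2 ⟨hs, ?_⟩)))
    ext v
    simp only [Prod.fst_swap, Prod.snd_swap, mem_insert, mem_singleton]
    tauto
  exact h1.trans ((card_filter_le _ _).trans (SS_card m))

/-- ordered quadruples of vertices over a plane of one block -/
def D : Finset (Fin 4 → V m) := univ.filter (fun v =>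
  (∀ i j, ((v i).1.1, (v i).1.2.1) = ((v j).1.1, (v j).1.2.1)) ∧
    Function.Injective (fun i => (v i).1.2.2) ∧ ∑ i, (v i).1.2.2 = 0)

def F1 : Finset (Finset (V m)) := (D m).image (fun v => univ.image v)

theorem inj3_card {α : Type} [Fintype α] [DecidableEq α] (h : Fintype.card α = 64) :
    ∃ Q : Finset (Fin 3 → α), Q.card = 249984 ∧ ∀ g, Function.Injective g → g ∈ Q := by
  refine ⟨univ.filter (fun g : Fin 3 → α => Function.Injective g), ?_,
    fun g hg => mem_filter.2 ⟨mem_univ _, hg⟩⟩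
  rw [← Fintype.card_subtype, Fintype.card_congr (Equiv.subtypeInjectiveEquivEmbedding _ _),
    Fintype.card_embedding_eq, h, Fintype.card_fin]
  norm_num [Nat.descFactorial]

theorem D_card : (D m).card ≤ 174 * m * 249984 * 2 ^ 80 := by
  obtain ⟨Q, hQ, hQ2⟩ := inj3_card G_card
  obtain ⟨U, hU, hU2⟩ : ∃ U : Finset (Fin 174 × ZMod m), U.card = 174 * m ∧ ∀ x, x ∈ U :=
    ⟨univ, by simp [ZMod.card], mem_univ⟩
  obtain ⟨W, hW, hW2⟩ : ∃ W : Finset (Fin 4 → Fin 20 → Bool), W.card = 2 ^ 80 ∧ ∀ x, x ∈ W :=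
    ⟨univ, by simp, mem_univ⟩
  have : ((U ×ˢ Q) ×ˢ W).card = 174 * m * 249984 * 2 ^ 80 := by
    rw [card_product, card_product, hQ, hU, hW]
  rw [← this]
  refine card_le_card_of_injOn (fun v => ((((v 0).1.1, (v 0).1.2.1),
    fun i : Fin 3 => (v i.castSucc).1.2.2), fun i => (v i).2)) (fun v hv => ?_) ?_
  · obtain ⟨-, h2, -⟩ := (mem_filter.1 (mem_coe.1 hv)).2
    exact mem_coe.2 (mem_product.2 ⟨mem_product.2 ⟨hU2 _,
      hQ2 _ (h2.comp (Fin.castSucc_injective 3))⟩, hW2 _⟩)
  · intro v hv v' hv' he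
    obtain ⟨h1, -, h3⟩ := (mem_filter.1 (mem_coe.1 hv)).2
    obtain ⟨g1, -, g3⟩ := (mem_filter.1 (mem_coe.1 hv')).2
    have e1 := congrArg (fun x => x.1.1) he
    have e2 := congrArg (fun x => x.1.2) he
    have e3 := congrArg (fun x => x.2) he
    simp only at e1 e2 e3
    have e4 : ∀ i, (v i).1.2.2 = (v' i).1.2.2 := by
      intro i
      refine Fin.lastCases ?_ (fun j => congrFun e2 j) i
      rw [Fin.sum_univ_castSucc] at h3 g3
      have : ∑ i : Fin 3, (v i.castSucc).1.2.2 = ∑ i : Fin 3, (v' i.castSucc).1.2.2 :=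
        sum_congr rfl (fun j _ => congrFun e2 j)
      rw [this, ← g3] at h3
      exact add_left_cancel h3
    funext i
    have e5 := ((h1 i 0).trans e1).trans (g1 0 i)
    simp only [Prod.mk.injEq] at e5
    exact Prod.ext (Prod.ext e5.1 (Prod.ext e5.2 (e4 i))) (congrFun e3 i)

theorem F1_card : (F1 m).card ≤ 174 * m * 10416 * 2 ^ 80 := by
  have h1 : 24 * (F1 m).card ≤ (D m).card := by
    classical
    refine mul_card_image_le_card _ 24 (fun e he => ?_)
    obtain ⟨v, hv, rfl⟩ := mem_image.1 he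
    obtain ⟨h1, h2, h3⟩ := (mem_filter.1 hv).2
    have : (univ : Finset (Equiv.Perm (Fin 4))).card = 24 := by
      rw [card_univ, Fintype.card_perm, Fintype.card_fin]; rfl
    rw [← this]
    refine card_le_card_of_injOn (fun σ => v ∘ σ) (fun σ _ => ?_) (fun σ _ τ _ h => ?_)
    · refine mem_coe.2 (mem_filter.2 ⟨mem_filter.2 ⟨mem_univ _, fun i j => h1 _ _,
        h2.comp σ.injective, ?_⟩, ?_⟩)
      · rw [← h3]; exact Equiv.sum_comp σ (fun i => (v i).1.2.2)
      · rw [← image_image, image_univ_of_surjective σ.surjective]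
    · exact Equiv.ext (fun i => h2 (congrArg (fun x : V m => x.1.2.2) (congrFun h i)))
  have h2 := D_card m
  omega

def F : Finset (Finset (V m)) := (F1 m ∪ F2 m).filter (fun e => e.card = 4)

variable {m}

theorem parts_le (X : Finset (V m)) (hX : ∀ e ∈ F m, ¬ e ⊆ X) :
    (X.image Prod.fst).card ≤ 1566 * m := by
  have : (univ : Finset (Fin 174 × ZMod m)).card = 174 * m := by simp [ZMod.card]
  rw [show 1566 * m = 9 * (174 * m) by ring, ← this]
  refine card_le_mul_card_image_of_maps_to (f := fun p : P m => (p.1, p.2.1))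
    (fun _ _ => mem_univ _) 9 (fun b _ => ?_)
  by_contra hc
  set Y := (X.image Prod.fst).filter (fun p : P m => (p.1, p.2.1) = b) with hY
  have h1 : (Y.image (fun p => p.2.2)).card = Y.card := by
    refine card_image_of_injOn ?_
    rintro ⟨h, g, x⟩ h1 ⟨h', g', x'⟩ h2 he
    have c := (mem_filter.1 (mem_coe.1 h1)).2.trans (mem_filter.1 (mem_coe.1 h2)).2.symm
    simp only [Prod.mk.injEq] at c he ⊢
    exact ⟨c.1, c.2, he⟩
  have h2 : ∀ x ∈ Y.image (fun p => p.2.2), ∃ w, ((b.1, b.2, x), w) ∈ X := by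
    intro x hx
    obtain ⟨p, hp, rfl⟩ := mem_image.1 hx
    obtain ⟨p1, rfl⟩ := mem_filter.1 hp
    obtain ⟨v, hv, rfl⟩ := mem_image.1 p1
    exact ⟨v.2, hv⟩
  obtain ⟨g, g1, g2, g3⟩ := L_cover (Y.image (fun p => p.2.2)) (by omega)
  choose w hw using fun i => h2 _ (g2 i)
  refine hX (univ.image (fun i => (((b.1, b.2, g i), w i) : V m)))
    (mem_filter.2 ⟨mem_union_left _ (mem_image.2
      ⟨_, mem_filter.2 ⟨mem_univ _, fun _ _ => rfl, g1, g3⟩, rfl⟩), ?_⟩) ?_
  · rw [card_image_of_injective _ (fun i j h => g1 (congrArg (fun x : V m => x.1.2.2) h))]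
    simp
  · intro x hx
    obtain ⟨i, -, rfl⟩ := mem_image.1 hx
    exact hw i

/-- `z` and `y` lie in the same part and split at depth `l`, with `z` on the left -/
def R (z y : V m) (l : Fin 20) : Prop :=
  z.1 = y.1 ∧ (∀ j < l, z.2 j = y.2 j) ∧ z.2 l = false ∧ y.2 l = true

omit [NeZero m] in
theorem R_or {y y' : V m} (h1 : y.1 = y'.1) (h2 : y ≠ y') :
    ∃ l, y.2 l ≠ y'.2 l ∧ (R y y' l ∨ R y' y l) := by
  obtain ⟨l, l1, l2⟩ := first_diff (w := y.2) (w' := y'.2) (fun h => h2 (Prod.ext h1 h))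
  refine ⟨l, l2, ?_⟩
  cases hy : y.2 l
  · exact Or.inl ⟨h1, l1, hy, by rw [hy] at l2; simpa using l2⟩
  · exact Or.inr ⟨h1.symm, fun j hj => (l1 j hj).symm, by rw [hy] at l2; simpa using l2, hy⟩

theorem cover (hm : 20 ≤ m) (X : Finset (V m)) (hX : ∀ e ∈ F m, ¬ e ⊆ X) : X.card ≤ 1630 * m := by
  classical
  have h0 : (X.filter (fun y => ¬ ∃ l, ∃ z ∈ X, R z y l)).card ≤ (X.image Prod.fst).card := by
    refine card_le_card_of_injOn Prod.fst
      (fun y hy => mem_coe.2 (mem_image_of_mem _ (mem_filter.1 (mem_coe.1 hy)).1)) ?_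
    intro y hy y' hy' he
    obtain ⟨y1, y2⟩ := mem_filter.1 (mem_coe.1 hy)
    obtain ⟨y3, y4⟩ := mem_filter.1 (mem_coe.1 hy')
    by_contra hne
    obtain ⟨l, -, h | h⟩ := R_or he hne
    · exact y4 ⟨l, y, y1, h⟩
    · exact y2 ⟨l, y', y3, h⟩
  have hd : ∀ y ∈ X.filter (fun y => ∃ l, ∃ z ∈ X, R z y l), ∃ l z, z ∈ X ∧ R z y l ∧
      ∀ l', ∀ z' ∈ X, R z' y l' → l' ≤ l := by
    intro y hy
    obtain ⟨l0, hl0⟩ := (mem_filter.1 hy).2
    obtain ⟨l, hl, hmax⟩ := exists_max_image (univ.filter (fun l => ∃ z ∈ X, R z y l)) id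
      ⟨l0, mem_filter.2 ⟨mem_univ _, hl0⟩⟩
    obtain ⟨z, z1, z2⟩ := (mem_filter.1 hl).2
    exact ⟨l, z, z1, z2, fun l' z' a b => hmax l' (mem_filter.2 ⟨mem_univ _, z', a, b⟩)⟩
  choose! d z z1 z2 z3 using hd
  have h1 : (X.filter (fun y => ∃ l, ∃ z ∈ X, R z y l)).card
      ≤ (univ : Finset (ZMod m × G)).card := by
    refine card_le_card_of_injOn (fun y => col ((y.1, (d y, fun j => ((z y).2 j, y.2 j))) : N m))
      (fun _ _ => mem_coe.2 (mem_univ _)) ?_
    intro y hy y' hy' he
    have hy1 := mem_coe.1 hy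
    have hy2 := mem_coe.1 hy'
    obtain ⟨r1, r2, r3, r4⟩ := z2 y hy1
    obtain ⟨s1, s2, s3, s4⟩ := z2 y' hy2
    by_cases hs : Same ((y.1, (d y, fun j => ((z y).2 j, y.2 j))) : N m)
        (y'.1, (d y', fun j => ((z y').2 j, y'.2 j)))
    · obtain ⟨e1, e2, e3⟩ := hs
      simp only at e1 e2 e3
      by_contra hne
      obtain ⟨l, l1, l2⟩ := R_or e1 hne
      have l3 : l ≤ d y := by
        rcases l2 with h | h
        · exact e2 ▸ z3 y' hy2 l y (mem_filter.1 hy1).1 h
        · exact z3 y hy1 l y' (mem_filter.1 hy2).1 h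
      rcases l3.lt_or_eq with l4 | l4
      · exact l1 (by rw [← r2 l l4, e3 l l4, s2 l (e2 ▸ l4)])
      · exact l1 (by rw [l4, r4, e2, s4])
    · exfalso
      have key : ∀ a b : V m, a.1 = y.1 → (∀ j < d y, a.2 j = y.2 j) → b.1 = y'.1 →
          (∀ j < d y', b.2 j = y'.2 j) → a ≠ b := by
        rintro a b a1 a2 b1 b2 rfl
        have e1 : y.1 = y'.1 := a1.symm.trans b1
        have e2 : d y = d y' := by
          have := congrArg Prod.fst he
          simp only [col, e1, add_right_inj] at this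
          rw [ZMod.natCast_eq_natCast_iff', Nat.mod_eq_of_lt (by omega),
            Nat.mod_eq_of_lt (by omega)] at this
          exact Fin.ext this
        refine hs ⟨e1, e2, fun j hj => ?_⟩
        simp only at hj ⊢
        rw [r2 j hj, ← a2 j hj, b2 j (e2 ▸ hj), s2 j (e2 ▸ hj)]
      have v1 : lv ((y.1, (d y, fun j => ((z y).2 j, y.2 j))) : N m) = z y := Prod.ext r1.symm rfl
      have v2 : lv ((y'.1, (d y', fun j => ((z y').2 j, y'.2 j))) : N m) = z y' :=
        Prod.ext s1.symm rfl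
      refine hX {z y, y, z y', y'} (mem_filter.2 ⟨mem_union_right _ (mem_image.2
        ⟨((y.1, (d y, fun j => ((z y).2 j, y.2 j))), (y'.1, (d y', fun j => ((z y').2 j, y'.2 j)))),
          mem_filter.2 ⟨mem_filter.2 ⟨mem_product.2 ⟨mem_product.2 ⟨mem_univ _, mem_Tw.2 ⟨r2, ?_⟩⟩,
            mem_product.2 ⟨mem_univ _, mem_Tw.2 ⟨s2, ?_⟩⟩⟩, he⟩, hs⟩, ?_⟩), ?_⟩) ?_
      · simp [r3, r4]
      · simp [s3, s4]
      · simp only [v1, v2]; rfl
      · refine card_four ?_ (key _ _ r1 r2 s1 s2) (key _ _ r1 r2 rfl (fun _ _ => rfl))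
          (key _ _ rfl (fun _ _ => rfl) s1 s2) (key _ _ rfl (fun _ _ => rfl) rfl (fun _ _ => rfl)) ?_
        · intro h; rw [h, r4] at r3; exact absurd r3 (by simp)
        · intro h; rw [h, s4] at s3; exact absurd s3 (by simp)
      · simp [insert_subset_iff, z1 y hy1, z1 y' hy2, (mem_filter.1 hy1).1, (mem_filter.1 hy2).1]
  have h2 := card_filter_add_card_filter_not (s := X) (fun y => ∃ l, ∃ z ∈ X, R z y l)
  have h3 := parts_le X hX
  have h4 : (univ : Finset (ZMod m × G)).card = m * 64 := by simp [ZMod.card]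
  omega

theorem T_le (hm : 20 ≤ m) {n M : ℕ} (hn : 4 ≤ n)
    (hM : 2 * (174 * m * 10416 * 2 ^ 80) + 11136 * m * 549755289600 * (174 * 549755289600)
      ≤ 2 * M) :
    T n (1630 * m + 1 + 2) 4 * (11136 * m * 2 ^ 20) ^ 4
      ≤ n.choose 4 * (M * 24 + (11136 * m * 2 ^ 20) ^ 2 * 8) := by
  have hq : Fintype.card (V m) = 11136 * m * 2 ^ 20 := by
    rw [Fintype.card_prod, card_P]
    simp only [Fintype.card_fin, Fintype.card_fun, Fintype.card_bool]
  have hF : (F m).card ≤ M := by
    have h1 := F1_card m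
    have h2 := F2_card m
    have h3 : (F m).card ≤ (F1 m).card + (F2 m).card :=
      (card_filter_le _ _).trans (card_union_le _ _)
    omega
  have h := blowup4 (V := V m) (by rw [hq]; omega) (s := 1630 * m + 1) hn (by omega)
    (F m) hF (fun e he => (mem_filter.1 he).2) (fun X hX => by
      by_contra hc
      have := cover hm X (fun e he h => hc ⟨e, he, h⟩)
      omega)
  rw [hq] at h
  refine h.trans (Nat.mul_le_mul_left _ (Nat.add_le_add_left ?_ _))
  generalize 11136 * m * 2 ^ 20 = q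
  have h1 := Nat.div_mul_le_self (q * (q - 1)) 2
  have h2 : q * (q - 1) ≤ q ^ 2 := by rw [sq]; exact Nat.mul_le_mul_left _ (Nat.sub_le _ _)
  rw [Nat.choose_two_right]
  omega

theorem t_le : t (16300002 + 1) 4 ≤ (24838487590803029201998672035840000 * 24
    + 116769423360000 ^ 2 * 8) / 116769423360000 ^ 4 := by
  refine (t_bounds (by norm_num) (by positivity) (fun n hn => ?_)).2
  have h := T_le (m := 10000) (M := 24838487590803029201998672035840000) (by norm_num) hn
    (by norm_num)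
  rw [show 1630 * 10000 + 1 + 2 = 16300002 + 1 by norm_num,
    show 11136 * 10000 * 2 ^ 20 = 116769423360000 by norm_num] at h
  rw [div_mul_eq_mul_div, le_div_iff₀ (by positivity), mul_comm _ (n.choose 4 : ℝ)]
  exact_mod_cast h

theorem main : tInf 4 < 2893 / 5000 := by
  refine (tInf_le (a := 16300002) (by norm_num)).trans_lt ?_
  unfold tStar
  refine (mul_le_mul_of_nonneg_left t_le (by positivity)).trans_lt ?_
  norm_num [Nat.factorial]

end Pool.Agent.Lib.MP_ff43e2_co.Six
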