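import Pool.Agent.Lib.MP_ff43e2_co.Comb

set_option autoImplicit false
open Finset Filter

namespace Pool.Agent.Lib.MP_ff43e2_co

theorem choose_le_exp {q s : ℕ} (hs : 0 < s) (hq : 0 < q) :
    (q.choose s : ℝ) ≤ Real.exp (s * (1 + Real.log (q / s))) := by
  have h1 : (q.choose s : ℝ) ≤ (q:ℝ) ^ s / s.factorial := Nat.choose_le_pow_div s q
  have h2 := Real.pow_div_factorial_le_exp (s:ℝ) (by positivity) s
  have hs' : (0:ℝ) < s := by exact_mod_cast hs
  have hq' : (0:ℝ) < q := by exact_mod_cast hq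
  have e : Real.exp (s * (1 + Real.log (q / s))) = Real.exp s * ((q:ℝ) / s) ^ s := by
    rw [mul_add, mul_one, Real.exp_add, Real.exp_nat_mul, Real.exp_log (by positivity)]
  rw [e]
  calc _ ≤ (q:ℝ) ^ s / s.factorial := h1
    _ = (s:ℝ) ^ s / s.factorial * ((q:ℝ) / s) ^ s := by rw [div_pow]; field_simp
    _ ≤ _ := by gcongr

theorem exists_family {q s r : ℕ} (hrs : r ≤ s) (hsq : s ≤ q) {L : ℝ} (hL0 : 0 ≤ L)
    (hL : (q.choose s : ℝ) ≤ Real.exp L) :
    ∃ (M : ℕ) (F : Finset (Finset (Fin q))), (M : ℝ) ≤ (q.choose r : ℝ) / s.choose r * L + 1 ∧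
      F.card ≤ M ∧ (∀ e ∈ F, e.card = r) ∧
      ∀ X : Finset (Fin q), X.card = s → ∃ e ∈ F, e ⊆ X := by
  have pA : (0:ℝ) < q.choose r := by exact_mod_cast Nat.choose_pos (hrs.trans hsq)
  have pB : (0:ℝ) < s.choose r := by exact_mod_cast Nat.choose_pos hrs
  have hBA : s.choose r ≤ q.choose r := Nat.choose_le_choose r hsq
  set M := ⌊(q.choose r : ℝ) / s.choose r * L⌋₊ + 1 with hM
  have m1 : (q.choose r : ℝ) / s.choose r * L < M := by
    rw [hM]; push_cast; exact Nat.lt_floor_add_one _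
  have m2 : (M : ℝ) ≤ (q.choose r : ℝ) / s.choose r * L + 1 := by
    rw [hM]; push_cast
    linarith [Nat.floor_le (show 0 ≤ (q.choose r : ℝ) / s.choose r * L by positivity)]
  obtain ⟨F, f1, f2, f3⟩ := greedy (s := s) (hrs.trans hsq) M (powersetCard s univ)
    (fun X hX => (mem_powersetCard.1 hX).2) (by
      have hc : (powersetCard s (univ : Finset (Fin q))).card = q.choose s := by simp
      rw [hc]
      have key : (q.choose s : ℝ) * ((q.choose r : ℝ) - s.choose r) ^ M < (q.choose r : ℝ) ^ M := by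
        have a1 : (q.choose r : ℝ) - s.choose r
            ≤ q.choose r * Real.exp (-((s.choose r : ℝ) / q.choose r)) := by
          have := Real.add_one_le_exp (-((s.choose r : ℝ) / q.choose r))
          have h2 := mul_le_mul_of_nonneg_left this pA.le
          have e : (q.choose r : ℝ) * (-((s.choose r : ℝ) / q.choose r) + 1)
              = q.choose r - s.choose r := by field_simp; ring
          linarith
        have a0 : (0:ℝ) ≤ (q.choose r : ℝ) - s.choose r := by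
          have : (s.choose r : ℝ) ≤ q.choose r := by exact_mod_cast hBA
          linarith
        have a2 : L + M * -((s.choose r : ℝ) / q.choose r) < 0 := by
          rw [div_mul_eq_mul_div, div_lt_iff₀ pB] at m1
          have : L < M * ((s.choose r : ℝ) / q.choose r) := by
            rw [← mul_div_assoc, lt_div_iff₀ pA]; linarith
          linarith
        calc _ ≤ Real.exp L * (q.choose r * Real.exp (-((s.choose r : ℝ) / q.choose r))) ^ M := by
              gcongr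
          _ = (q.choose r : ℝ) ^ M * Real.exp (L + M * -((s.choose r : ℝ) / q.choose r)) := by
              rw [mul_pow, Real.exp_add, Real.exp_nat_mul]; ring
          _ < (q.choose r : ℝ) ^ M * 1 := by
              gcongr; exact Real.exp_lt_one_iff.2 a2
          _ = _ := mul_one _
      exact_mod_cast (by push_cast [hBA]; exact key :
        ((q.choose s * (q.choose r - s.choose r) ^ M : ℕ) : ℝ) < ((q.choose r ^ M : ℕ) : ℝ)))
  exact ⟨M, F, m2, f1, f2, fun X hX => f3 X (by simp [hX])⟩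

theorem term_one {q s r a D : ℕ} (hr : 1 ≤ r) (hD : 0 < D) (hs : s + 1 = D + r) (hq : 0 < q)
    {L : ℝ} (hL : 0 ≤ L) :
    (a:ℝ) ^ (r - 1) * ((q.choose r : ℝ) / s.choose r * (s * L)) / (q:ℝ) ^ r
      ≤ ((a:ℝ) / D) ^ (r - 1) * L := by
  obtain ⟨r', rfl⟩ : ∃ r', r = r' + 1 := ⟨r - 1, by omega⟩
  obtain ⟨s', rfl⟩ : ∃ s', s = s' + 1 := ⟨s - 1, by omega⟩
  simp only [Nat.add_sub_cancel]
  have h1 : (q.choose (r' + 1) : ℝ) ≤ (q:ℝ) ^ (r' + 1) / (r' + 1).factorial :=
    Nat.choose_le_pow_div _ q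
  have h2 : (s' + 1) * D ^ r' ≤ (r' + 1).factorial * (s' + 1).choose (r' + 1) := by
    rw [← Nat.descFactorial_eq_factorial_mul_choose, Nat.succ_descFactorial_succ]
    have := Nat.pow_sub_le_descFactorial s' r'
    rw [show s' + 1 - r' = D by omega] at this
    gcongr
  have h2' : ((s' + 1 : ℕ) : ℝ) * (D:ℝ) ^ r'
      ≤ (r' + 1).factorial * ((s' + 1).choose (r' + 1) : ℝ) := by exact_mod_cast h2
  have pB : (0:ℝ) < (s' + 1).choose (r' + 1) := by exact_mod_cast Nat.choose_pos (by omega)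
  have pD : (0:ℝ) < D := by exact_mod_cast hD
  have pq : (0:ℝ) < q := by exact_mod_cast hq
  have pf : (0:ℝ) < (r' + 1).factorial := by exact_mod_cast Nat.factorial_pos _
  calc _ ≤ (a:ℝ) ^ r' * (((q:ℝ) ^ (r' + 1) / (r' + 1).factorial) / (s' + 1).choose (r' + 1)
        * (((s' + 1 : ℕ) : ℝ) * L)) / (q:ℝ) ^ (r' + 1) := by gcongr
    _ = ((a:ℝ) / D) ^ r' * L * ((((s' + 1 : ℕ) : ℝ) * (D:ℝ) ^ r')
        / ((r' + 1).factorial * ((s' + 1).choose (r' + 1) : ℝ))) := by
        rw [div_pow]; field_simp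
    _ ≤ ((a:ℝ) / D) ^ r' * L * 1 := by
        gcongr; rwa [div_le_one (by positivity)]
    _ = _ := mul_one _

theorem term_two {q r h a : ℕ} (hr : 2 ≤ r) (hh : h = r / 2) (ha : 1 ≤ a) (hq : 0 < q)
    (hb : 243 * a ^ 2 ≤ r * q) :
    (a:ℝ) ^ (r - 1) / r.factorial * ((q.choose (r - h) : ℝ) * ((r - h : ℕ) : ℝ) ^ r / (q:ℝ) ^ r)
      ≤ 1 := by
  obtain ⟨g, hg⟩ : ∃ g, r = g + h := ⟨r - h, by omega⟩
  have e1 : r - h = g := by omega
  rw [e1]
  have pq : (0:ℝ) < q := by exact_mod_cast hq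
  have pr : (0:ℝ) < r := by exact_mod_cast (by omega : 0 < r)
  have pf : (0:ℝ) < r.factorial := by exact_mod_cast Nat.factorial_pos _
  have pg : (0:ℝ) < g.factorial := by exact_mod_cast Nat.factorial_pos _
  have h1 : (q.choose g : ℝ) ≤ (q:ℝ) ^ g / g.factorial := Nat.choose_le_pow_div _ q
  have h2 := Real.pow_div_factorial_le_exp (g:ℝ) (by positivity) g
  have h3 := Real.pow_div_factorial_le_exp (r:ℝ) (by positivity) r
  have h4 : Real.exp r * Real.exp g ≤ 243 ^ h := by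
    rw [← Real.exp_add]
    have a1 : (r:ℝ) + g ≤ h * 5 := by
      have : r + g ≤ h * 5 := by omega
      exact_mod_cast this
    have a2 : Real.exp 5 ≤ 243 := by
      have : Real.exp 5 = Real.exp 1 ^ 5 := by rw [← Real.exp_nat_mul]; norm_num
      rw [this]
      have := Real.exp_one_lt_three
      calc Real.exp 1 ^ 5 ≤ 3 ^ 5 := by gcongr
        _ = 243 := by norm_num
    calc _ ≤ Real.exp (h * 5) := by gcongr
      _ = Real.exp 5 ^ h := Real.exp_nat_mul _ _
      _ ≤ _ := by gcongr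
  have a1 : (1:ℝ) ≤ a := by exact_mod_cast ha
  have h5 : (a:ℝ) ^ (r - 1) ≤ ((a:ℝ) ^ 2) ^ h := by
    rw [← pow_mul]; exact pow_le_pow_right₀ a1 (by omega)
  have h6 : (g:ℝ) ^ h ≤ (r:ℝ) ^ h := by
    gcongr; omega
  have h7 : ((r:ℝ) ^ h) ^ 2 ≤ (r:ℝ) ^ r := by
    rw [← pow_mul]
    exact pow_le_pow_right₀ (by exact_mod_cast (by omega : 1 ≤ r)) (by omega)
  have h8 : (243:ℝ) ^ h * ((a:ℝ) ^ 2) ^ h ≤ (r:ℝ) ^ h * (q:ℝ) ^ h := by
    rw [← mul_pow, ← mul_pow]
    exact pow_le_pow_left₀ (by positivity) (by exact_mod_cast hb) h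
  calc _ ≤ (a:ℝ) ^ (r - 1) / r.factorial * ((q:ℝ) ^ g / g.factorial * (g : ℝ) ^ r / (q:ℝ) ^ r) := by
        gcongr
    _ = (a:ℝ) ^ (r - 1) * (((r:ℝ) ^ r / r.factorial) * ((g:ℝ) ^ g / g.factorial)) * (g:ℝ) ^ h
        / ((r:ℝ) ^ r * (q:ℝ) ^ h) := by
        have b1 : (g:ℝ) ^ r = (g:ℝ) ^ g * (g:ℝ) ^ h := by rw [← pow_add, ← hg]
        have b2 : (q:ℝ) ^ r = (q:ℝ) ^ g * (q:ℝ) ^ h := by rw [← pow_add, ← hg]
        rw [b1, b2]; field_simp
    _ ≤ ((a:ℝ) ^ 2) ^ h * (Real.exp r * Real.exp g) * (r:ℝ) ^ h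
        / (((r:ℝ) ^ h) ^ 2 * (q:ℝ) ^ h) := by gcongr
    _ ≤ ((a:ℝ) ^ 2) ^ h * 243 ^ h * (r:ℝ) ^ h / (((r:ℝ) ^ h) ^ 2 * (q:ℝ) ^ h) := by gcongr
    _ ≤ 1 := by
        rw [div_le_one (by positivity)]
        have := mul_le_mul_of_nonneg_right h8 (show 0 ≤ (r:ℝ) ^ h by positivity)
        nlinarith

theorem tStar_le {r K : ℕ} (hr : 2 ≤ r) (hK : 2 ≤ K) :
    ∃ a : ℕ, r ≤ a ∧ tStar a r ≤ (1 + 3 / K) * (1 + Real.log (1000 * K * r)) + 2 := by
  set D := K * r ^ 2 with hD
  have hD4 : 2 * r * r ≤ D := by rw [hD]; nlinarith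
  have hD5 : 4 * r ≤ D := by nlinarith
  set s := D + r - 1 with hs
  set h := r / 2 with hh
  set q := 1000 * K * r * s with hq
  have hs0 : 0 < s := by omega
  have hq1 : 1000 * K * r * s ≥ 4000 * s := by
    have : 4000 ≤ 1000 * K * r := by nlinarith
    exact Nat.mul_le_mul_right s this
  have hq0 : 0 < q := by omega
  set a := s + h - 1 with ha
  have ps : (0:ℝ) < s := by exact_mod_cast hs0
  have pq : (0:ℝ) < q := by exact_mod_cast hq0
  have pK : (2:ℝ) ≤ K := by exact_mod_cast hK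
  have pr : (2:ℝ) ≤ r := by exact_mod_cast hr
  have pf : (0:ℝ) < r.factorial := by exact_mod_cast Nat.factorial_pos _
  have eq : (q:ℝ) / s = 1000 * K * r := by rw [hq]; push_cast; field_simp
  set L := 1 + Real.log (1000 * K * r) with hL
  have hL0 : 0 ≤ L := by
    have := Real.log_nonneg (show (1:ℝ) ≤ 1000 * K * r by nlinarith)
    linarith
  have hce := choose_le_exp hs0 hq0
  rw [eq, ← hL] at hce
  obtain ⟨M, F, m, f1, f2, f3⟩ := exists_family (q := q) (s := s) (r := r) (by omega) (by omega)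
    (by positivity) hce
  refine ⟨a, by omega, ?_⟩
  have hb := (t_bounds (k := a + 1) (r := r) (by omega)
    (B := (M * r.factorial + (q.choose (r - h) : ℝ) * ((r - h : ℕ) : ℝ) ^ r) / (q:ℝ) ^ r)
    (by positivity) (fun n hn => by
      have := blowup hq0 hn (h := h) (by omega) (by omega) (by omega) F f1 f2 f3
      rw [show a + 1 = s + h by omega, div_mul_eq_mul_div, le_div_iff₀ (by positivity), mul_comm _
        (n.choose r : ℝ)]
      exact_mod_cast this)).2
  have t1 := term_one (q := q) (s := s) (r := r) (a := a) (D := D) (by omega) (by omega) (by omega)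
    hq0 hL0
  have t2 := term_two (q := q) (r := r) (h := h) (a := a) hr hh (by omega) hq0 (by
    have a1 : a ≤ 2 * D := by omega
    have a2 : a ≤ 2 * s := by omega
    calc 243 * a ^ 2 = 243 * (a * a) := by ring
      _ ≤ 250 * ((2 * D) * (2 * s)) := by gcongr; norm_num
      _ = r * q := by rw [hq, hD]; ring)
  have t3 : (a:ℝ) ^ (r - 1) / (q:ℝ) ^ r ≤ 1 := by
    rw [div_le_one (by positivity)]
    have : a ^ (r - 1) ≤ q ^ r :=
      (Nat.pow_le_pow_left (by omega : a ≤ q) _).trans (Nat.pow_le_pow_right hq0 (by omega))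
    exact_mod_cast this
  have t4 : ((a:ℝ) / D) ^ (r - 1) ≤ 1 + 3 / K := by
    have pD : (0:ℝ) < D := by exact_mod_cast (by omega : 0 < D)
    have a1 : (a:ℝ) / D ≤ 3 / (2 * K * r) + 1 := by
      have b1 : 2 * a ≤ 2 * D + 3 * r := by omega
      have b2 : 2 * (a:ℝ) ≤ 2 * D + 3 * r := by exact_mod_cast b1
      have b3 : (D:ℝ) = K * r ^ 2 := by rw [hD]; push_cast; ring
      rw [div_le_iff₀ pD]
      have b4 : (3 / (2 * K * r) + 1) * (D:ℝ) = D + 3 * r / 2 := by rw [b3]; field_simp; ring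
      linarith
    have a2 := a1.trans (Real.add_one_le_exp _)
    have a3 : ((r - 1 : ℕ) : ℝ) * (3 / (2 * K * r)) ≤ 3 / (2 * K) := by
      have b1 : ((r - 1 : ℕ) : ℝ) ≤ r := by exact_mod_cast Nat.sub_le r 1
      calc _ ≤ (r:ℝ) * (3 / (2 * K * r)) := by gcongr
        _ = _ := by field_simp
    have a4 : (0:ℝ) ≤ 3 / (2 * K) := by positivity
    have a5 : (3:ℝ) / (2 * K) ≤ 1 := by rw [div_le_one (by positivity)]; linarith
    have a6 := Real.abs_exp_sub_one_le (x := 3 / (2 * K)) (by rwa [abs_of_nonneg a4])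
    rw [abs_of_nonneg a4] at a6
    have a7 : 2 * (3 / (2 * (K:ℝ))) = 3 / K := by field_simp
    calc _ ≤ Real.exp (3 / (2 * K * r)) ^ (r - 1) := by gcongr
      _ = Real.exp (((r - 1 : ℕ) : ℝ) * (3 / (2 * K * r))) := (Real.exp_nat_mul _ _).symm
      _ ≤ Real.exp (3 / (2 * K)) := by gcongr
      _ ≤ _ := by linarith [le_abs_self (Real.exp (3 / (2 * K)) - 1)]
  have t5 : ((a:ℝ) / D) ^ (r - 1) * L ≤ (1 + 3 / K) * L := by gcongr
  unfold tStar
  calc _ ≤ (a:ℝ) ^ (r - 1) / r.factorial * ((((q.choose r : ℝ) / s.choose r * (s * L) + 1)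
        * r.factorial + (q.choose (r - h) : ℝ) * ((r - h : ℕ) : ℝ) ^ r) / (q:ℝ) ^ r) := by
        gcongr
        exact hb.trans (by gcongr)
    _ = (a:ℝ) ^ (r - 1) * ((q.choose r : ℝ) / s.choose r * (s * L)) / (q:ℝ) ^ r
        + (a:ℝ) ^ (r - 1) / (q:ℝ) ^ r + (a:ℝ) ^ (r - 1) / r.factorial
          * ((q.choose (r - h) : ℝ) * ((r - h : ℕ) : ℝ) ^ r / (q:ℝ) ^ r) := by
        field_simp
    _ ≤ _ := by linarith

theorem tInf_le {a r : ℕ} (h : r ≤ a) : tInf r ≤ tStar a r := by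
  refine ciInf_le (f := fun a : {a : ℕ // r ≤ a} => tStar a r) ⟨0, ?_⟩ ⟨a, h⟩
  rintro _ ⟨b, rfl⟩
  have := t_nonneg (k := b.1 + 1) (r := r) (by have := b.2; omega)
  unfold tStar
  positivity

theorem upper {r : ℕ} (hr : 3 ≤ r) :
    tInf r ≤ Real.log r + Real.log (Real.log r) + 30 := by
  have pr : (3:ℝ) ≤ r := by exact_mod_cast hr
  have l1 : 1 < Real.log r := by
    rw [Real.lt_log_iff_exp_lt (by linarith)]
    linarith [Real.exp_one_lt_three]
  set K := ⌈Real.log r⌉₊ with hK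
  have k1 : Real.log r ≤ K := Nat.le_ceil _
  have k2 : (K:ℝ) < Real.log r + 1 := Nat.ceil_lt_add_one (by linarith)
  have hK2 : 2 ≤ K := by
    have : (1:ℝ) < K := by linarith
    exact_mod_cast (by exact_mod_cast this : 1 < K)
  have pK : (2:ℝ) ≤ K := by exact_mod_cast hK2
  obtain ⟨a, ha, h⟩ := tStar_le (by omega : 2 ≤ r) hK2
  refine (tInf_le ha).trans (h.trans ?_)
  rw [Real.log_mul (by positivity) (by positivity), Real.log_mul (by positivity) (by positivity)]
  have l2 := Real.log_two_lt_d9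
  have a1 : Real.log 1000 ≤ 7 := by
    have : Real.log 1000 ≤ Real.log (2 ^ 10) := by gcongr; norm_num
    rw [Real.log_pow] at this
    push_cast at this
    linarith
  have a2 : Real.log K ≤ Real.log 2 + Real.log (Real.log r) := by
    rw [← Real.log_mul (by norm_num) (by linarith)]
    gcongr; linarith
  have a3 : Real.log K ≤ K - 1 := Real.log_le_sub_one_of_pos (by linarith)
  have a4 : 3 / K * (1 + (Real.log 1000 + Real.log K + Real.log r)) ≤ 17 := by
    rw [div_mul_eq_mul_div, div_le_iff₀ (by linarith)]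
    linarith
  linarith

end Pool.Agent.Lib.MP_ff43e2_co
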